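import Pool.Agent.Work.MP_6b4466_lc.NP.Defs

/-! # Unit vectors in nearly the same direction (M)

Let `a ‖x‖ ≤ M x ≤ b ‖x‖`, `e` a Euclidean unit vector, and `u, u'` with `M u = M u' = 1` whose
directions are close to the line of `e`: `‖u‖ - |⟪e, u⟫| ≤ (κ² / 2) ‖u‖` and the same for `u'`.
Then `‖u - u'‖ ≤ C` or `‖u + u'‖ ≤ C` with `C = 2 κ / a + 2 b κ / a²`.

PROOF. Let `û = ‖u‖⁻¹ • u` and let `σ ∈ {1, -1}` be the sign of `⟪e, u⟫`. Then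
`‖û - σ e‖² = 2 - 2 |⟪e, û⟫| ≤ κ²`, so `‖û - σ e‖ ≤ κ`. Similarly `‖û' - σ' e‖ ≤ κ`. With
`ρ = σ σ'`: `‖û - ρ û'‖ ≤ ‖û - σ e‖ + ‖σ e - ρ û'‖ ≤ 2 κ` (`σ e - ρ û' = ρ (σ' e - û')`).
Now `u = (M û)⁻¹ • û`, `ρ u' = (M (ρ û'))⁻¹ • (ρ û')` (as `M u = 1`, and `M (ρ û') = M û'`),
`M û, M û' ≥ a`, `|M û - M (ρ û')| ≤ M (û - ρ û') ≤ 2 b κ`, so
`‖u - ρ u'‖ ≤ (M û)⁻¹ ‖û - ρ û'‖ + |(M û)⁻¹ - (M (ρ û'))⁻¹| ‖ρ û'‖ ≤ 2 κ / a + 2 b κ / a²`.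
For `ρ = 1` this is the first alternative, for `ρ = -1` the second one.
-/

namespace NPl

open Set Metric Topology
open scoped RealInnerProductSpace

theorem dir_close {κ : ℝ} (hκ : 0 ≤ κ) {e u : Pl} (he : ‖e‖ = 1) (hu : u ≠ 0)
    (h : ‖u‖ - |⟪e, u⟫| ≤ κ ^ 2 / 2 * ‖u‖) :
    ∃ σ : ℝ, (σ = 1 ∨ σ = -1) ∧ ‖‖u‖⁻¹ • u - σ • e‖ ≤ κ := by
  have hpos : 0 < ‖u‖ := norm_pos_iff.2 hu
  obtain ⟨σ, hσ, hσ'⟩ : ∃ σ : ℝ, (σ = 1 ∨ σ = -1) ∧ σ * ⟪e, u⟫ = |⟪e, u⟫| := by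
    rcases le_total 0 ⟪e, u⟫ with h1 | h1
    · exact ⟨1, Or.inl rfl, by rw [abs_of_nonneg h1, one_mul]⟩
    · exact ⟨-1, Or.inr rfl, by rw [abs_of_nonpos h1, neg_one_mul]⟩
  refine ⟨σ, hσ, ?_⟩
  have hσ2 : σ ^ 2 = 1 := by
    rcases hσ with rfl | rfl <;> norm_num
  have h1 : ‖‖u‖⁻¹ • u - σ • e‖ ^ 2 = 2 - 2 * (‖u‖⁻¹ * |⟪e, u⟫|) := by
    rw [norm_sub_sq_real, norm_smul, norm_smul, norm_inv, norm_norm, inv_mul_cancel₀ hpos.ne', he,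
      real_inner_smul_left, real_inner_smul_right, real_inner_comm, Real.norm_eq_abs, mul_one,
      sq_abs, hσ2, ← hσ']
    ring
  have h2 : 1 - ‖u‖⁻¹ * |⟪e, u⟫| ≤ κ ^ 2 / 2 := by
    have h3 := mul_le_mul_of_nonneg_left h (inv_nonneg.2 hpos.le)
    have h4 : ‖u‖⁻¹ * (‖u‖ - |⟪e, u⟫|) = 1 - ‖u‖⁻¹ * |⟪e, u⟫| := by
      rw [mul_sub, inv_mul_cancel₀ hpos.ne']
    have h5 : ‖u‖⁻¹ * (κ ^ 2 / 2 * ‖u‖) = κ ^ 2 / 2 := by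
      field_simp
    rw [h4, h5] at h3
    exact h3
  refine abs_le_of_sq_le_sq' ?_ hκ |>.2
  rw [h1]
  linarith

theorem ratio_close {a b κ : ℝ} (ha : 0 < a) (M : Seminorm ℝ Pl)
    (hM : ∀ x, a * ‖x‖ ≤ M x ∧ M x ≤ b * ‖x‖) {w w' : Pl} (hw : ‖w‖ = 1) (hw' : ‖w'‖ = 1)
    (hww : ‖w - w'‖ ≤ 2 * κ) :
    ‖(M w)⁻¹ • w - (M w')⁻¹ • w'‖ ≤ 2 * κ / a + 2 * b * κ / a ^ 2 := by
  have hb : 0 ≤ b := by
    have h1 := hM w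
    rw [hw, mul_one, mul_one] at h1
    linarith [h1.1, h1.2]
  have hMw : a ≤ M w := by
    have := (hM w).1
    rwa [hw, mul_one] at this
  have hMw' : a ≤ M w' := by
    have := (hM w').1
    rwa [hw', mul_one] at this
  have hp : 0 < M w := ha.trans_le hMw
  have hp' : 0 < M w' := ha.trans_le hMw'
  have h1 : (M w)⁻¹ • w - (M w')⁻¹ • w' = (M w)⁻¹ • (w - w') + ((M w)⁻¹ - (M w')⁻¹) • w' := by
    module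
  have h2 : (M w)⁻¹ ≤ a⁻¹ := inv_anti₀ ha hMw
  have h3 : |(M w)⁻¹ - (M w')⁻¹| ≤ 2 * b * κ / a ^ 2 := by
    have h4 : (M w)⁻¹ - (M w')⁻¹ = (M w' - M w) / (M w * M w') := by
      field_simp
    rw [h4, abs_div, abs_of_pos (mul_pos hp hp')]
    have h5 : |M w' - M w| ≤ 2 * b * κ := by
      refine (abs_sub_map_le_sub M w' w).trans ((hM _).2.trans ?_)
      rw [norm_sub_rev]
      nlinarith
    have h6 : a ^ 2 ≤ M w * M w' := by nlinarith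
    have h7 : 0 ≤ 2 * b * κ := (abs_nonneg _).trans h5
    exact div_le_div₀ h7 h5 (by positivity) h6
  rw [h1]
  refine (norm_add_le _ _).trans ?_
  rw [norm_smul, norm_smul, hw', mul_one, Real.norm_eq_abs, Real.norm_eq_abs,
    abs_of_pos (inv_pos.2 hp)]
  refine add_le_add ?_ h3
  calc (M w)⁻¹ * ‖w - w'‖ ≤ a⁻¹ * (2 * κ) :=
        mul_le_mul h2 hww (norm_nonneg _) (inv_nonneg.2 ha.le)
    _ = 2 * κ / a := by ring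

theorem close_of_dir {a b κ : ℝ} (ha : 0 < a) (hκ : 0 ≤ κ) (M : Seminorm ℝ Pl)
    (hM : ∀ x, a * ‖x‖ ≤ M x ∧ M x ≤ b * ‖x‖) {e u u' : Pl} (he : ‖e‖ = 1) (hu : M u = 1)
    (hu' : M u' = 1) (h : ‖u‖ - |⟪e, u⟫| ≤ κ ^ 2 / 2 * ‖u‖)
    (h' : ‖u'‖ - |⟪e, u'⟫| ≤ κ ^ 2 / 2 * ‖u'‖) :
    ‖u - u'‖ ≤ 2 * κ / a + 2 * b * κ / a ^ 2 ∨ ‖u + u'‖ ≤ 2 * κ / a + 2 * b * κ / a ^ 2 := by
  have hu0 : u ≠ 0 := by
    rintro rfl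
    rw [map_zero] at hu
    exact zero_ne_one hu
  have hu0' : u' ≠ 0 := by
    rintro rfl
    rw [map_zero] at hu'
    exact zero_ne_one hu'
  have hp : 0 < ‖u‖ := norm_pos_iff.2 hu0
  have hp' : 0 < ‖u'‖ := norm_pos_iff.2 hu0'
  obtain ⟨σ, hσ, h1⟩ := dir_close hκ he hu0 h
  obtain ⟨σ', hσ', h1'⟩ := dir_close hκ he hu0' h'
  have hn : ‖‖u‖⁻¹ • u‖ = 1 := by
    rw [norm_smul, norm_inv, norm_norm, inv_mul_cancel₀ hp.ne']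
  have hn' : ‖‖u'‖⁻¹ • u'‖ = 1 := by
    rw [norm_smul, norm_inv, norm_norm, inv_mul_cancel₀ hp'.ne']
  have hMu : (M (‖u‖⁻¹ • u))⁻¹ • (‖u‖⁻¹ • u) = u := by
    rw [map_smul_eq_mul, norm_inv, norm_norm, hu, mul_one, inv_inv, smul_smul,
      mul_inv_cancel₀ hp.ne', one_smul]
  have hMu' : (M (‖u'‖⁻¹ • u'))⁻¹ • (‖u'‖⁻¹ • u') = u' := by
    rw [map_smul_eq_mul, norm_inv, norm_norm, hu', mul_one, inv_inv, smul_smul,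
      mul_inv_cancel₀ hp'.ne', one_smul]
  by_cases hss : σ = σ'
  · left
    have h2 : ‖‖u‖⁻¹ • u - ‖u'‖⁻¹ • u'‖ ≤ 2 * κ := by
      have h3 : ‖u‖⁻¹ • u - ‖u'‖⁻¹ • u' = (‖u‖⁻¹ • u - σ • e) - (‖u'‖⁻¹ • u' - σ' • e) := by
        rw [hss]; abel
      rw [h3]
      refine (norm_sub_le _ _).trans ?_
      linarith
    have h4 := ratio_close ha M hM hn hn' h2
    rwa [hMu, hMu'] at h4
  · right
    have hss' : σ = -σ' := by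
      rcases hσ with rfl | rfl <;> rcases hσ' with rfl | rfl <;> simp_all
    have hn'' : ‖-(‖u'‖⁻¹ • u')‖ = 1 := by rw [norm_neg, hn']
    have h2 : ‖‖u‖⁻¹ • u - -(‖u'‖⁻¹ • u')‖ ≤ 2 * κ := by
      have h3 : ‖u‖⁻¹ • u - -(‖u'‖⁻¹ • u') = (‖u‖⁻¹ • u - σ • e) + (‖u'‖⁻¹ • u' - σ' • e) := by
        rw [hss', neg_smul]; abel
      rw [h3]
      refine (norm_add_le _ _).trans ?_
      linarith
    have h4 := ratio_close ha M hM hn hn'' h2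
    rw [map_neg_eq_map, smul_neg, hMu, hMu', sub_neg_eq_add] at h4
    exact h4

end NPl
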