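import Pool.Agent.Work.MP_6b4466_lc.NP.Om

/-! # Connected pieces of the unit circle (S-M)

PROOF (`circle_preconnected`). `{x | N x = 1}` is the image of the Euclidean unit sphere
(preconnected by `isPreconnected_sphere`, as `Module.rank ℝ Pl = 2 > 1`) under the map
`x ↦ (N x)⁻¹ • x`, continuous on the complement of `0` (use `IsPreconnected.image` with
`ContinuousOn`): if `N x = 1`, `x` is the image of `‖x‖⁻¹ • x`; and images have `N = 1`.

PROOF (`arc_exists`). Take `K` = image of the segment `[u, v]` (`segment ℝ u v`, convex, hence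
preconnected) under `x ↦ (N x)⁻¹ • x`. On the segment `om a x > 0` (convex combination of
`om a u > 0`, `om a v > 0`), so `x ≠ 0`, `N x > 0`, the map is continuous there, the images have
`N = 1` and `om a > 0`; `u` and `v` are their own images as `N u = N v = 1`.
-/

namespace NPl

open Set Metric Topology

theorem norm_pos_of {N : Seminorm ℝ Pl} (h : Nrm N) {x : Pl} (hx : x ≠ 0) : 0 < N x :=
  lt_of_le_of_ne (apply_nonneg N _) fun h0 => hx (h.defin _ h0.symm)

theorem normalize_cont {N : Seminorm ℝ Pl} (h : Nrm N) {S : Set Pl} (hS : ∀ x ∈ S, x ≠ 0) :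
    ContinuousOn (fun x : Pl => (N x)⁻¹ • x) S :=
  ContinuousOn.smul (ContinuousOn.inv₀ h.cont.continuousOn fun x hx =>
    (norm_pos_of h (hS x hx)).ne') continuousOn_id

theorem normalize_one {N : Seminorm ℝ Pl} (h : Nrm N) {x : Pl} (hx : x ≠ 0) :
    N ((N x)⁻¹ • x) = 1 := by
  rw [map_smul_eq_mul, norm_inv, Real.norm_eq_abs, abs_of_pos (norm_pos_of h hx),
    inv_mul_cancel₀ (norm_pos_of h hx).ne']

theorem circle_preconnected {N : Seminorm ℝ Pl} (h : Nrm N) :
    IsPreconnected {x : Pl | N x = 1} := by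
  have hrank : 1 < Module.rank ℝ Pl := by
    rw [← Module.finrank_eq_rank, finrank_euclideanSpace_fin]
    norm_num
  have h1 : IsPreconnected (sphere (0 : Pl) 1) := isPreconnected_sphere hrank 0 1
  have h2 : ∀ x ∈ sphere (0 : Pl) 1, x ≠ 0 := by
    rintro x hx rfl
    rw [mem_sphere_zero_iff_norm, norm_zero] at hx
    exact zero_ne_one hx
  have h3 := h1.image _ (normalize_cont h h2)
  have h4 : (fun x : Pl => (N x)⁻¹ • x) '' sphere (0 : Pl) 1 = {x : Pl | N x = 1} := by
    apply Set.eq_of_subset_of_subset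
    · rintro _ ⟨x, hx, rfl⟩
      exact normalize_one h (h2 x hx)
    · intro x hx
      have hx0 : x ≠ 0 := ne_zero_of_unit hx
      have hx' : ‖x‖ ≠ 0 := norm_ne_zero_iff.2 hx0
      refine ⟨‖x‖⁻¹ • x, ?_, ?_⟩
      · rw [mem_sphere_zero_iff_norm, norm_smul, norm_inv, norm_norm, inv_mul_cancel₀ hx']
      · simp only
        have hx1 : N x = 1 := hx
        rw [map_smul_eq_mul, norm_inv, norm_norm, hx1, mul_one, inv_inv, smul_smul,
          mul_inv_cancel₀ hx', one_smul]
  rwa [h4] at h3

theorem arc_exists {N : Seminorm ℝ Pl} (h : Nrm N) {a u v : Pl} (hu : N u = 1) (hv : N v = 1)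
    (hau : 0 < om a u) (hav : 0 < om a v) :
    ∃ K : Set Pl, IsPreconnected K ∧ u ∈ K ∧ v ∈ K ∧ ∀ s ∈ K, N s = 1 ∧ 0 < om a s := by
  have hpos : ∀ x ∈ segment ℝ u v, 0 < om a x := by
    rintro x ⟨α, β, hα, hβ, hαβ, rfl⟩
    rw [om_add_right, om_smul_right, om_smul_right]
    rcases lt_or_eq_of_le hα with h1 | h1
    · have := mul_pos h1 hau
      have := mul_nonneg hβ hav.le
      linarith
    · have h2 : β = 1 := by linarith
      rw [← h1, h2]
      linarith
  have hne : ∀ x ∈ segment ℝ u v, x ≠ 0 := by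
    rintro x hx rfl
    have := hpos 0 hx
    rw [om_zero_right] at this
    exact lt_irrefl _ this
  refine ⟨(fun x : Pl => (N x)⁻¹ • x) '' segment ℝ u v,
    (convex_segment u v).isPreconnected.image _ (normalize_cont h hne), ?_, ?_, ?_⟩
  · exact ⟨u, left_mem_segment ℝ u v, by simp only; rw [hu, inv_one, one_smul]⟩
  · exact ⟨v, right_mem_segment ℝ u v, by simp only; rw [hv, inv_one, one_smul]⟩
  · rintro _ ⟨x, hx, rfl⟩
    refine ⟨normalize_one h (hne x hx), ?_⟩
    simp only
    rw [om_smul_right]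
    exact mul_pos (inv_pos.2 (norm_pos_of h (hne x hx))) (hpos x hx)

end NPl
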