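import Pool.Agent.Work.MP_6b4466_lc.NP.Om

/-! # From sets with the Baire property to open sets (S-M)

Adapt the PROVED file `Pool/Agent/Work/MP_6b4466_lc/BP2.lean` (theorem `BPQ.bp_openD`, 60 lines):
there `dist x y ≠ 1` is replaced by `N (x - y) ≠ 1` and `sphere 0 1` by `{x | N x = 1}` (note
`N (y - x) = N (x - y)`, `map_sub_rev`); nothing else changes.
-/

namespace NPl

open Set Metric Topology

theorem bp_openN (N : Seminorm ℝ Pl) (D : Set Pl) (hD : {x : Pl | N x = 1} ⊆ closure D) {k : ℕ}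
    (A : Fin k → Set Pl) (hA : ∀ i, BaireMeasurableSet (A i))
    (hcov : ∀ᶠ x in residual Pl, ∃ i, x ∈ A i)
    (hfree : ∀ i, ∀ x ∈ A i, ∀ y ∈ A i, y - x ∉ D) :
    ∃ U : Fin k → Set Pl, (∀ i, IsOpen (U i)) ∧
      (∀ i, ∀ x ∈ U i, ∀ y ∈ U i, N (x - y) ≠ 1) ∧ Dense (⋃ i, U i) := by
  choose U hU hAU using fun i => (hA i).residualEq_isOpen
  have hev : ∀ i, ∀ᶠ z in residual Pl, (z ∈ A i ↔ z ∈ U i) := fun i => by
    filter_upwards [hAU i] with z hz
    exact iff_of_eq hz
  refine ⟨U, hU, ?_, ?_⟩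
  · intro i x hx y hy hxy
    -- a difference in `D` close to `y - x`
    obtain ⟨v, hvD, hvU⟩ : ∃ v ∈ D, x + v ∈ U i := by
      have h1 : y - x ∈ closure D := by
        refine hD ?_
        change N (y - x) = 1
        rw [← hxy, ← map_neg_eq_map N (y - x), neg_sub]
      have h2 : IsOpen {v : Pl | x + v ∈ U i} := (hU i).preimage (by fun_prop)
      obtain ⟨v, hv1, hv2⟩ := _root_.mem_closure_iff.1 h1 _ h2 (by
        change x + (y - x) ∈ U i
        rw [add_sub_cancel]
        exact hy)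
      exact ⟨v, hv2, hv1⟩
    have hev2 : ∀ᶠ z in residual Pl, (z + v ∈ A i ↔ z + v ∈ U i) := by
      have h1 := (Homeomorph.addRight v).residual_map_eq
      have h2 : ∀ᶠ z in Filter.map (Homeomorph.addRight v) (residual Pl),
          (z ∈ A i ↔ z ∈ U i) := by
        rw [h1]
        exact hev i
      exact Filter.eventually_map.1 h2
    have hW : IsOpen (U i ∩ (fun z => z + v) ⁻¹' (U i)) :=
      (hU i).inter ((hU i).preimage (by fun_prop))
    have hne : (U i ∩ (fun z => z + v) ⁻¹' (U i)).Nonempty := ⟨x, hx, hvU⟩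
    obtain ⟨z, hz, hzz⟩ := (dense_of_mem_residual ((hev i).and hev2)).inter_open_nonempty _ hW hne
    have h1 : z ∈ A i := hzz.1.2 hz.1
    have h2 : z + v ∈ A i := hzz.2.2 hz.2
    refine hfree i z h1 (z + v) h2 ?_
    rw [add_sub_cancel_left]
    exact hvD
  · have hall : ∀ᶠ z in residual Pl, ∀ i, (z ∈ A i ↔ z ∈ U i) := Filter.eventually_all.2 hev
    refine (dense_of_mem_residual (hall.and hcov)).mono fun z hz => ?_
    obtain ⟨i, hi⟩ := hz.2
    exact mem_iUnion.2 ⟨i, (hz.1 i).1 hi⟩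

end NPl
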