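import Pool.Agent.Work.MP_6b4466_lc.NP.Space

/-! # The exceptional sets are closed (M)

PROOF (`badSet_closed`). If `N.1 x = 1` with `N ∈ NormSp a b`, `a > 0`, then `‖x‖ ≤ 1 / a`. Let
`B = closedBall 0 (1/a)` in `Fin k → Pl` (sup norm; compact, proper space), a compact space as
subtype. The subset `Z` of `NormSp a b × B` of the pairs `(N, u)` with `N (u i) = 1` for all `i`,
`1/(m+1) ≤ ‖u i - u j‖`, `1/(m+1) ≤ ‖u i + u j‖` for `i ≠ j`, and `u ∈ R`, where `R` is the range of
the linear map `(Fin r → Pl) → (Fin k → Pl)`, `y ↦ (i ↦ ∑ j, (c i j : ℝ) • y j)`, is closed: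
`(N, u) ↦ N (u i)` is continuous (`eval_cont`), and `R` is a subspace of a finite-dimensional space,
hence closed (`Submodule.closed_of_finiteDimensional`). `BadSet a b c m` is the image of `Z` under
the first projection, a closed map because `B` is compact (`isClosedMap_fst_of_compactSpace`).

PROOF (`scBad_closed`). Same with the pairs `(u, v)` in `closedBall 0 (1/a) × closedBall 0 (1/a)`.
-/

namespace NPl

open Set Metric Topology

theorem unit_bound {a b : ℝ} (ha : 0 < a) (N : NormSp a b) {x : Pl} (hx : N.1 x = 1) :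
    ‖x‖ ≤ 1 / a := by
  have h1 := (N.2 x).1
  rw [hx] at h1
  rw [le_div_iff₀ ha]
  linarith

theorem badSet_closed {a b : ℝ} (ha : 0 < a) {k r : ℕ} (c : Fin k → Fin r → ℚ) (m : ℕ) :
    IsClosed (BadSet a b c m) := by
  set R : Submodule ℝ (Fin k → Pl) := LinearMap.range
    (LinearMap.pi fun i : Fin k => ∑ j : Fin r, (c i j : ℝ) •
      (LinearMap.proj j : (Fin r → Pl) →ₗ[ℝ] Pl)) with hR
  have hRmem : ∀ u : Fin k → Pl, u ∈ R ↔ ∃ y : Fin r → Pl, ∀ i, u i = ∑ j, (c i j : ℝ) • y j := by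
    intro u
    rw [hR, LinearMap.mem_range]
    constructor
    · rintro ⟨y, rfl⟩
      exact ⟨y, fun i => by simp⟩
    · rintro ⟨y, hy⟩
      refine ⟨y, ?_⟩
      funext i
      rw [hy i]
      simp
  have hRc : IsClosed (R : Set (Fin k → Pl)) := R.closed_of_finiteDimensional
  have : CompactSpace (closedBall (0 : Fin k → Pl) (1 / a)) :=
    isCompact_iff_compactSpace.1 (isCompact_closedBall _ _)
  set Z : Set (NormSp a b × closedBall (0 : Fin k → Pl) (1 / a)) :=
    {p | (∀ i, p.1.1 (p.2.1 i) = 1) ∧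
      (∀ i j, i ≠ j → 1 / ((m : ℝ) + 1) ≤ ‖p.2.1 i - p.2.1 j‖ ∧
        1 / ((m : ℝ) + 1) ≤ ‖p.2.1 i + p.2.1 j‖) ∧ p.2.1 ∈ R} with hZ
  have hev : ∀ i, Continuous fun p : NormSp a b × closedBall (0 : Fin k → Pl) (1 / a) =>
      p.1.1 (p.2.1 i) := by
    intro i
    exact eval_cont.comp (Continuous.prodMk continuous_fst
      ((continuous_apply i).comp (continuous_subtype_val.comp continuous_snd)))
  have hcoord : ∀ i, Continuous fun p : NormSp a b × closedBall (0 : Fin k → Pl) (1 / a) =>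
      p.2.1 i := fun i => (continuous_apply i).comp (continuous_subtype_val.comp continuous_snd)
  have hZc : IsClosed Z := by
    have h1 : IsClosed (⋂ i : Fin k, {p : NormSp a b × closedBall (0 : Fin k → Pl) (1 / a) |
        p.1.1 (p.2.1 i) = 1}) :=
      isClosed_iInter fun i => isClosed_eq (hev i) continuous_const
    have h2 : IsClosed (⋂ i : Fin k, ⋂ j : Fin k, ⋂ _ : i ≠ j,
        {p : NormSp a b × closedBall (0 : Fin k → Pl) (1 / a) |
          1 / ((m : ℝ) + 1) ≤ ‖p.2.1 i - p.2.1 j‖ ∧ 1 / ((m : ℝ) + 1) ≤ ‖p.2.1 i + p.2.1 j‖}) := by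
      refine isClosed_iInter fun i => isClosed_iInter fun j => isClosed_iInter fun _ => ?_
      exact (isClosed_le continuous_const ((hcoord i).sub (hcoord j)).norm).inter
        (isClosed_le continuous_const ((hcoord i).add (hcoord j)).norm)
    have h3 : IsClosed {p : NormSp a b × closedBall (0 : Fin k → Pl) (1 / a) | p.2.1 ∈ R} :=
      hRc.preimage (continuous_subtype_val.comp continuous_snd)
    have h4 := h1.inter (h2.inter h3)
    refine (congrArg IsClosed ?_).mp h4
    ext p
    simp only [mem_inter_iff, mem_iInter, hZ]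
    rfl
  have himg : BadSet a b c m = Prod.fst '' Z := by
    ext N
    constructor
    · rintro ⟨u, hu1, hu2, hy⟩
      have hub : u ∈ closedBall (0 : Fin k → Pl) (1 / a) := by
        rw [mem_closedBall, dist_zero_right, pi_norm_le_iff_of_nonneg (by positivity)]
        exact fun i => unit_bound ha N (hu1 i)
      exact ⟨(N, ⟨u, hub⟩), ⟨hu1, hu2, (hRmem u).2 hy⟩, rfl⟩
    · rintro ⟨⟨M, u⟩, ⟨hu1, hu2, hy⟩, rfl⟩
      exact ⟨u.1, hu1, hu2, (hRmem u.1).1 hy⟩
  rw [himg]
  exact isClosedMap_fst_of_compactSpace _ hZc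

theorem scBad_closed {a b : ℝ} (ha : 0 < a) (m : ℕ) : IsClosed (ScBad a b m) := by
  have : CompactSpace (closedBall (0 : Pl × Pl) (1 / a)) :=
    isCompact_iff_compactSpace.1 (isCompact_closedBall _ _)
  set Z : Set (NormSp a b × closedBall (0 : Pl × Pl) (1 / a)) :=
    {p | p.1.1 p.2.1.1 = 1 ∧ p.1.1 p.2.1.2 = 1 ∧ 1 / ((m : ℝ) + 1) ≤ ‖p.2.1.1 - p.2.1.2‖ ∧
      p.1.1 (p.2.1.1 + p.2.1.2) = 2} with hZ
  have hc1 : Continuous fun p : NormSp a b × closedBall (0 : Pl × Pl) (1 / a) => p.2.1.1 :=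
    continuous_fst.comp (continuous_subtype_val.comp continuous_snd)
  have hc2 : Continuous fun p : NormSp a b × closedBall (0 : Pl × Pl) (1 / a) => p.2.1.2 :=
    continuous_snd.comp (continuous_subtype_val.comp continuous_snd)
  have he1 := eval_cont.comp (Continuous.prodMk (continuous_fst (X := NormSp a b)
    (Y := closedBall (0 : Pl × Pl) (1 / a))) hc1)
  have he2 := eval_cont.comp (Continuous.prodMk (continuous_fst (X := NormSp a b)
    (Y := closedBall (0 : Pl × Pl) (1 / a))) hc2)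
  have he3 := eval_cont.comp (Continuous.prodMk (continuous_fst (X := NormSp a b)
    (Y := closedBall (0 : Pl × Pl) (1 / a))) (hc1.add hc2))
  have hZc : IsClosed Z := by
    rw [hZ]
    refine IsClosed.inter (isClosed_eq he1 continuous_const)
      (IsClosed.inter (isClosed_eq he2 continuous_const)
      (IsClosed.inter (isClosed_le continuous_const (hc1.sub hc2).norm)
      (isClosed_eq he3 continuous_const)))
  have himg : ScBad a b m = Prod.fst '' Z := by
    ext N
    constructor
    · rintro ⟨u, v, hu, hv, huv, h2⟩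
      have hub : (u, v) ∈ closedBall (0 : Pl × Pl) (1 / a) := by
        rw [mem_closedBall, dist_zero_right, Prod.norm_def]
        exact max_le (unit_bound ha N hu) (unit_bound ha N hv)
      exact ⟨(N, ⟨(u, v), hub⟩), ⟨hu, hv, huv, h2⟩, rfl⟩
    · rintro ⟨⟨M, u⟩, ⟨hu, hv, huv, h2⟩, rfl⟩
      exact ⟨u.1.1, u.1.2, hu, hv, huv, h2⟩
  rw [himg]
  exact isClosedMap_fst_of_compactSpace _ hZc

end NPl
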