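import Pool.Agent.Work.MP_6b4466_lc.NP.Defs

/-! # Generic right-hand sides (M)

PROOF. For an injective `l : Fin k → Fin L` and signs `ε : Fin k → ℝ` with values in `{1, -1}` let
`T_(l,ε) : (Fin r → Pl) →ₗ[ℝ] (Fin k → ℝ)`, `y ↦ (i ↦ ε i * q (l i) (∑ j, (c i j : ℝ) • y j))`.
Its range has dimension at most `finrank (Fin r → Pl) = 2 r < k`, so it is a proper subspace of
`Fin k → ℝ`. The map `ρ_l : (Fin L → ℝ) →ₗ (Fin k → ℝ)`, `s ↦ s ∘ l`, is surjective (`l` injective), so
`comap ρ_l (range T_(l,ε))` is a proper subspace of `Fin L → ℝ` and has Lebesgue measure zero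
(`MeasureTheory.Measure.addHaar_submodule`). There are finitely many pairs `(l, ε)` (take
`ε : Fin k → Bool` or `Fin k → ℤˣ`), so the union of these subspaces has measure zero, whereas the
box `Set.pi univ (fun _ => Icc 1 (1 + η))` has positive measure `η ^ L` (`Real.volume_Icc_pi`; for
`L = 0` the measure of the one point space is `1`; note that then `k ≤ 0` or there is no injective
`l`). So there is `s` in the box outside the union. If `l` is injective and
`|q (l i) (∑ j, (c i j : ℝ) • y j)| = s (l i)` for all `i`, let `ε i` be the sign of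
`q (l i) (...)`: then `T_(l,ε) y = ρ_l s`, a contradiction.
-/

namespace NPl

open Set Metric Topology

private noncomputable def TT {k r L : ℕ} (c : Fin k → Fin r → ℚ) (q : Fin L → (Pl →ₗ[ℝ] ℝ))
    (l : Fin k → Fin L) (ε : Fin k → Bool) : (Fin r → Pl) →ₗ[ℝ] (Fin k → ℝ) :=
  LinearMap.pi fun i => (if ε i then (1 : ℝ) else -1) •
    (q (l i)).comp (∑ j, (c i j : ℝ) • LinearMap.proj j)

private theorem TT_apply {k r L : ℕ} (c : Fin k → Fin r → ℚ) (q : Fin L → (Pl →ₗ[ℝ] ℝ))
    (l : Fin k → Fin L) (ε : Fin k → Bool) (y : Fin r → Pl) (i : Fin k) :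
    TT c q l ε y i = (if ε i then (1 : ℝ) else -1) * q (l i) (∑ j, (c i j : ℝ) • y j) := by
  unfold TT
  rw [LinearMap.pi_apply, LinearMap.smul_apply, LinearMap.comp_apply, LinearMap.sum_apply,
    smul_eq_mul]
  rfl

theorem generic_rhs {k r L : ℕ} (hkr : 2 * r < k) (c : Fin k → Fin r → ℚ)
    (q : Fin L → (Pl →ₗ[ℝ] ℝ)) {η : ℝ} (hη : 0 < η) :
    ∃ s : Fin L → ℝ, (∀ l, 1 ≤ s l ∧ s l ≤ 1 + η) ∧
      ∀ l : Fin k → Fin L, Function.Injective l → ∀ y : Fin r → Pl,
        ¬ ∀ i, |q (l i) (∑ j, (c i j : ℝ) • y j)| = s (l i) := by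
  classical
  set S : (Fin k → Fin L) × (Fin k → Bool) → Set (Fin L → ℝ) := fun p =>
    {s | Function.Injective p.1 ∧
      s ∈ Submodule.comap (LinearMap.funLeft ℝ ℝ p.1) (LinearMap.range (TT c q p.1 p.2))} with hS
  have hfr : Module.finrank ℝ (Fin r → Pl) = 2 * r := by
    rw [Module.finrank_pi_fintype]
    simp only [finrank_euclideanSpace_fin, Finset.sum_const, Finset.card_univ, Fintype.card_fin,
      smul_eq_mul]
    ring
  have hnull : ∀ p, MeasureTheory.volume (S p) = 0 := by
    intro p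
    by_cases hp : Function.Injective p.1
    · have h1 : S p = (Submodule.comap (LinearMap.funLeft ℝ ℝ p.1)
          (LinearMap.range (TT c q p.1 p.2)) : Set (Fin L → ℝ)) := by
        ext s
        exact ⟨fun h => h.2, fun h => ⟨hp, h⟩⟩
      rw [h1]
      refine MeasureTheory.Measure.addHaar_submodule _ _ ?_
      intro htop
      have hsurj : Function.Surjective (LinearMap.funLeft ℝ ℝ p.1) :=
        LinearMap.funLeft_surjective_of_injective ℝ ℝ p.1 hp
      have h2 : LinearMap.range (TT c q p.1 p.2) = ⊤ := by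
        rw [eq_top_iff]
        intro v _
        obtain ⟨s, rfl⟩ := hsurj v
        have : s ∈ Submodule.comap (LinearMap.funLeft ℝ ℝ p.1)
            (LinearMap.range (TT c q p.1 p.2)) := by
          rw [htop]
          exact Submodule.mem_top
        exact this
      have h3 := LinearMap.finrank_range_le (TT c q p.1 p.2)
      rw [h2, finrank_top, hfr, Module.finrank_fintype_fun_eq_card, Fintype.card_fin] at h3
      omega
    · have h1 : S p = ∅ := by
        ext s
        constructor
        · exact fun h => hp h.1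
        · exact fun h => absurd h (Set.notMem_empty s)
      rw [h1, MeasureTheory.measure_empty]
  have hU : MeasureTheory.volume (⋃ p, S p) = 0 := MeasureTheory.measure_iUnion_null hnull
  have hbox : MeasureTheory.volume (Icc (fun _ : Fin L => (1 : ℝ)) (fun _ => 1 + η)) ≠ 0 := by
    rw [Real.volume_Icc_pi]
    refine Finset.prod_ne_zero_iff.2 fun i _ => ?_
    rw [add_sub_cancel_left]
    exact (ENNReal.ofReal_pos.2 hη).ne'
  have hns : ¬ Icc (fun _ : Fin L => (1 : ℝ)) (fun _ => 1 + η) ⊆ ⋃ p, S p := fun h =>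
    hbox (MeasureTheory.measure_mono_null h hU)
  obtain ⟨s, hs, hsU⟩ := Set.not_subset.1 hns
  refine ⟨s, fun l => ⟨hs.1 l, hs.2 l⟩, ?_⟩
  intro l hl y hy
  apply hsU
  refine mem_iUnion.2 ⟨(l, fun i => decide (0 ≤ q (l i) (∑ j, (c i j : ℝ) • y j))), hl, ?_⟩
  rw [Submodule.mem_comap]
  refine ⟨y, ?_⟩
  funext i
  rw [TT_apply, LinearMap.funLeft_apply, ← hy i]
  by_cases h0 : 0 ≤ q (l i) (∑ j, (c i j : ℝ) • y j)
  · rw [if_pos (decide_eq_true h0), one_mul, abs_of_nonneg h0]
  · rw [if_neg (by simpa using h0), neg_one_mul, abs_of_neg (not_le.1 h0)]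

end NPl
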