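import Pool.Agent.Work.MP_6b4466_lc.NP.Fam
import Pool.Agent.Work.MP_6b4466_lc.NP.Gen
import Pool.Agent.Work.MP_6b4466_lc.NP.Act

/-! # The exceptional sets have dense complement (M)

PROOF (`bad_dense`). Let `N ∈ NormSp a b`, `ε > 0`; we find `M ∉ BadSet a b c m` with
`dist M N ≤ ε` (this gives density, `Metric.dense_iff`/`dense_iff_closure_eq`). Let
`t = min (1/2) (ε / (b - a)) > 0`, `lam = (a + b)/2`. Choose `κ > 0` with
`2 κ / a + 2 b κ / a² < 1 / (m + 1)`, and `0 < η ≤ 1` with `3 b η ≤ t (b - a)/2` and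
`3 b η ≤ t lam κ² / 2`. Let `L, e, q` be given by `poly_family`, `s` by `generic_rhs` (for `c`, `q`,
`η`; `2 r < k`), and `M` by `poly_family` for this `s`. By (2) and `dist_le_of`,
`dist M N ≤ t (b - a) ≤ ε`.
Suppose `M ∈ BadSet a b c m`, with `u : Fin k → Pl`, `y : Fin r → Pl`. For every `i` there is
`l i : Fin L` with `|q (l i) (u i)| = s (l i) * M (u i) = s (l i)`. The map `l` is injective: if
`l i = l j`, `i ≠ j`, then (3) gives `‖u i‖ - |⟪e, u i⟫| ≤ (3 b η / (t lam)) ‖u i‖ ≤ (κ²/2) ‖u i‖` and the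
same for `u j` with the same `e = e (l i)`, and `close_of_dir` gives `‖u i - u j‖ < 1/(m+1)` or
`‖u i + u j‖ < 1/(m+1)`, contradicting the definition of `BadSet`. As
`u i = ∑ j, (c i j : ℝ) • y j`, this contradicts the choice of `s`.

PROOF (`scBad_dense`). Given `N` and `ε`, let `t = min (1/2) (ε / (b - a))`,
`M x = (1 - t) N x + t lam ‖x‖` with `lam = (a + b)/2`. `M ∈ NormSp a b` (both `N` and `lam ‖·‖` satisfy
the bounds), `|M x - N x| = t |lam ‖x‖ - N x| ≤ t (b - a) ‖x‖`. `M ∉ ScBad a b m`: if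
`M u = M v = 1`, `u ≠ v`, `M (u + v) = 2`, then from `M (u + v) ≤ (1 - t) (N u + N v) + t lam ‖u + v‖`
and `2 = M u + M v` we get `‖u + v‖ ≥ ‖u‖ + ‖v‖` (`t lam > 0`), so `u`, `v` are on the same ray
(`sameRay_iff_norm_add`), i.e. `u = τ • v` with `τ > 0` (both nonzero); `M u = τ M v` gives `τ = 1`,
`u = v`, contradicting `1/(m+1) ≤ ‖u - v‖`.
-/

namespace NPl

open Set Metric Topology
open scoped RealInnerProductSpace

theorem bad_dense {a b : ℝ} (ha : 0 < a) (hab : a < b) {k r : ℕ} (hkr : 2 * r < k)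
    (c : Fin k → Fin r → ℚ) (m : ℕ) : Dense (BadSet a b c m)ᶜ := by
  rw [Metric.dense_iff]
  intro N ε hε
  have hb : 0 < b := ha.trans hab
  have hba : 0 < b - a := sub_pos.2 hab
  set lam : ℝ := (a + b) / 2 with hlam
  have hlam0 : 0 < lam := by positivity
  set t : ℝ := min (1 / 2) (ε / 2 / (b - a)) with ht
  have ht0 : 0 < t := lt_min (by norm_num) (by positivity)
  have ht1 : t < 1 := lt_of_le_of_lt (min_le_left _ _) (by norm_num)
  have htε : t * (b - a) ≤ ε / 2 := (le_div_iff₀ hba).1 (min_le_right _ _)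
  have hm : (0 : ℝ) < (m : ℝ) + 1 := by positivity
  set D : ℝ := 2 / a + 2 * b / a ^ 2 with hD
  have hD0 : 0 < D := by positivity
  set κ : ℝ := 1 / (2 * ((m : ℝ) + 1) * D) with hκ
  have hκ0 : 0 < κ := by positivity
  have hκD : 2 * κ / a + 2 * b * κ / a ^ 2 < 1 / ((m : ℝ) + 1) := by
    have h1 : 2 * κ / a + 2 * b * κ / a ^ 2 = κ * D := by
      rw [hD]
      ring
    have h2 : κ * D = 1 / (2 * ((m : ℝ) + 1)) := by
      rw [hκ]
      field_simp
    rw [h1, h2]
    exact one_div_lt_one_div_of_lt hm (by linarith)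
  set η : ℝ := min 1 (min (t * (b - a) / 2 / (3 * b)) (t * lam * κ ^ 2 / 2 / (3 * b))) with hη
  have hη0 : 0 < η := lt_min one_pos (lt_min (by positivity) (by positivity))
  have hη1 : η ≤ 1 := min_le_left _ _
  have hηa : 3 * b * η ≤ t * (b - a) / 2 := by
    rw [mul_comm]
    exact (le_div_iff₀ (by positivity)).1 ((min_le_right _ _).trans (min_le_left _ _))
  have hηb : 3 * b * η ≤ t * lam * κ ^ 2 / 2 := by
    rw [mul_comm]
    exact (le_div_iff₀ (by positivity)).1 ((min_le_right _ _).trans (min_le_right _ _))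
  obtain ⟨L, e, q, he, hfam⟩ := poly_family ha hab ht0 ht1 hη0 hη1 hηa N
  obtain ⟨s, hs, hgen⟩ := generic_rhs hkr c q hη0
  obtain ⟨M, -, h2, h3, h4⟩ := hfam s hs
  refine ⟨M, ?_, ?_⟩
  · rw [mem_ball]
    have := dist_le_of M N (by positivity) h3
    linarith
  rintro ⟨u, hu1, hsep, y, hy⟩
  have hl : ∀ i, ∃ l, |q l (u i)| = s l := by
    intro i
    obtain ⟨l, hl⟩ := h2 (u i)
    exact ⟨l, by rw [hl, hu1 i, mul_one]⟩
  choose l hl using hl
  have hdir : ∀ i, ‖u i‖ - |⟪e (l i), u i⟫| ≤ κ ^ 2 / 2 * ‖u i‖ := by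
    intro i
    have h5 := h4 (l i) (u i) (hu1 i) (hl i)
    rw [← hlam] at h5
    have h6 : 3 * b * η * ‖u i‖ ≤ t * lam * κ ^ 2 / 2 * ‖u i‖ :=
      mul_le_mul_of_nonneg_right hηb (norm_nonneg _)
    have h7 : t * lam * (‖u i‖ - |⟪e (l i), u i⟫|) ≤ t * lam * (κ ^ 2 / 2 * ‖u i‖) := by
      linarith
    exact le_of_mul_le_mul_left h7 (by positivity)
  have hinj : Function.Injective l := by
    intro i j hij
    by_contra hne
    have h5 := hdir j
    rw [← hij] at h5
    obtain ⟨h8, h9⟩ := hsep i j hne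
    rcases close_of_dir ha hκ0.le M.1 M.2 (he (l i)) (hu1 i) (hu1 j) (hdir i) h5 with h6 | h6
    · linarith
    · linarith
  exact hgen l hinj y fun i => by rw [← hy i, hl i]

theorem scBad_dense {a b : ℝ} (ha : 0 < a) (hab : a < b) (m : ℕ) : Dense (ScBad a b m)ᶜ := by
  rw [Metric.dense_iff]
  intro N ε hε
  have hb : 0 < b := ha.trans hab
  have hba : 0 < b - a := sub_pos.2 hab
  set lam : ℝ := (a + b) / 2 with hlam
  have hlam0 : 0 < lam := by positivity
  set t : ℝ := min (1 / 2) (ε / 2 / (b - a)) with ht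
  have ht0 : 0 < t := lt_min (by norm_num) (by positivity)
  have ht1 : t < 1 := lt_of_le_of_lt (min_le_left _ _) (by norm_num)
  have ht1' : 0 < 1 - t := by linarith
  have htε : t * (b - a) ≤ ε / 2 := (le_div_iff₀ hba).1 (min_le_right _ _)
  have hm : (0 : ℝ) < (m : ℝ) + 1 := by positivity
  let S : Seminorm ℝ Pl := Seminorm.of (fun x => (1 - t) * N.1 x + t * lam * ‖x‖)
    (fun x y => by
      have h1 := mul_le_mul_of_nonneg_left (map_add_le_add N.1 x y) ht1'.le
      have h2 := mul_le_mul_of_nonneg_left (norm_add_le x y) (mul_pos ht0 hlam0).le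
      linarith)
    (fun c x => by
      rw [map_smul_eq_mul, norm_smul]
      ring)
  have hSx : ∀ x, S x = (1 - t) * N.1 x + t * lam * ‖x‖ := fun x => rfl
  have hS : ∀ x, a * ‖x‖ ≤ S x ∧ S x ≤ b * ‖x‖ := by
    intro x
    obtain ⟨h1, h2⟩ := N.2 x
    have h3 := mul_le_mul_of_nonneg_left h1 ht1'.le
    have h4 := mul_le_mul_of_nonneg_left h2 ht1'.le
    have h5 : t * (a * ‖x‖) ≤ t * (lam * ‖x‖) :=
      mul_le_mul_of_nonneg_left (mul_le_mul_of_nonneg_right (by rw [hlam]; linarith)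
        (norm_nonneg x)) ht0.le
    have h6 : t * (lam * ‖x‖) ≤ t * (b * ‖x‖) :=
      mul_le_mul_of_nonneg_left (mul_le_mul_of_nonneg_right (by rw [hlam]; linarith)
        (norm_nonneg x)) ht0.le
    rw [hSx]
    constructor <;> linarith
  let MM : NormSp a b := ⟨S, hS⟩
  refine ⟨MM, ?_, ?_⟩
  · rw [mem_ball]
    have h0 : dist MM N ≤ t * (b - a) := by
      refine dist_le_of _ _ (by positivity) fun x => ?_
      obtain ⟨h1, h2⟩ := N.2 x
      have h3 : a * ‖x‖ ≤ lam * ‖x‖ :=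
        mul_le_mul_of_nonneg_right (by rw [hlam]; linarith) (norm_nonneg x)
      have h4 : lam * ‖x‖ ≤ b * ‖x‖ :=
        mul_le_mul_of_nonneg_right (by rw [hlam]; linarith) (norm_nonneg x)
      have h5 : S x - N.1 x = t * (lam * ‖x‖ - N.1 x) := by
        rw [hSx]
        ring
      change |S x - N.1 x| ≤ _
      rw [h5, abs_mul, abs_of_pos ht0, mul_assoc]
      refine mul_le_mul_of_nonneg_left (abs_le.2 ⟨?_, ?_⟩) ht0.le
      · linarith
      · linarith
    linarith
  rintro ⟨u, v, hu, hv, huv, hadd⟩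
  change S u = 1 at hu
  change S v = 1 at hv
  change S (u + v) = 2 at hadd
  have hu0 : u ≠ 0 := by
    rintro rfl
    rw [map_zero] at hu
    exact zero_ne_one hu
  have hv0 : v ≠ 0 := by
    rintro rfl
    rw [map_zero] at hv
    exact zero_ne_one hv
  have hn : ‖u + v‖ = ‖u‖ + ‖v‖ := by
    refine le_antisymm (norm_add_le u v) ?_
    have h1 := mul_le_mul_of_nonneg_left (map_add_le_add N.1 u v) ht1'.le
    rw [hSx] at hu hv hadd
    have h2 : t * lam * (‖u‖ + ‖v‖) ≤ t * lam * ‖u + v‖ := by linarith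
    exact le_of_mul_le_mul_left h2 (by positivity)
  obtain ⟨r₁, r₂, hr₁, hr₂, hr⟩ := (sameRay_iff_norm_add.2 hn).exists_pos hu0 hv0
  have h1 := congrArg S hr
  rw [map_smul_eq_mul, map_smul_eq_mul, hu, hv, mul_one, mul_one, Real.norm_eq_abs,
    Real.norm_eq_abs, abs_of_pos hr₁, abs_of_pos hr₂] at h1
  rw [h1] at hr
  have h2 : u = v := smul_right_injective Pl hr₂.ne' hr
  rw [h2, sub_self, norm_zero] at huv
  exact absurd huv (not_le.2 (by positivity))

end NPl
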