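import Mathlib

/-!
# Norms on the plane whose unit-distance graph has an ambiguous chromatic number (definitions)

FIXED file, complete, do not change.

`Pl` is the Euclidean plane, a norm is a `N : Seminorm ℝ Pl` with `N x = 0 → x = 0`,
`UG N` is its unit-distance graph, `SC N` says that `N` is strictly convex.
-/

namespace NPl

open Set Metric Topology

/-- The Euclidean plane. -/
abbrev Pl : Type := EuclideanSpace ℝ (Fin 2)

/-- The determinant of two vectors of the plane. -/
def om (u v : Pl) : ℝ := u 0 * v 1 - u 1 * v 0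

/-- Strict convexity of the unit ball of `N`. -/
def SC (N : Seminorm ℝ Pl) : Prop :=
  ∀ x y : Pl, N x = 1 → N y = 1 → x ≠ y → N (x + y) < 2

/-- The unit-distance graph of `N`. -/
def UG (N : Seminorm ℝ Pl) : SimpleGraph Pl where
  Adj x y := N (x - y) = 1
  symm := ⟨fun x y h => by rw [← neg_sub, map_neg_eq_map]; exact h⟩
  loopless := ⟨fun x h => by simp at h⟩

/-- `N` is a strictly convex norm (continuity is automatic, but convenient to have). -/
structure Nrm (N : Seminorm ℝ Pl) : Prop where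
  cont : Continuous N
  defin : ∀ x, N x = 0 → x = 0
  sc : SC N

/-- Pairwise disjoint regular open sets with dense union, none of them containing two points at
`N`-distance one. -/
structure Col (N : Seminorm ℝ Pl) {k : ℕ} (U : Fin k → Set Pl) : Prop where
  op : ∀ i, IsOpen (U i)
  reg : ∀ i, interior (closure (U i)) = U i
  dis : ∀ i j, i ≠ j → Disjoint (U i) (U j)
  den : Dense (⋃ i, U i)
  av : ∀ i, ∀ x ∈ U i, ∀ y ∈ U i, N (x - y) ≠ 1

/-- Rational rank condition: `k` unit vectors, no two of them opposite, span a rational vector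
space of dimension at least `k / 2`. -/
def Star (N : Seminorm ℝ Pl) : Prop :=
  ∀ F : Finset Pl, (∀ u ∈ F, N u = 1) → (∀ u ∈ F, -u ∉ F) →
    F.card ≤ 2 * Module.finrank ℚ (Submodule.span ℚ (F : Set Pl))

/-- The set of all norms `N` on the plane with `a ‖x‖ ≤ N x ≤ b ‖x‖` for all `x`. -/
def NormSp (a b : ℝ) : Type :=
  {N : Seminorm ℝ Pl // ∀ x, a * ‖x‖ ≤ N x ∧ N x ≤ b * ‖x‖}

theorem NormSp.continuous {a b : ℝ} (N : NormSp a b) : Continuous N.1 := by
  refine (LipschitzWith.of_dist_le_mul (K := Real.toNNReal b) fun x y => ?_).continuous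
  rw [Real.dist_eq, dist_eq_norm]
  refine (abs_sub_map_le_sub N.1 x y).trans ((N.2 (x - y)).2.trans ?_)
  exact mul_le_mul_of_nonneg_right (Real.le_coe_toNNReal b) (norm_nonneg _)

/-- The restriction of a norm to the Euclidean unit circle. -/
def NormSp.toC {a b : ℝ} (N : NormSp a b) : C(sphere (0 : Pl) 1, ℝ) :=
  ⟨fun x => N.1 x, N.continuous.comp continuous_subtype_val⟩

theorem NormSp.toC_injective {a b : ℝ} :
    Function.Injective (NormSp.toC : NormSp a b → C(sphere (0 : Pl) 1, ℝ)) := by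
  intro N M h
  apply Subtype.ext
  apply Seminorm.ext
  intro x
  rcases eq_or_ne x 0 with rfl | hx
  · rw [map_zero, map_zero]
  · have hx' : ‖x‖ ≠ 0 := norm_ne_zero_iff.2 hx
    have hm : ‖x‖⁻¹ • x ∈ sphere (0 : Pl) 1 := by
      rw [mem_sphere_zero_iff_norm, norm_smul, norm_inv, norm_norm, inv_mul_cancel₀ hx']
    have h1 : N.1 (‖x‖⁻¹ • x) = M.1 (‖x‖⁻¹ • x) := DFunLike.congr_fun h ⟨_, hm⟩
    rw [map_smul_eq_mul, map_smul_eq_mul] at h1
    exact mul_left_cancel₀ (norm_ne_zero_iff.2 (inv_ne_zero hx')) h1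

/-- The metric `sup {|N x - M x| : ‖x‖ = 1}` on the set of norms. -/
noncomputable instance {a b : ℝ} : MetricSpace (NormSp a b) :=
  MetricSpace.induced NormSp.toC NormSp.toC_injective inferInstance

/-- Norms with `k` unit vectors, pairwise at distance at least `1 / (m + 1)` up to sign, which are
the given rational combinations of some `r` vectors. -/
noncomputable def BadSet (a b : ℝ) {k r : ℕ} (c : Fin k → Fin r → ℚ) (m : ℕ) : Set (NormSp a b) :=
  {N | ∃ u : Fin k → Pl, (∀ i, N.1 (u i) = 1) ∧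
    (∀ i j, i ≠ j → 1 / ((m : ℝ) + 1) ≤ ‖u i - u j‖ ∧ 1 / ((m : ℝ) + 1) ≤ ‖u i + u j‖) ∧
    ∃ y : Fin r → Pl, ∀ i, u i = ∑ j, (c i j : ℝ) • y j}

/-- Norms whose unit circle contains a segment of length at least `1 / (m + 1)`. -/
noncomputable def ScBad (a b : ℝ) (m : ℕ) : Set (NormSp a b) :=
  {N | ∃ u v : Pl, N.1 u = 1 ∧ N.1 v = 1 ∧ 1 / ((m : ℝ) + 1) ≤ ‖u - v‖ ∧ N.1 (u + v) = 2}



end NPl
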