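import Pool.Agent.Work.MP_6b4466_lc.NP.Good

/-! # With four colours every unit circle is coloured densely (M)

PROOF. Suppose not: for all unit `s ∈ A`, `x + s ∉ ⋃ i, U i`. By `two_cl'` for every such `s` there
are `i ≠ j` with `x + s ∈ closure (U i) ∩ closure (U j)`. Let `T = {s | s ∈ A ∧ N s = 1}` and for
each of the finitely many pairs `P = (i, j)`, `i ≠ j`, let
`F P = {s | x + s ∈ closure (U i) ∩ closure (U j)}`, closed in `Pl`; `T ⊆ ⋃ P, F P`.
Claim: some pair `P` and some open `A' ⊆ A` with `A' ∩ {N = 1}` nonempty satisfy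
`A' ∩ {N s = 1} ⊆ F P`; this contradicts `no_arc`.
Proof of the claim (finite, no Baire theorem needed): otherwise, going through the pairs one after
the other, one can shrink: start with `A₀ = A`, `s₀ = s₀`; given an open `A_m ⊆ A` containing a unit
vector and the `m`-th pair `P`, there is a unit vector `s ∈ A_m \ F P` (otherwise `A' = A_m` works);
put `A_(m+1) = A_m \ F P`, open (`F P` closed) and containing the unit vector `s`. After the last
pair the unit vector obtained lies in `A` and in no `F P`: contradiction.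
(In Lean: induction over a `Finset` of pairs: for every finset `S` of pairs there is an open
`A' ⊆ A` containing a unit vector and disjoint from `F P` for all `P ∈ S`. Alternatively use
`nonempty_interior_of_iUnion_of_closed` in the compact, hence Baire, space `{s // N s = 1}`.)
-/

namespace NPl

open Set Metric Topology

/-- Avoiding finitely many closed sets that contain no relatively open part of the circle. -/
theorem shrink_aux {N : Seminorm ℝ Pl} {ι : Type} (F : ι → Set Pl) (hF : ∀ P, IsClosed (F P))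
    {A : Set Pl} (hA : IsOpen A) {s₀ : Pl} (hs₀ : s₀ ∈ A) (hs₁ : N s₀ = 1)
    (hno : ∀ P, ∀ A' ⊆ A, IsOpen A' → (∃ s ∈ A', N s = 1) → ∃ s ∈ A', N s = 1 ∧ s ∉ F P)
    (S : Finset ι) :
    ∃ A' ⊆ A, IsOpen A' ∧ (∃ s ∈ A', N s = 1) ∧ ∀ P ∈ S, Disjoint A' (F P) := by
  classical
  induction S using Finset.induction_on with
  | empty => exact ⟨A, subset_rfl, hA, ⟨s₀, hs₀, hs₁⟩, by simp⟩
  | insert P S hPS ih =>
    obtain ⟨A', hA'A, hA'o, hA's, hA'd⟩ := ih
    obtain ⟨s, hsA', hs1, hsF⟩ := hno P A' hA'A hA'o hA's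
    refine ⟨A' \ F P, sdiff_subset.trans hA'A, hA'o.sdiff (hF P), ⟨s, ⟨hsA', hsF⟩, hs1⟩, ?_⟩
    intro Q hQ
    rcases Finset.mem_insert.1 hQ with rfl | hQ
    · exact disjoint_sdiff_left
    · exact (hA'd Q hQ).mono_left sdiff_subset

theorem dens {N : Seminorm ℝ Pl} (h : Nrm N) {U : Fin 4 → Set Pl} (hU : Col N U)
    (x : Pl) {A : Set Pl} (hA : IsOpen A) {s₀ : Pl} (hs₀ : s₀ ∈ A) (hs₁ : N s₀ = 1) :
    ∃ s ∈ A, N s = 1 ∧ ∃ i, x + s ∈ U i := by
  by_contra hcon
  push Not at hcon
  set F : Fin 4 × Fin 4 → Set Pl := fun P =>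
    if P.1 = P.2 then ∅ else {s | x + s ∈ closure (U P.1) ∧ x + s ∈ closure (U P.2)} with hF
  have hFc : ∀ P, IsClosed (F P) := by
    intro P
    rw [hF]; simp only
    split_ifs
    · exact isClosed_empty
    · exact (isClosed_closure.preimage (by fun_prop)).inter
        (isClosed_closure.preimage (by fun_prop))
  have hno : ∀ P, ∀ A' ⊆ A, IsOpen A' → (∃ s ∈ A', N s = 1) → ∃ s ∈ A', N s = 1 ∧ s ∉ F P := by
    intro P A' hA'A hA'o hA's
    by_contra hc
    push Not at hc
    obtain ⟨s, hsA', hs1⟩ := hA's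
    have hne : P.1 ≠ P.2 := by
      intro he
      have h1 := hc s hsA' hs1
      rw [hF] at h1
      simp only [he, if_true] at h1
      exact h1
    refine no_arc h hU hne x hA'o hsA' hs1 ?_
    intro t ht ht1
    have h1 := hc t ht ht1
    rw [hF] at h1
    simp only [hne, if_false] at h1
    exact h1
  obtain ⟨A', hA'A, hA'o, ⟨s, hsA', hs1⟩, hd⟩ := shrink_aux F hFc hA hs₀ hs₁ hno Finset.univ
  obtain ⟨i, j, hij, hi, hj⟩ := two_cl' hU (hcon s (hA'A hsA') hs1)
  refine Set.disjoint_left.1 (hd (i, j) (Finset.mem_univ _)) hsA' ?_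
  rw [hF]
  simp only [hij, if_false]
  exact ⟨hi, hj⟩

end NPl
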