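import Pool.Agent.Work.MP_6b4466_lc.NP.Defs

/-! # The metric space of norms (M-L)

The metric of `NormSp a b` is induced from `C(sphere 0 1, ℝ)` by `NormSp.toC` (see `Defs`), so
`dist N M = dist N.toC M.toC` (true by `rfl`).

PROOF (`dist_eval`). For `x = 0` trivial; otherwise evaluate at `‖x‖⁻¹ • x` on the sphere
(`ContinuousMap.dist_apply_le_dist`) and use homogeneity.

PROOF (`dist_le_of`). `ContinuousMap.dist_le` and `‖x‖ = 1` on the sphere.

PROOF (`eval_cont`). `|N x - M y| ≤ |N x - M x| + |M x - M y| ≤ dist N M * ‖x‖ + b ‖x - y‖` (with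
`M (x - y) ≤ b ‖x - y‖`), which tends to `0` as `(N, x) → (M, y)`.

PROOF (`complete`). It suffices that the range of `toC` is closed (`toC` is an isometry;
`IsClosed.completeSpace_coe`, or directly with Cauchy sequences). Directly: let `N_n` be a Cauchy
sequence in `NormSp a b`. For every `x`, `N_n x` is a Cauchy sequence of reals by `dist_eval`, let
`N x` be its limit. `N` is a seminorm with `a ‖x‖ ≤ N x ≤ b ‖x‖` (pass to the limit in `N_n (x + y) ≤
N_n x + N_n y`, `N_n (c • x) = |c| N_n x` and the bounds; `Seminorm.of`). For `ε > 0` and `n, m` large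
`|N_n x - N_m x| ≤ ε ‖x‖` for all `x`; `m → ∞` gives `|N_n x - N x| ≤ ε ‖x‖`, so `dist N_n N ≤ ε` by
`dist_le_of`. (`Metric.complete_of_cauchySeq_tendsto`.)
-/

namespace NPl

open Set Metric Topology

theorem dist_eval {a b : ℝ} (N M : NormSp a b) (x : Pl) : |N.1 x - M.1 x| ≤ dist N M * ‖x‖ := by
  rcases eq_or_ne x 0 with rfl | hx
  · rw [map_zero, map_zero, sub_zero, abs_zero, norm_zero, mul_zero]
  · have hx' : 0 < ‖x‖ := norm_pos_iff.2 hx
    have hm : ‖x‖⁻¹ • x ∈ sphere (0 : Pl) 1 := by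
      rw [mem_sphere_zero_iff_norm, norm_smul, norm_inv, norm_norm, inv_mul_cancel₀ hx'.ne']
    have h1 : dist (N.toC ⟨_, hm⟩) (M.toC ⟨_, hm⟩) ≤ dist N.toC M.toC :=
      ContinuousMap.dist_apply_le_dist _
    have h2 : dist (N.toC ⟨_, hm⟩) (M.toC ⟨_, hm⟩) = ‖x‖⁻¹ * |N.1 x - M.1 x| := by
      change dist (N.1 (‖x‖⁻¹ • x)) (M.1 (‖x‖⁻¹ • x)) = _
      rw [map_smul_eq_mul, map_smul_eq_mul, Real.dist_eq, ← mul_sub, abs_mul, norm_inv, norm_norm,
        abs_of_pos (inv_pos.2 hx')]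
    rw [h2] at h1
    have h3 : dist N.toC M.toC = dist N M := rfl
    rw [h3, inv_mul_le_iff₀ hx', mul_comm] at h1
    exact h1

theorem dist_le_of {a b : ℝ} (N M : NormSp a b) {ε : ℝ} (hε : 0 ≤ ε)
    (h : ∀ x, |N.1 x - M.1 x| ≤ ε * ‖x‖) : dist N M ≤ ε := by
  change dist N.toC M.toC ≤ ε
  refine (ContinuousMap.dist_le hε).2 fun x => ?_
  have h1 := h x
  rw [mem_sphere_zero_iff_norm.1 x.2, mul_one] at h1
  exact h1

theorem eval_cont {a b : ℝ} : Continuous fun p : NormSp a b × Pl => p.1.1 p.2 := by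
  rw [continuous_iff_continuousAt]
  rintro ⟨M, y⟩
  refine tendsto_iff_dist_tendsto_zero.2 ?_
  have hb : ∀ p : NormSp a b × Pl, dist (p.1.1 p.2) (M.1 y) ≤
      dist p.1 M * ‖p.2‖ + b * ‖p.2 - y‖ := by
    intro p
    have h1 := dist_eval p.1 M p.2
    have h2 := abs_sub_map_le_sub M.1 p.2 y
    have h3 := (M.2 (p.2 - y)).2
    have h4 : |p.1.1 p.2 - M.1 y| ≤ |p.1.1 p.2 - M.1 p.2| + |M.1 p.2 - M.1 y| := abs_sub_le _ _ _
    rw [Real.dist_eq]
    linarith
  have hc : Continuous fun p : NormSp a b × Pl => dist p.1 M * ‖p.2‖ + b * ‖p.2 - y‖ := by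
    fun_prop
  refine squeeze_zero (fun _ => dist_nonneg) hb ?_
  have h5 := hc.tendsto (M, y)
  simpa only [dist_self, zero_mul, sub_self, norm_zero, mul_zero, add_zero] using h5

theorem complete {a b : ℝ} : CompleteSpace (NormSp a b) := by
  refine Metric.complete_of_cauchySeq_tendsto fun u hu => ?_
  have hlip : ∀ x : Pl, UniformContinuous fun N : NormSp a b => N.1 x := by
    intro x
    refine (LipschitzWith.of_dist_le_mul (K := ‖x‖₊) fun N M => ?_).uniformContinuous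
    rw [Real.dist_eq, coe_nnnorm, mul_comm]
    exact dist_eval N M x
  have hlim : ∀ x : Pl, ∃ l : ℝ, Filter.Tendsto (fun n => (u n).1 x) Filter.atTop (𝓝 l) := fun x =>
    cauchySeq_tendsto_of_complete ((hlip x).comp_cauchySeq hu)
  choose L hL using hlim
  have hadd : ∀ x y, L (x + y) ≤ L x + L y := fun x y =>
    le_of_tendsto_of_tendsto' (hL (x + y)) ((hL x).add (hL y)) fun n => map_add_le_add (u n).1 x y
  have hsmul : ∀ (c : ℝ) (x : Pl), L (c • x) = ‖c‖ * L x := by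
    intro c x
    refine tendsto_nhds_unique (hL (c • x)) ?_
    have h1 := (hL x).const_mul ‖c‖
    simpa only [map_smul_eq_mul] using h1
  let S : Seminorm ℝ Pl := Seminorm.of L hadd hsmul
  have hS : ∀ x, a * ‖x‖ ≤ S x ∧ S x ≤ b * ‖x‖ := fun x =>
    ⟨ge_of_tendsto' (hL x) fun n => ((u n).2 x).1, le_of_tendsto' (hL x) fun n => ((u n).2 x).2⟩
  refine ⟨⟨S, hS⟩, Metric.tendsto_atTop.2 fun ε hε => ?_⟩
  obtain ⟨n0, hn0⟩ := Metric.cauchySeq_iff.1 hu (ε / 2) (half_pos hε)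
  refine ⟨n0, fun n hn => ?_⟩
  refine lt_of_le_of_lt (dist_le_of _ _ (half_pos hε).le fun x => ?_) (half_lt_self hε)
  have h1 : Filter.Tendsto (fun m => |(u n).1 x - (u m).1 x|) Filter.atTop
      (𝓝 |(u n).1 x - L x|) := ((tendsto_const_nhds).sub (hL x)).abs
  refine le_of_tendsto h1 ?_
  filter_upwards [Filter.eventually_ge_atTop n0] with m hm
  exact (dist_eval (u n) (u m) x).trans
    (mul_le_mul_of_nonneg_right (hn0 n hn m hm).le (norm_nonneg x))

end NPl
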