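import Pool.Agent.Work.MP_6b4466_lc.NP.Supp
import Pool.Agent.Work.MP_6b4466_lc.NP.Space

/-! # Polygonal norms close to a given norm (M-L)

Let `0 < a < b`, `N ∈ NormSp a b`, `0 < t < 1`, `lam = (a + b) / 2`, `0 < η ≤ 1` with
`3 b η ≤ t (b - a) / 2`. There are finitely many Euclidean unit vectors `e l` (`l : Fin L`, `L > 0`)
and functionals `q l` such that for all `s : Fin L → ℝ` with `1 ≤ s l ≤ 1 + η` there is
`M ∈ NormSp a b` with
(1) `|q l x| ≤ s l * M x` for all `l, x`, and for every `x` equality for some `l`;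
(2) `|M x - N x| ≤ t (b - a) ‖x‖`;
(3) if `M u = 1` and `|q l u| = s l` then
    `t lam (‖u‖ - |⟪e l, u⟫|) ≤ 3 b η ‖u‖`.

PROOF. Put `N₁ x = (1 - t) N x + t lam ‖x‖`, a seminorm (`(1 - t) • N + (t lam) • normSeminorm`).
With `a' = a + t (b - a)/2` and `b' = b - t (b - a)/2`: `a' ‖x‖ ≤ N₁ x ≤ b' ‖x‖`
(`(1 - t) a + t lam = a'`, `(1 - t) b + t lam = b'`), and
`|N₁ x - N x| = t |lam ‖x‖ - N x| ≤ t (b - a)/2 ‖x‖`.
The Euclidean unit sphere is compact, so it has a finite `η`-net: unit vectors `e l`, `l : Fin L`,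
such that every `x` with `‖x‖ = 1` has some `l` with `‖x - e l‖ < η` (`L > 0`). Let `ℓ l` be given by
`support` for `N` and `e l`, and `q l x = (1 - t) ℓ l x + t lam ⟪e l, x⟫`. Then
`|q l x| ≤ (1 - t) |ℓ l x| + t lam |⟪e l, x⟫| ≤ (1 - t) N x + t lam |⟪e l, x⟫| ≤ N₁ x`   (*)
and `q l (e l) = (1 - t) N (e l) + t lam = N₁ (e l)`.
Let `s` be given and `M` from `max_seminorm` (`s l ≥ 1 > 0`); this is (1).
* Upper bound: `M x ≤ N₁ x` since `s l M x = |q l x| ≤ N₁ x` for the maximizing `l` and `s l ≥ 1`.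
  So `M x ≤ b' ‖x‖ ≤ b ‖x‖`.
* Lower bound: `M x ≥ N₁ x - 3 b η ‖x‖`. By homogeneity let `‖x‖ = 1`, `‖x - e l‖ < η`. Then
  `|q l x| ≥ q l (e l) - |q l (x - e l)| ≥ N₁ (e l) - N₁ (x - e l) ≥ N₁ x - 2 N₁ (x - e l)
  ≥ N₁ x - 2 b η`, and `M x ≥ |q l x| / s l ≥ (N₁ x - 2 b η) / (1 + η)`, and this is
  `≥ N₁ x - 3 b η` because `(1 + η)(N₁ x - 3 b η) = N₁ x - 3 b η + η N₁ x - 3 b η²
  ≤ N₁ x - 3 b η + b η` (using `N₁ x ≤ b`). (If `N₁ x - 3 b η < 0` the bound is trivial.)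
  So `M x ≥ a' - 3 b η ≥ a` for `‖x‖ = 1`; hence `M ∈ NormSp a b`.
* (2): `|M x - N x| ≤ |M x - N₁ x| + |N₁ x - N x| ≤ (3 b η + t (b - a)/2) ‖x‖ ≤ t (b - a) ‖x‖`.
* (3): `N₁ u ≤ M u + 3 b η ‖u‖ = 1 + 3 b η ‖u‖`, i.e.
  `(1 - t) N u + t lam ‖u‖ ≤ 1 + 3 b η ‖u‖`; and `1 ≤ s l = |q l u| ≤ (1 - t) N u + t lam |⟪e l, u⟫|`
  by (*). Subtract.
-/

namespace NPl

open Set Metric Topology
open scoped RealInnerProductSpace

/-- A finite net of the Euclidean unit circle. -/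
theorem exists_net {η : ℝ} (hη : 0 < η) :
    ∃ (L : ℕ) (e : Fin L → Pl), 0 < L ∧ (∀ l, ‖e l‖ = 1) ∧
      ∀ x : Pl, ‖x‖ = 1 → ∃ l, ‖x - e l‖ < η := by
  classical
  obtain ⟨T, hT, hTf, hTc⟩ := (isCompact_sphere (0 : Pl) 1).finite_cover_balls hη
  set F := hTf.toFinset with hF
  have hcov : ∀ x : Pl, ‖x‖ = 1 → ∃ y ∈ F, ‖x - y‖ < η := by
    intro x hx
    have h1 := hTc (mem_sphere_zero_iff_norm.2 hx)
    obtain ⟨y, hy, hxy⟩ := mem_iUnion₂.1 h1
    refine ⟨y, (hTf.mem_toFinset).2 hy, ?_⟩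
    rwa [mem_ball, dist_eq_norm] at hxy
  obtain ⟨x₀, hx₀⟩ : ∃ x : Pl, ‖x‖ = 1 := by
    obtain ⟨x, hx⟩ := (NormedSpace.sphere_nonempty (E := Pl) (x := 0) (r := 1)).2 zero_le_one
    exact ⟨x, mem_sphere_zero_iff_norm.1 hx⟩
  refine ⟨F.card, fun l => (F.equivFin.symm l).1, ?_, ?_, ?_⟩
  · obtain ⟨y, hy, -⟩ := hcov x₀ hx₀
    exact Finset.card_pos.2 ⟨y, hy⟩
  · intro l
    have h1 := (F.equivFin.symm l).2
    exact mem_sphere_zero_iff_norm.1 (hT (hTf.mem_toFinset.1 h1))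
  · intro x hx
    obtain ⟨y, hy, hxy⟩ := hcov x hx
    refine ⟨F.equivFin ⟨y, hy⟩, ?_⟩
    simp only [Equiv.symm_apply_apply]
    exact hxy

theorem poly_family {a b t η : ℝ} (ha : 0 < a) (hab : a < b) (ht : 0 < t) (ht1 : t < 1)
    (hη : 0 < η) (hη1 : η ≤ 1) (hηt : 3 * b * η ≤ t * (b - a) / 2) (N : NormSp a b) :
    ∃ (L : ℕ) (e : Fin L → Pl) (q : Fin L → (Pl →ₗ[ℝ] ℝ)), (∀ l, ‖e l‖ = 1) ∧
      ∀ s : Fin L → ℝ, (∀ l, 1 ≤ s l ∧ s l ≤ 1 + η) → ∃ M : NormSp a b,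
        (∀ l x, |q l x| ≤ s l * M.1 x) ∧ (∀ x, ∃ l, |q l x| = s l * M.1 x) ∧
        (∀ x, |M.1 x - N.1 x| ≤ t * (b - a) * ‖x‖) ∧
        ∀ l u, M.1 u = 1 → |q l u| = s l →
          t * ((a + b) / 2) * (‖u‖ - |⟪e l, u⟫|) ≤ 3 * b * η * ‖u‖ := by
  have hb : 0 < b := ha.trans hab
  set lam : ℝ := (a + b) / 2 with hlam
  have hlam0 : 0 < lam := by rw [hlam]; linarith
  have htl : 0 < t * lam := mul_pos ht hlam0
  have h1t : 0 < 1 - t := by linarith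
  -- the interpolated norm
  set n1 : Pl → ℝ := fun x => (1 - t) * N.1 x + t * lam * ‖x‖ with hn1
  have hn1add : ∀ x y, n1 (x + y) ≤ n1 x + n1 y := by
    intro x y
    simp only [hn1]
    have h1 := map_add_le_add N.1 x y
    have h2 := norm_add_le x y
    nlinarith [mul_le_mul_of_nonneg_left h1 h1t.le, mul_le_mul_of_nonneg_left h2 htl.le]
  have hn1smul : ∀ (c : ℝ) x, n1 (c • x) = |c| * n1 x := by
    intro c x
    simp only [hn1]
    rw [map_smul_eq_mul, norm_smul, Real.norm_eq_abs]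
    ring
  have hn1neg : ∀ x, n1 (-x) = n1 x := by
    intro x
    simp only [hn1]
    rw [map_neg_eq_map, norm_neg]
  have hn1low : ∀ x, (a + t * (b - a) / 2) * ‖x‖ ≤ n1 x := by
    intro x
    simp only [hn1, hlam]
    nlinarith [mul_le_mul_of_nonneg_left (N.2 x).1 h1t.le]
  have hn1up : ∀ x, n1 x ≤ (b - t * (b - a) / 2) * ‖x‖ := by
    intro x
    simp only [hn1, hlam]
    nlinarith [mul_le_mul_of_nonneg_left (N.2 x).2 h1t.le]
  have hn1b : ∀ x, n1 x ≤ b * ‖x‖ := by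
    intro x
    refine (hn1up x).trans (mul_le_mul_of_nonneg_right ?_ (norm_nonneg _))
    nlinarith [mul_pos ht (sub_pos.2 hab)]
  have hn1N : ∀ x, |n1 x - N.1 x| ≤ t * (b - a) / 2 * ‖x‖ := by
    intro x
    have h1 : n1 x - N.1 x = t * (lam * ‖x‖ - N.1 x) := by
      simp only [hn1]; ring
    rw [h1, abs_mul, abs_of_pos ht]
    have h2 : |lam * ‖x‖ - N.1 x| ≤ (b - a) / 2 * ‖x‖ := by
      rw [abs_le, hlam]
      constructor <;> nlinarith [(N.2 x).1, (N.2 x).2]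
    nlinarith [mul_le_mul_of_nonneg_left h2 ht.le]
  obtain ⟨L, e, hL, he, hnet⟩ := exists_net hη
  choose ℓ hℓ hℓe using fun l => support N.1 (e l)
  set q : Fin L → (Pl →ₗ[ℝ] ℝ) := fun l =>
    (1 - t) • ℓ l + (t * lam) • ((innerSL ℝ (e l) : Pl →L[ℝ] ℝ) : Pl →ₗ[ℝ] ℝ) with hq
  have hqv : ∀ l x, q l x = (1 - t) * ℓ l x + t * lam * ⟪e l, x⟫ := by
    intro l x
    simp only [hq]
    simp [LinearMap.add_apply, LinearMap.smul_apply, smul_eq_mul]
  have hq1 : ∀ l x, |q l x| ≤ (1 - t) * N.1 x + t * lam * |⟪e l, x⟫| := by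
    intro l x
    rw [hqv]
    refine (abs_add_le _ _).trans ?_
    rw [abs_mul, abs_mul, abs_of_pos h1t, abs_of_pos htl]
    have := mul_le_mul_of_nonneg_left (hℓ l x) h1t.le
    linarith
  have hq2 : ∀ l x, |q l x| ≤ n1 x := by
    intro l x
    refine (hq1 l x).trans ?_
    simp only [hn1]
    have h1 : |⟪e l, x⟫| ≤ ‖x‖ := by
      have := abs_real_inner_le_norm (e l) x
      rwa [he l, one_mul] at this
    have := mul_le_mul_of_nonneg_left h1 htl.le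
    linarith
  have hqe : ∀ l, q l (e l) = n1 (e l) := by
    intro l
    rw [hqv, hℓe, real_inner_self_eq_norm_sq, he l]
    simp only [hn1]
    rw [he l]
    ring
  refine ⟨L, e, q, he, fun s hs => ?_⟩
  have hs0 : ∀ l, 0 < s l := fun l => lt_of_lt_of_le one_pos (hs l).1
  obtain ⟨M, hM1, hM2⟩ := max_seminorm hL q s hs0
  have hMup : ∀ x, M x ≤ n1 x := by
    intro x
    obtain ⟨l, hl⟩ := hM2 x
    have h1 := hq2 l x
    rw [hl] at h1
    have h2 : 1 * M x ≤ s l * M x := mul_le_mul_of_nonneg_right (hs l).1 (apply_nonneg M x)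
    linarith
  have hMlow1 : ∀ x, ‖x‖ = 1 → n1 x - 3 * b * η ≤ M x := by
    intro x hx
    obtain ⟨l, hl⟩ := hnet x hx
    have h1 : n1 (x - e l) ≤ b * η := by
      refine (hn1b _).trans (mul_le_mul_of_nonneg_left hl.le hb.le)
    have h2 : q l x = q l (e l) + q l (x - e l) := by
      rw [← map_add]; congr 1; abel
    have h3 : n1 x ≤ n1 (e l) + n1 (x - e l) := by
      have := hn1add (e l) (x - e l)
      rwa [add_sub_cancel] at this
    have h4 : n1 (e l) - n1 (x - e l) ≤ |q l x| := by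
      rw [h2, hqe]
      have h5 := (abs_le.1 (hq2 l (x - e l))).1
      refine le_trans ?_ (le_abs_self _)
      linarith
    have h5 : n1 x - 2 * (b * η) ≤ s l * M x := by
      have := hM1 l x
      linarith
    have h6 : s l * M x ≤ (1 + η) * M x :=
      mul_le_mul_of_nonneg_right (hs l).2 (apply_nonneg M x)
    have h7 : M x ≤ b := by
      have h8 := (hMup x).trans (hn1b x)
      rwa [hx, mul_one] at h8
    nlinarith [mul_le_mul_of_nonneg_left h7 hη.le]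
  have hMlow : ∀ x, n1 x - 3 * b * η * ‖x‖ ≤ M x := by
    intro x
    rcases eq_or_ne x 0 with rfl | hx
    · simp [hn1]
    · have hp : 0 < ‖x‖ := norm_pos_iff.2 hx
      have h1 := hMlow1 (‖x‖⁻¹ • x) (by
        rw [norm_smul, norm_inv, norm_norm, inv_mul_cancel₀ hp.ne'])
      rw [hn1smul, map_smul_eq_mul, Real.norm_eq_abs, abs_of_pos (inv_pos.2 hp)] at h1
      have h2 := mul_le_mul_of_nonneg_left h1 hp.le
      have h3 : ‖x‖ * (‖x‖⁻¹ * M x) = M x := by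
        rw [← mul_assoc, mul_inv_cancel₀ hp.ne', one_mul]
      have h4 : ‖x‖ * (‖x‖⁻¹ * n1 x - 3 * b * η) = n1 x - 3 * b * η * ‖x‖ := by
        rw [mul_sub, ← mul_assoc, mul_inv_cancel₀ hp.ne', one_mul]; ring
      rwa [h3, h4] at h2
  have hMmem : ∀ x, a * ‖x‖ ≤ M x ∧ M x ≤ b * ‖x‖ := by
    intro x
    refine ⟨?_, (hMup x).trans (hn1b x)⟩
    have h1 := hMlow x
    have h2 := hn1low x
    nlinarith [mul_le_mul_of_nonneg_right hηt (norm_nonneg x)]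
  refine ⟨⟨M, hMmem⟩, hM1, hM2, ?_, ?_⟩
  · intro x
    have h1 := hMlow x
    have h2 := hMup x
    have h3 := abs_le.1 (hn1N x)
    have h4 := mul_le_mul_of_nonneg_right hηt (norm_nonneg x)
    change |M x - N.1 x| ≤ t * (b - a) * ‖x‖
    have h5 : 0 ≤ t * (b - a) / 2 * ‖x‖ :=
      mul_nonneg (by nlinarith [mul_pos ht (sub_pos.2 hab)]) (norm_nonneg x)
    rw [abs_le]
    constructor <;> nlinarith [h3.1, h3.2]
  · intro l u hu hqu
    change M u = 1 at hu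
    have h1 := hMlow u
    rw [hu] at h1
    have h2 := hq1 l u
    rw [hqu] at h2
    have h3 := (hs l).1
    simp only [hn1] at h1
    nlinarith

end NPl
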