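import Pool.Agent.Work.MP_6b4466_lc.NP.Tri3

/-! # Four colours are impossible (M-L)

PROOF. Write `S = {s | N s = 1}`.
(a) There is `p ∉ ⋃ i, U i`: otherwise `univ` is the union of the disjoint open sets `U i`, hence
(connected plane) equal to one of them, which contradicts `av` (two points `0`, `s` with `N s = 1`).
(b) By `two_cl'`, `p ∈ closure (U i) ∩ closure (U j)` with `i ≠ j`. Let `k ≠ l` be the two other
colours. For `s ∈ S`, `cl_av` gives `p + s ∉ U i`, `p + s ∉ U j`.
(c) Let `G m = {s | N s = 1 ∧ p + s ∈ U m}`. By `dens` (for `x = p`) every `s₀ ∈ S` is in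
`closure (G k ∪ G l) = closure (G k) ∪ closure (G l)`. `G l` is nonempty: if `G l = ∅`, then
`S ⊆ closure (G k)`, so `p + s₀ ∈ closure (U k)` for all `s₀ ∈ S`; take `s ∈ G k` (nonempty by
`dens`) and `v` from `hex` for `s`; `p + v ∈ closure (U k)`, `N ((p + v) - (p + s)) = 1`, so
`p + s ∉ U k`, a contradiction. Similarly `G k ≠ ∅`. As `S` is preconnected
(`circle_preconnected`) and covered by the closed sets `closure (G k)`, `closure (G l)` which both
meet it (`G m ⊆ S`), there is `s ∈ S ∩ closure (G k) ∩ closure (G l)`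
(`isPreconnected_closed_iff`).
(d) Put `t = p + s`. Then `t ∈ closure (U k) ∩ closure (U l)`; by `no_three`
`t ∉ closure (U i)`, `t ∉ closure (U j)`.
(e) Let `v` be given by `hex` for `s`: `N v = 1`, `N (v - s) = 1`, `om s v > 0`, and put
`q = p + v`. `N (q - t) = 1`. Then
 * `q ∈ closure (U i')` for some `i' ∈ {i, j}`: every neighbourhood of `q` contains by `dens` at
   `x = t` (direction `v - s`) a point `t + s'`, `N s' = 1`, of some `U m`; `m ≠ k, l` by `cl_av`
   since `t ∈ closure (U k) ∩ closure (U l)`. So `q ∈ closure (U i ∪ U j)`.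
 * `q ∈ closure (U k')` for some `k' ∈ {k, l}`: same at `x = p` (direction `v`), now `m ≠ i, j`.
 * Let `l'` be the other element of `{k, l}`. By `no_three`, `q ∉ closure (U l')`; so there is an
   open `Q ∋ q` disjoint from `U l'`. For `v'` with `N v' = 1` and `p + v' ∈ Q` we have
   `p + v' ∈ closure (U k')`: any neighbourhood of `p + v'` inside `Q` contains by `dens` a point
   `p + s'` of some `U m`, `m ≠ i, j` by `cl_av` and `m ≠ l'`, so `m = k'`.
(f) `N (s - v) = 1` and `om v (s - v) = om v s = - om s v ≠ 0`. `sum_unit` for `a = v`, `b = s - v`,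
`A = {v' | p + v' ∈ Q}`, `B = univ` gives `ε > 0` such that every `s'` with `‖s' - s‖ < ε`
(`a + b = s`) is `v' + b'` with `v' ∈ A`, `N v' = N b' = 1`. As `s ∈ closure (G k')`, there is
`s' ∈ G k'` with `‖s' - s‖ < ε`; so `p + s' ∈ U k'`, `p + v' ∈ closure (U k')` and
`N ((p + v') - (p + s')) = N b' = 1`, contradicting `cl_av`.
-/

namespace NPl

open Set Metric Topology

theorem others4 : ∀ i j : Fin 4, ¬ i = j → ∃ k l : Fin 4, ¬ k = l ∧ ¬ i = k ∧ ¬ i = l ∧ ¬ j = k ∧
    ¬ j = l ∧ ∀ m : Fin 4, m = i ∨ m = j ∨ m = k ∨ m = l := by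
  decide

/-- The core of the argument, with the names `k' , l'` of the colours on the circle around `p`
chosen such that the triangle vertex next to the switch point is in the closure of `U k'`. -/
theorem core {N : Seminorm ℝ Pl} (h : Nrm N) {U : Fin 4 → Set Pl} (hU : Col N U)
    {i j k l : Fin 4} (hkl : k ≠ l) (hik : i ≠ k) (hil : i ≠ l) (hjk : j ≠ k)
    (hjl : j ≠ l) (hall : ∀ m : Fin 4, m = i ∨ m = j ∨ m = k ∨ m = l) {p s v : Pl}
    (hpi : p ∈ closure (U i)) (hpj : p ∈ closure (U j)) (hs : N s = 1) (hv : N v = 1)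
    (hvs : N (v - s) = 1) (hom : 0 < om s v)
    (hsk : s ∈ closure {s' | N s' = 1 ∧ p + s' ∈ U k})
    (hq : ∃ i', (i' = i ∨ i' = j) ∧ p + v ∈ closure (U i'))
    (hqk : p + v ∈ closure (U k)) : False := by
  obtain ⟨i', hi', hqi⟩ := hq
  have hi'k : i' ≠ k := by rcases hi' with rfl | rfl <;> assumption
  have hi'l : i' ≠ l := by rcases hi' with rfl | rfl <;> assumption
  have hql : p + v ∉ closure (U l) := fun hc => no_three h hU hi'k hi'l hkl hqi hqk hc
  -- colours on the circle around `p`
  have hcirc : ∀ s', N s' = 1 → ∀ m, p + s' ∈ U m → m = k ∨ m = l := by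
    intro s' hs' m hm
    have hps : N (p - (p + s')) = 1 := by
      have : p - (p + s') = -s' := by abel
      rw [this, map_neg_eq_map, hs']
    rcases hall m with rfl | rfl | rfl | rfl
    · exact absurd hm (cl_av hU hpi hps)
    · exact absurd hm (cl_av hU hpj hps)
    · exact Or.inl rfl
    · exact Or.inr rfl
  have hQo : IsOpen (closure (U l))ᶜ := isClosed_closure.isOpen_compl
  have hnear : ∀ v', N v' = 1 → p + v' ∈ (closure (U l))ᶜ → p + v' ∈ closure (U k) := by
    intro v' hv' hv'Q
    rw [_root_.mem_closure_iff]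
    intro W hW hvW
    obtain ⟨s', hs'A, hs'1, m, hm⟩ := dens h hU p (A := {s | p + s ∈ W ∩ (closure (U l))ᶜ})
      ((hW.inter hQo).preimage (by fun_prop)) ⟨hvW, hv'Q⟩ hv'
    rcases hcirc s' hs'1 m hm with rfl | rfl
    · exact ⟨p + s', hs'A.1, hm⟩
    · exact absurd (subset_closure hm) hs'A.2
  -- points close to the switch point have a triangle vertex close to `q`
  have hsv : N (s - v) = 1 := by
    have : s - v = -(v - s) := by abel
    rw [this, map_neg_eq_map, hvs]
  have homv : om v (s - v) ≠ 0 := by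
    rw [om_sub_right, om_self, sub_zero, om_swap]
    exact neg_ne_zero.2 hom.ne'
  obtain ⟨ε, hε, hε'⟩ := sum_unit h hv hsv homv (A := {v' | p + v' ∈ (closure (U l))ᶜ})
    (hQo.preimage (by fun_prop)) isOpen_univ hql (mem_univ _)
  obtain ⟨s', ⟨hs'1, hs'k⟩, hs's⟩ := Metric.mem_closure_iff.1 hsk ε hε
  rw [dist_comm, dist_eq_norm] at hs's
  obtain ⟨v', hv'A, b', -, hv'1, hb'1, hsum⟩ := hε' s' (by
    have : s' - (v + (s - v)) = s' - s := by abel
    rw [this]; exact hs's)
  have h1 : p + v' ∈ closure (U k) := hnear v' hv'1 hv'A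
  refine cl_av hU h1 ?_ hs'k
  have : p + v' - (p + s') = -b' := by
    rw [← hsum]; abel
  rw [this, map_neg_eq_map, hb'1]

theorem no_four {N : Seminorm ℝ Pl} (h : Nrm N) {U : Fin 4 → Set Pl} (hU : Col N U) : False := by
  -- (a) an uncoloured point
  obtain ⟨p, hp⟩ : ∃ p, ∀ i, p ∉ U i := by
    by_contra hcon
    push Not at hcon
    obtain ⟨i, hi⟩ := hcon 0
    have hcl : IsClosed (U i) := by
      rw [← isOpen_compl_iff]
      have : (U i)ᶜ = ⋃ j ∈ {j : Fin 4 | j ≠ i}, U j := by
        ext y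
        simp only [mem_compl_iff, mem_iUnion, mem_setOf_eq, exists_prop]
        constructor
        · intro hy
          obtain ⟨j, hj⟩ := hcon y
          exact ⟨j, fun hji => hy (hji ▸ hj), hj⟩
        · rintro ⟨j, hji, hj⟩ hy
          exact Set.disjoint_left.1 (hU.dis j i hji) hj hy
      rw [this]
      exact isOpen_biUnion fun j _ => hU.op j
    have huniv : U i = univ := IsClopen.eq_univ ⟨hcl, hU.op i⟩ ⟨0, hi⟩
    obtain ⟨s, hs⟩ := exists_unit h
    exact hU.av i s (huniv ▸ mem_univ s) 0 hi (by rw [sub_zero, hs])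
  -- (b)
  obtain ⟨i, j, hij, hpi, hpj⟩ := two_cl' hU hp
  obtain ⟨k, l, hkl, hik, hil, hjk, hjl, hall⟩ := others4 i j hij
  have hcirc : ∀ s', N s' = 1 → ∀ m, p + s' ∈ U m → m = k ∨ m = l := by
    intro s' hs' m hm
    have hps : N (p - (p + s')) = 1 := by
      have : p - (p + s') = -s' := by abel
      rw [this, map_neg_eq_map, hs']
    rcases hall m with rfl | rfl | rfl | rfl
    · exact absurd hm (cl_av hU hpi hps)
    · exact absurd hm (cl_av hU hpj hps)
    · exact Or.inl rfl
    · exact Or.inr rfl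
  -- (c)
  set G : Fin 4 → Set Pl := fun m => {s | N s = 1 ∧ p + s ∈ U m} with hG
  have hcov : {x : Pl | N x = 1} ⊆ closure (G k) ∪ closure (G l) := by
    intro s₀ hs₀
    rw [← closure_union, _root_.mem_closure_iff]
    intro W hW hsW
    obtain ⟨s, hsW', hs1, m, hm⟩ := dens h hU p hW hsW hs₀
    rcases hcirc s hs1 m hm with rfl | rfl
    · exact ⟨s, hsW', Or.inl ⟨hs1, hm⟩⟩
    · exact ⟨s, hsW', Or.inr ⟨hs1, hm⟩⟩
  have hnek : (G k).Nonempty := by
    by_contra hcon
    rw [not_nonempty_iff_eq_empty] at hcon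
    refine one_col h hU (x := p) (m := l) ?_
    intro s hs m hm
    rcases hcirc s hs m hm with rfl | rfl
    · exact absurd (show s ∈ G m from ⟨hs, hm⟩) (by rw [hcon]; exact notMem_empty s)
    · rfl
  have hnel : (G l).Nonempty := by
    by_contra hcon
    rw [not_nonempty_iff_eq_empty] at hcon
    refine one_col h hU (x := p) (m := k) ?_
    intro s hs m hm
    rcases hcirc s hs m hm with rfl | rfl
    · rfl
    · exact absurd (show s ∈ G m from ⟨hs, hm⟩) (by rw [hcon]; exact notMem_empty s)
  obtain ⟨s, hs1, hsk, hsl⟩ := isPreconnected_closed_iff.1 (circle_preconnected h) _ _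
    isClosed_closure isClosed_closure hcov
    (by
      obtain ⟨s, hs⟩ := hnek
      exact ⟨s, hs.1, subset_closure hs⟩)
    (by
      obtain ⟨s, hs⟩ := hnel
      exact ⟨s, hs.1, subset_closure hs⟩)
  -- (d)
  have htrans : ∀ m, s ∈ closure (G m) → p + s ∈ closure (U m) := by
    intro m hm
    have h1 : p + s ∈ closure ((fun x => p + x) '' G m) :=
      (image_closure_subset_closure_image (f := fun x => p + x) (by fun_prop)) ⟨s, hm, rfl⟩
    refine closure_mono ?_ h1
    rintro _ ⟨x, hx, rfl⟩
    exact hx.2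
  have htk : p + s ∈ closure (U k) := htrans k hsk
  have htl : p + s ∈ closure (U l) := htrans l hsl
  -- (e)
  obtain ⟨v, hv1, hvs, hom⟩ := hex h hs1
  have hq : ∃ i', (i' = i ∨ i' = j) ∧ p + v ∈ closure (U i') := by
    have hmem : p + v ∈ closure (U i ∪ U j) := by
      rw [_root_.mem_closure_iff]
      intro W hW hvW
      obtain ⟨s', hs'A, hs'1, m, hm⟩ := dens h hU (p + s) (A := {s' | p + s + s' ∈ W})
        (hW.preimage (by fun_prop)) (s₀ := v - s) (by
          change p + s + (v - s) ∈ W
          have : p + s + (v - s) = p + v := by abel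
          rw [this]; exact hvW) hvs
      have hd : N (p + s - (p + s + s')) = 1 := by
        have : p + s - (p + s + s') = -s' := by abel
        rw [this, map_neg_eq_map, hs'1]
      refine ⟨p + s + s', hs'A, ?_⟩
      rcases hall m with rfl | rfl | rfl | rfl
      · exact Or.inl hm
      · exact Or.inr hm
      · exact absurd hm (cl_av hU htk hd)
      · exact absurd hm (cl_av hU htl hd)
    rw [closure_union] at hmem
    rcases hmem with h1 | h1
    · exact ⟨i, Or.inl rfl, h1⟩
    · exact ⟨j, Or.inr rfl, h1⟩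
  have hqkl : p + v ∈ closure (U k) ∨ p + v ∈ closure (U l) := by
    have h1 := hcov (show v ∈ {x : Pl | N x = 1} from hv1)
    have htrans' : ∀ m, v ∈ closure (G m) → p + v ∈ closure (U m) := by
      intro m hm
      have h1 : p + v ∈ closure ((fun x => p + x) '' G m) :=
        (image_closure_subset_closure_image (f := fun x => p + x) (by fun_prop)) ⟨v, hm, rfl⟩
      refine closure_mono ?_ h1
      rintro _ ⟨x, hx, rfl⟩
      exact hx.2
    exact h1.imp (htrans' k) (htrans' l)
  rcases hqkl with hqk | hql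
  · exact core h hU hkl hik hil hjk hjl hall hpi hpj hs1 hv1 hvs hom hsk hq hqk
  · refine core h hU (Ne.symm hkl) hil hik hjl hjk ?_ hpi hpj hs1 hv1 hvs hom hsl hq hql
    intro m
    rcases hall m with h1 | h1 | h1 | h1
    · exact Or.inl h1
    · exact Or.inr (Or.inl h1)
    · exact Or.inr (Or.inr (Or.inr h1))
    · exact Or.inr (Or.inr (Or.inl h1))

end NPl
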