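import Mathlib

/-! # Two-colouring from a linearly independent set (S)

PROOF (`exists_func`). A linearly independent set extends to a basis (`LinearIndepOn.extend`,
`Module.Basis.extend`), and a linear map can be prescribed on a basis (`Basis.constr`): take the
value `1` on every basis vector. (Or `LinearIndependent.exists_linearMap...`,
`LinearMap.exists_extend`.)

PROOF (`par_ne`). `⌊x + 1⌋ = ⌊x⌋ + 1` and `⌊x - 1⌋ = ⌊x⌋ - 1`.
-/

namespace NPl

theorem exists_func {V : Type} [AddCommGroup V] [Module ℚ V] (I : Finset V)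
    (hI : LinearIndepOn ℚ id (I : Set V)) : ∃ f : V →ₗ[ℚ] ℚ, ∀ u ∈ I, f u = 1 := by
  have hb := Module.Basis.extend_apply_self hI
  refine ⟨(Module.Basis.extend hI).constr ℚ (fun _ => (1 : ℚ)), fun u hu => ?_⟩
  have hu' : u ∈ hI.extend (Set.subset_univ _) := hI.subset_extend _ (Finset.mem_coe.2 hu)
  have h1 := hb ⟨u, hu'⟩
  calc (Module.Basis.extend hI).constr ℚ (fun _ => (1 : ℚ)) u
      = (Module.Basis.extend hI).constr ℚ (fun _ => (1 : ℚ))
        ((Module.Basis.extend hI) ⟨u, hu'⟩) := by rw [h1]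
    _ = 1 := Module.Basis.constr_basis _ _ _ _

theorem par_ne {x y : ℚ} (h : x = y + 1 ∨ x = y - 1) :
    decide (Even ⌊x⌋) ≠ decide (Even ⌊y⌋) := by
  have key : (Even ⌊x⌋) ↔ ¬ Even ⌊y⌋ := by
    rcases h with rfl | rfl
    · rw [Int.floor_add_one, Int.even_add_one]
    · rw [Int.floor_sub_one, Int.even_sub_one]
  intro h1
  rw [decide_eq_decide] at h1
  by_cases h2 : Even ⌊y⌋
  · exact key.1 (h1.2 h2) h2
  · exact h2 (h1.1 (key.2 h2))

end NPl
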