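import Mathlib

/-! # Partition into two linearly independent sets (Horn, Rado) (M-L)

A finite set `F` of vectors with `|G| ≤ 2 rank G` for all `G ⊆ F` is the union of two linearly
independent sets. We prove the relative version `horn_rel`, with ranks modulo two subspaces
`W₁, W₂`, by strong induction on `|F|`.

PROOF of `horn_rel`. Write `r_j G = finrank (map W_j.mkQ (span G))`.
Case 1: there is a nonempty `G ⊂ F`, `G ≠ F` with `|G| = r₁ G + r₂ G`. The induction hypothesis for
`(W₁, W₂, G)` gives `I₁ ∪ J₁ = G`, `I₁` independent modulo `W₁`, `J₁` modulo `W₂`. Put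
`W_j' = W_j ⊔ span G`. For `H ⊆ F \ G`:
`finrank (map W_j'.mkQ (span H)) = r_j (G ∪ H) - r_j G`
(in general `finrank (map W.mkQ X) = finrank ((X ⊔ W) / W)`; and
`(span (G ∪ H) ⊔ W_j) / (span G ⊔ W_j) ≅ map W_j'.mkQ (span H)`; only
`finrank (map W_j'.mkQ (span H)) ≥ r_j (G ∪ H) - r_j G` is needed: the linear map
`map W_j.mkQ (span (G ∪ H)) → map W_j'.mkQ (span H)` induced by `V/W_j → V/W_j'` has kernel contained
in `map W_j.mkQ (span G)`: rank-nullity).
So `|H| = |G ∪ H| - |G| ≤ Σ_j (r_j (G ∪ H) - r_j G) ≤ Σ_j finrank (map W_j'.mkQ (span H))`, and the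
induction hypothesis for `(W₁', W₂', F \ G)` (smaller as `G ≠ ∅`) gives `I₂ ∪ J₂ = F \ G`. Take
`I = I₁ ∪ I₂`, `J = J₁ ∪ J₂`. `I` is independent modulo `W₁`: if
`Σ α_x x (x ∈ I₁) + Σ β_y y (y ∈ I₂) ∈ W₁` then `Σ β_y y ∈ W₁ ⊔ span G = W₁'`, so `β = 0`, and then
`Σ α_x x ∈ W₁`, so `α = 0` (`I₁ ∩ I₂ = ∅`). Same for `J`.
Case 2: no such `G`. If `F = ∅` take `I = J = ∅`. Otherwise pick `e ∈ F`. The hypothesis for
`G = {e}` gives `r₁ {e} + r₂ {e} ≥ 1`, so `e ∉ W₁` or `e ∉ W₂`; say `e ∉ W₁` (the other case is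
symmetric). Put `W₁' = W₁ ⊔ span {e}`, `F' = F.erase e`. For `G ⊆ F'`: if `G = ∅` nothing to prove;
if `G ≠ ∅` then `G ≠ F` is not tight, so `|G| + 1 ≤ r₁ G + r₂ G`, and
`finrank (map W₁'.mkQ (span G)) ≥ r₁ G - 1` (kernel of `map W₁.mkQ (span G) → V/W₁'` is contained in
the line spanned by the class of `e`). So the hypothesis holds for `(W₁', W₂, F')`. The induction
hypothesis gives `I' ∪ J' = F'`; take `I = insert e I'`, `J = J'`: `I` is independent modulo `W₁`
because `I'` is independent modulo `W₁ ⊔ span {e}` and `e ∉ W₁`.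

PROOF of `horn`: `W₁ = W₂ = ⊥` (`mkQ` of `⊥` is injective, so it preserves `finrank` of images and
linear independence).
-/

namespace NPl

open Submodule

/-- the factor map. -/
private def fac {K V : Type} [Field K] [AddCommGroup V] [Module K V] (W W' : Submodule K V)
    (h : W ≤ W') : (V ⧸ W) →ₗ[K] (V ⧸ W') := W.liftQ W'.mkQ (by rwa [ker_mkQ])

private theorem fac_mk {K V : Type} [Field K] [AddCommGroup V] [Module K V] (W W' : Submodule K V)
    (h : W ≤ W') (v : V) : fac W W' h (W.mkQ v) = W'.mkQ v := rfl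

private theorem indep_union {K V : Type} [Field K] [AddCommGroup V] [Module K V]
    (W X : Submodule K V) {I₁ I₂ : Set V} (hX : I₁ ⊆ X) (h1 : LinearIndepOn K W.mkQ I₁)
    (h2 : LinearIndepOn K (W ⊔ X).mkQ I₂) : LinearIndepOn K W.mkQ (I₁ ∪ I₂) := by
  refine h1.union_of_quotient ?_
  have hle : span K (W.mkQ '' I₁) ≤ LinearMap.ker (fac W (W ⊔ X) le_sup_left) := by
    rw [span_le]
    rintro _ ⟨v, hv, rfl⟩
    change fac W (W ⊔ X) le_sup_left (W.mkQ v) = 0
    rw [fac_mk, mkQ_apply, Quotient.mk_eq_zero]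
    exact mem_sup_right (hX hv)
  refine LinearIndepOn.of_comp ((span K (W.mkQ '' I₁)).liftQ (fac W (W ⊔ X) le_sup_left) hle) ?_
  exact h2

private theorem rank_sub {K V : Type} [Field K] [AddCommGroup V] [Module K V]
    (W : Submodule K V) (G H : Finset V) :
    Module.finrank K (map W.mkQ (span K (↑G ∪ ↑H : Set V))) ≤
      Module.finrank K (map W.mkQ (span K (G : Set V))) +
        Module.finrank K (map (W ⊔ span K (G : Set V)).mkQ (span K (H : Set V))) := by
  set X := span K (G : Set V) with hX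
  set W' := W ⊔ X with hW'
  set M := map W.mkQ (span K (↑G ∪ ↑H : Set V)) with hM
  have hfinG : Module.Finite K X := Module.Finite.span_of_finite K G.finite_toSet
  have hfinH : Module.Finite K (span K (H : Set V)) :=
    Module.Finite.span_of_finite K H.finite_toSet
  have hfinU : Module.Finite K (span K (↑G ∪ ↑H : Set V)) :=
    Module.Finite.span_of_finite K (G.finite_toSet.union H.finite_toSet)
  have hfinM : Module.Finite K M := Module.Finite.map _ _
  have hfin1 : Module.Finite K (map W.mkQ X) := Module.Finite.map _ _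
  have hfin2 : Module.Finite K (map W'.mkQ (span K (H : Set V))) := Module.Finite.map _ _
  let φ : M →ₗ[K] (V ⧸ W') := (fac W W' le_sup_left).domRestrict M
  have hrn := LinearMap.finrank_range_add_finrank_ker φ
  have hr : Module.finrank K (LinearMap.range φ) ≤
      Module.finrank K (map W'.mkQ (span K (H : Set V))) := by
    refine Submodule.finrank_mono ?_
    rintro _ ⟨⟨y, hy⟩, rfl⟩
    obtain ⟨v, hv, rfl⟩ := hy
    rw [span_union] at hv
    obtain ⟨g, hg, w, hw, rfl⟩ := mem_sup.1 hv
    refine ⟨w, hw, ?_⟩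
    change W'.mkQ w = fac W W' le_sup_left (W.mkQ (g + w))
    rw [fac_mk, map_add]
    have h0 : W'.mkQ g = 0 := by
      rw [mkQ_apply, Quotient.mk_eq_zero]
      exact mem_sup_right hg
    rw [h0, zero_add]
  have hk : Module.finrank K (LinearMap.ker φ) ≤ Module.finrank K (map W.mkQ X) := by
    have hmem : ∀ y : LinearMap.ker φ, ((y : M) : V ⧸ W) ∈ map W.mkQ X := by
      rintro ⟨⟨y, hy⟩, hy0⟩
      obtain ⟨v, hv, rfl⟩ := hy
      have h1 : fac W W' le_sup_left (W.mkQ v) = 0 := hy0
      rw [fac_mk, mkQ_apply, Quotient.mk_eq_zero] at h1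
      obtain ⟨w, hw, g, hg, hwg⟩ := mem_sup.1 h1
      refine ⟨g, hg, ?_⟩
      change W.mkQ g = W.mkQ v
      rw [← hwg, map_add]
      have h0 : W.mkQ w = 0 := by
        rw [mkQ_apply, Quotient.mk_eq_zero]
        exact hw
      rw [h0, zero_add]
    let ψ : LinearMap.ker φ →ₗ[K] (map W.mkQ X) :=
      LinearMap.codRestrict _ (M.subtype.comp (LinearMap.ker φ).subtype) hmem
    refine LinearMap.finrank_le_finrank_of_injective (f := ψ) ?_
    intro y z hyz
    have h0 : ((ψ y : map W.mkQ X) : V ⧸ W) = ((ψ z : map W.mkQ X) : V ⧸ W) := by rw [hyz]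
    have h1 : ((y : M) : V ⧸ W) = ((z : M) : V ⧸ W) := h0
    exact Subtype.ext (Subtype.ext h1)
  omega

private theorem rank_mono {K V : Type} [Field K] [AddCommGroup V] [Module K V]
    (W : Submodule K V) {G H : Set V} (hH : H.Finite) (h : G ⊆ H) :
    Module.finrank K (map W.mkQ (span K G)) ≤ Module.finrank K (map W.mkQ (span K H)) := by
  have hfinH : Module.Finite K (span K H) := Module.Finite.span_of_finite K hH
  have hfin2 : Module.Finite K (map W.mkQ (span K H)) := Module.Finite.map _ _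
  exact Submodule.finrank_mono (map_mono (span_mono h))

private theorem rank_single {K V : Type} [Field K] [AddCommGroup V] [Module K V]
    (W : Submodule K V) (e : V) : Module.finrank K (map W.mkQ (span K ({e} : Set V))) ≤ 1 ∧
      (e ∈ W → Module.finrank K (map W.mkQ (span K ({e} : Set V))) = 0) := by
  rw [map_span, Set.image_singleton]
  constructor
  · by_cases h0 : W.mkQ e = 0
    · rw [h0, span_singleton_eq_bot.2 rfl, finrank_bot]
      exact zero_le_one
    · rw [finrank_span_singleton h0]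
  · intro he
    have h0 : W.mkQ e = 0 := by
      rw [mkQ_apply, Quotient.mk_eq_zero]
      exact he
    rw [h0, span_singleton_eq_bot.2 rfl, finrank_bot]

/-- the statement for one set. -/
private def St {K V : Type} [Field K] [AddCommGroup V] [Module K V] (W₁ W₂ : Submodule K V)
    (F : Finset V) : Prop :=
  (∀ G ⊆ F, G.card ≤ Module.finrank K (map W₁.mkQ (span K (G : Set V))) +
    Module.finrank K (map W₂.mkQ (span K (G : Set V)))) →
  ∃ I J : Finset V, I ⊆ F ∧ J ⊆ F ∧ (∀ x ∈ F, x ∈ I ∨ x ∈ J) ∧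
    LinearIndepOn K W₁.mkQ (I : Set V) ∧ LinearIndepOn K W₂.mkQ (J : Set V)

private theorem St.symm {K V : Type} [Field K] [AddCommGroup V] [Module K V]
    {W₁ W₂ : Submodule K V} {F : Finset V} (h : St W₁ W₂ F) : St W₂ W₁ F := by
  intro h1
  obtain ⟨I, J, hI, hJ, h2, h3, h4⟩ := h fun G hG => by
    rw [add_comm]
    exact h1 G hG
  exact ⟨J, I, hJ, hI, fun x hx => (h2 x hx).symm, h4, h3⟩

/-- Case 2, with `e ∉ W₁`. -/
private theorem case2 {K V : Type} [Field K] [AddCommGroup V] [Module K V] [DecidableEq V]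
    (W₁ W₂ : Submodule K V) (F : Finset V)
    (ih : ∀ (W₁ W₂ : Submodule K V) (F' : Finset V), F'.card < F.card → St W₁ W₂ F')
    (ht : ∀ G ⊆ F, G.Nonempty → G ≠ F →
      G.card < Module.finrank K (map W₁.mkQ (span K (G : Set V))) +
        Module.finrank K (map W₂.mkQ (span K (G : Set V)))) {e : V} (he : e ∈ F) (he1 : e ∉ W₁) :
    ∃ I J : Finset V, I ⊆ F ∧ J ⊆ F ∧ (∀ x ∈ F, x ∈ I ∨ x ∈ J) ∧
      LinearIndepOn K W₁.mkQ (I : Set V) ∧ LinearIndepOn K W₂.mkQ (J : Set V) := by
  obtain ⟨I, J, hI, hJ, hc, h1, h2⟩ := ih (W₁ ⊔ span K ({e} : Set V)) W₂ (F.erase e)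
    (Finset.card_erase_lt_of_mem he) (by
      intro G hG
      rcases G.eq_empty_or_nonempty with rfl | hne
      · simp
      have hGF : G ⊆ F := hG.trans (Finset.erase_subset e F)
      have hGne : G ≠ F := by
        rintro rfl
        exact Finset.notMem_erase e G (hG he)
      have h3 := ht G hGF hne hGne
      have h4 := rank_sub W₁ {e} G
      have h5 : Module.finrank K (map W₁.mkQ (span K (G : Set V))) ≤
          Module.finrank K (map W₁.mkQ (span K (↑({e} : Finset V) ∪ ↑G : Set V))) :=
        rank_mono W₁ (Set.Finite.union (Finset.finite_toSet _) (Finset.finite_toSet _))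
          Set.subset_union_right
      rw [Finset.coe_singleton] at h4 h5
      have h6 := (rank_single W₁ e).1
      omega)
  refine ⟨insert e I, J, ?_, hJ.trans (Finset.erase_subset e F), ?_, ?_, h2⟩
  · intro x hx
    rcases Finset.mem_insert.1 hx with rfl | hx
    · exact he
    · exact Finset.erase_subset e F (hI hx)
  · intro x hx
    by_cases hxe : x = e
    · exact Or.inl (hxe ▸ Finset.mem_insert_self _ _)
    · rcases hc x (Finset.mem_erase.2 ⟨hxe, hx⟩) with h | h
      · exact Or.inl (Finset.mem_insert_of_mem h)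
      · exact Or.inr h
  · rw [Finset.coe_insert, Set.insert_eq]
    refine indep_union W₁ (span K ({e} : Set V)) subset_span ?_ h1
    rw [linearIndepOn_singleton_iff, mkQ_apply, Ne, Quotient.mk_eq_zero]
    exact he1

private theorem main {K V : Type} [Field K] [AddCommGroup V] [Module K V] [DecidableEq V]
    (n : ℕ) : ∀ (W₁ W₂ : Submodule K V) (F : Finset V), F.card = n → St W₁ W₂ F := by
  induction n using Nat.strong_induction_on with
  | _ n ih =>
    intro W₁ W₂ F hF h
    have ih' : ∀ (W₁ W₂ : Submodule K V) (F' : Finset V), F'.card < F.card → St W₁ W₂ F' :=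
      fun W₁ W₂ F' hF' => ih F'.card (hF ▸ hF') W₁ W₂ F' rfl
    by_cases hT : ∃ G ⊆ F, G.Nonempty ∧ G ≠ F ∧
        G.card = Module.finrank K (map W₁.mkQ (span K (G : Set V))) +
          Module.finrank K (map W₂.mkQ (span K (G : Set V)))
    · obtain ⟨G, hG, hne, hGF, hcard⟩ := hT
      have hlt : G.card < F.card := Finset.card_lt_card (Finset.ssubset_iff_subset_ne.2 ⟨hG, hGF⟩)
      obtain ⟨I₁, J₁, hI₁, hJ₁, hc₁, a1, b1⟩ := ih' W₁ W₂ G hlt fun H hH => h H (hH.trans hG)
      have hlt2 : (F \ G).card < F.card := by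
        rw [Finset.card_sdiff_of_subset hG]
        have := hne.card_pos
        omega
      obtain ⟨I₂, J₂, hI₂, hJ₂, hc₂, a2, b2⟩ := ih' (W₁ ⊔ span K (G : Set V))
        (W₂ ⊔ span K (G : Set V)) (F \ G) hlt2 (by
          intro H hH
          have hdis : Disjoint G H := by
            rw [Finset.disjoint_left]
            intro x hx hx'
            exact (Finset.mem_sdiff.1 (hH hx')).2 hx
          have h3 := h (G ∪ H) (Finset.union_subset hG (hH.trans Finset.sdiff_subset))
          rw [Finset.card_union_of_disjoint hdis, Finset.coe_union] at h3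
          have h4 := rank_sub W₁ G H
          have h5 := rank_sub W₂ G H
          omega)
      refine ⟨I₁ ∪ I₂, J₁ ∪ J₂, Finset.union_subset (hI₁.trans hG) (hI₂.trans Finset.sdiff_subset),
        Finset.union_subset (hJ₁.trans hG) (hJ₂.trans Finset.sdiff_subset), ?_, ?_, ?_⟩
      · intro x hx
        by_cases hxG : x ∈ G
        · rcases hc₁ x hxG with h6 | h6
          · exact Or.inl (Finset.mem_union_left _ h6)
          · exact Or.inr (Finset.mem_union_left _ h6)
        · rcases hc₂ x (Finset.mem_sdiff.2 ⟨hx, hxG⟩) with h6 | h6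
          · exact Or.inl (Finset.mem_union_right _ h6)
          · exact Or.inr (Finset.mem_union_right _ h6)
      · rw [Finset.coe_union]
        exact indep_union W₁ _ (fun x hx => subset_span (hI₁ hx)) a1 a2
      · rw [Finset.coe_union]
        exact indep_union W₂ _ (fun x hx => subset_span (hJ₁ hx)) b1 b2
    · have ht : ∀ G ⊆ F, G.Nonempty → G ≠ F →
          G.card < Module.finrank K (map W₁.mkQ (span K (G : Set V))) +
            Module.finrank K (map W₂.mkQ (span K (G : Set V))) := fun G hG hne hGF =>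
        lt_of_le_of_ne (h G hG) fun he => hT ⟨G, hG, hne, hGF, he⟩
      rcases F.eq_empty_or_nonempty with rfl | ⟨e, he⟩
      · exact ⟨∅, ∅, le_refl _, le_refl _, fun x hx => absurd hx (Finset.notMem_empty x),
          by rw [Finset.coe_empty]; exact linearIndepOn_empty K _,
          by rw [Finset.coe_empty]; exact linearIndepOn_empty K _⟩
      · by_cases he1 : e ∈ W₁
        · have he2 : e ∉ W₂ := by
            intro he2
            have h7 := h {e} (Finset.singleton_subset_iff.2 he)
            rw [Finset.card_singleton, Finset.coe_singleton, (rank_single W₁ e).2 he1,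
              (rank_single W₂ e).2 he2] at h7
            omega
          obtain ⟨I, J, hI, hJ, h2, h3, h4⟩ := case2 W₂ W₁ F ih' (fun G hG hne hGF => by
            rw [add_comm]
            exact ht G hG hne hGF) he he2
          exact ⟨J, I, hJ, hI, fun x hx => (h2 x hx).symm, h4, h3⟩
        · exact case2 W₁ W₂ F ih' ht he he1

theorem horn_rel {K V : Type} [Field K] [AddCommGroup V] [Module K V] (n : ℕ) :
    ∀ (W₁ W₂ : Submodule K V) (F : Finset V), F.card = n →
      (∀ G ⊆ F, G.card ≤ Module.finrank K (map W₁.mkQ (span K (G : Set V))) +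
        Module.finrank K (map W₂.mkQ (span K (G : Set V)))) →
      ∃ I J : Finset V, (∀ x ∈ F, x ∈ I ∨ x ∈ J) ∧ LinearIndepOn K W₁.mkQ (I : Set V) ∧
        LinearIndepOn K W₂.mkQ (J : Set V) := by
  classical
  intro W₁ W₂ F hF h
  obtain ⟨I, J, -, -, h1, h2, h3⟩ := main n W₁ W₂ F hF h
  exact ⟨I, J, h1, h2, h3⟩

theorem horn {K V : Type} [Field K] [AddCommGroup V] [Module K V] (F : Finset V)
    (h : ∀ G ⊆ F, G.card ≤ 2 * Module.finrank K (span K (G : Set V))) :
    ∃ I J : Finset V, (∀ x ∈ F, x ∈ I ∨ x ∈ J) ∧ LinearIndepOn K id (I : Set V) ∧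
      LinearIndepOn K id (J : Set V) := by
  have hr : ∀ X : Submodule K V,
      Module.finrank K (map (⊥ : Submodule K V).mkQ X) = Module.finrank K X := by
    intro X
    have hinj : Function.Injective (⊥ : Submodule K V).mkQ := by
      rw [← LinearMap.ker_eq_bot, ker_mkQ]
    exact (LinearEquiv.finrank_eq (equivMapOfInjective _ hinj X)).symm
  obtain ⟨I, J, h1, h2, h3⟩ := horn_rel F.card (⊥ : Submodule K V) ⊥ F rfl (fun G hG => by
    rw [hr, ← two_mul]
    exact h G hG)
  exact ⟨I, J, h1, LinearIndepOn.of_comp (⊥ : Submodule K V).mkQ h2,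
    LinearIndepOn.of_comp (⊥ : Submodule K V).mkQ h3⟩

end NPl
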