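import Pool.Agent.Work.MP_6b4466_lc.NP.Om
import Pool.Agent.Work.MP_6b4466_lc.NP.Horn
import Pool.Agent.Work.MP_6b4466_lc.NP.Func

/-! # Norms with the rational rank condition have a proper four-colouring (M)

PROOF. By `SimpleGraph.nonempty_hom_of_forall_finite_subgraph_hom` (de Bruijn-Erdős in Mathlib) with
`F = completeGraph (Bool × Bool)` it suffices to find, for every subgraph `G'` of `UG N` with finite
vertex set, a homomorphism `G'.coe →g F`; then `UG N` is colourable with the four-element type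
`Bool × Bool` (`Colorable 4` via `Fintype.card (Bool × Bool) = 4`, `Coloring.colorable`).
Let `P` be the finite vertex set and `E = {x - y | x, y ∈ P, N (x - y) = 1}` (finite). Let `Fp` be
the set of the `u ∈ E` which are positive in the sense: `0 < u 0 ∨ (u 0 = 0 ∧ 0 < u 1)`. Exactly one of `u`, `-u`
is positive for `u ≠ 0`, and `E = -E`, so: `u ∈ Fp → -u ∉ Fp`, and for `u ∈ E`, `u ∈ Fp` or
`-u ∈ Fp`. Every `G ⊆ Fp` satisfies the hypotheses of `Star`, so
`G.card ≤ 2 * finrank ℚ (span ℚ G)`. `horn` (with `K = ℚ`, `V = Pl`) gives finsets `I, J`, linearly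
independent over `ℚ`, with `Fp ⊆ I ∪ J`. Let `f, g : Pl →ₗ[ℚ] ℚ` with `f = 1` on `I`, `g = 1` on `J`
(`exists_func`). Colour `x` with `(decide (Even ⌊f x⌋), decide (Even ⌊g x⌋))`. For adjacent
`x, y ∈ P`, `u = x - y ∈ E`; `u` or `-u` is in `I` or in `J`; if `u ∈ I`, `f x = f y + 1`; if
`-u ∈ I`, `f x = f y - 1`; so the first components differ by `par_ne`; similarly for `J` and the
second components. (Caution: `Pl` carries its `ℚ`-module structure by instance
`inferInstance : Module ℚ Pl`, the one used in `Star`.)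
-/

namespace NPl

open Set Metric Topology

private def Pos (u : Pl) : Prop := 0 < u 0 ∨ (u 0 = 0 ∧ 0 < u 1)

private theorem pos_or {u : Pl} (hu : u ≠ 0) : Pos u ∨ Pos (-u) := by
  unfold Pos
  simp only [PiLp.neg_apply]
  rcases lt_trichotomy (u 0) 0 with h0 | h0 | h0
  · exact Or.inr (Or.inl (by linarith))
  · rcases lt_trichotomy (u 1) 0 with h1 | h1 | h1
    · exact Or.inr (Or.inr ⟨by linarith, by linarith⟩)
    · exfalso
      apply hu
      ext i
      fin_cases i
      · exact h0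
      · exact h1
    · exact Or.inl (Or.inr ⟨h0, h1⟩)
  · exact Or.inl (Or.inl h0)

private theorem not_both {u : Pl} (hu : Pos u) : ¬ Pos (-u) := by
  unfold Pos at *
  simp only [PiLp.neg_apply] at *
  rintro (h | ⟨h1, h2⟩) <;> rcases hu with h3 | ⟨h3, h4⟩ <;> linarith

private theorem fin_col {N : Seminorm ℝ Pl} (h : Star N) (P : Finset Pl) :
    ∃ c : Pl → Bool × Bool, ∀ x ∈ P, ∀ y ∈ P, N (x - y) = 1 → c x ≠ c y := by
  classical
  obtain ⟨E, hE⟩ : ∃ E : Finset Pl, E = ((P ×ˢ P).image fun q => q.1 - q.2).filter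
      fun u => N u = 1 ∧ Pos u := ⟨_, rfl⟩
  have hmem : ∀ u, u ∈ E ↔ (∃ x ∈ P, ∃ y ∈ P, x - y = u) ∧ N u = 1 ∧ Pos u := by
    intro u
    rw [hE, Finset.mem_filter, Finset.mem_image]
    constructor
    · rintro ⟨⟨q, hq, rfl⟩, h2⟩
      rw [Finset.mem_product] at hq
      exact ⟨⟨q.1, hq.1, q.2, hq.2, rfl⟩, h2⟩
    · rintro ⟨⟨x, hx, y, hy, rfl⟩, h2⟩
      exact ⟨⟨(x, y), Finset.mem_product.2 ⟨hx, hy⟩, rfl⟩, h2⟩
  obtain ⟨I, J, hIJ, hI, hJ⟩ := horn (K := ℚ) E (fun G hG => by
    refine h G (fun u hu => ((hmem u).1 (hG hu)).2.1) fun u hu hnu => ?_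
    exact not_both ((hmem u).1 (hG hu)).2.2 ((hmem (-u)).1 (hG hnu)).2.2)
  obtain ⟨f, hf⟩ := exists_func I hI
  obtain ⟨g, hg⟩ := exists_func J hJ
  refine ⟨fun x => (decide (Even ⌊f x⌋), decide (Even ⌊g x⌋)), fun x hx y hy hxy heq => ?_⟩
  obtain ⟨e1, e2⟩ := Prod.mk.inj heq
  have hne : x - y ≠ 0 := by
    intro h0
    rw [h0, map_zero] at hxy
    exact zero_ne_one hxy
  rcases pos_or hne with hp | hp
  · have hu : x - y ∈ E := (hmem _).2 ⟨⟨x, hx, y, hy, rfl⟩, hxy, hp⟩
    rcases hIJ _ hu with hi | hj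
    · have h1 := hf _ hi
      rw [map_sub] at h1
      exact par_ne (Or.inl (by linarith)) e1
    · have h1 := hg _ hj
      rw [map_sub] at h1
      exact par_ne (Or.inl (by linarith)) e2
  · have hu : -(x - y) ∈ E := (hmem _).2 ⟨⟨y, hy, x, hx, (neg_sub x y).symm⟩, by
      rw [map_neg_eq_map, hxy], hp⟩
    rcases hIJ _ hu with hi | hj
    · have h1 := hf _ hi
      rw [neg_sub, map_sub] at h1
      exact par_ne (Or.inr (by linarith)) e1
    · have h1 := hg _ hj
      rw [neg_sub, map_sub] at h1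
      exact par_ne (Or.inr (by linarith)) e2

theorem four_of_star {N : Seminorm ℝ Pl} (h : Star N) : (UG N).Colorable 4 := by
  classical
  have hfin : ∀ G' : (UG N).Subgraph, G'.verts.Finite →
      Nonempty (G'.coe →g (⊤ : SimpleGraph (Bool × Bool))) := by
    intro G' hG'
    obtain ⟨c, hc⟩ := fin_col h hG'.toFinset
    refine ⟨⟨fun v => c v.1, fun {v w} hvw => ?_⟩⟩
    rw [SimpleGraph.top_adj]
    refine hc v.1 (hG'.mem_toFinset.2 v.2) w.1 (hG'.mem_toFinset.2 w.2) ?_
    exact G'.adj_sub hvw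
  obtain ⟨c⟩ := SimpleGraph.nonempty_hom_of_forall_finite_subgraph_hom
    (fun G' hG' => (hfin G' hG').some)
  have h4 := SimpleGraph.Coloring.colorable (G := UG N) (α := Bool × Bool) c
  simpa using h4

end NPl
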