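import Pool.Agent.Work.MP_6b4466_lc.NP.Om

/-! # Equilateral triangles on a unit vector (M)

PROOF. Let `e` with `0 < om a e` (`om_exists`). For `t ∈ [-1, 1]` put
`g t = t • a + (1 - |t|) • e`. Then `om a (g t) = (1 - |t|) om a e`, which is positive for
`|t| < 1`, and `g (± 1) = ± a ≠ 0`; so `g t ≠ 0` for all `t ∈ [-1, 1]` and
`s t = (N (g t))⁻¹ • g t` is continuous on `[-1, 1]` (`N` is continuous and definite), `N (s t) = 1`,
`s 1 = a`, `s (-1) = -a`. The function `t ↦ N (s t - a)` is continuous on `[-1, 1]` with values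
`N (-2 a) = 2` at `-1` and `0` at `1`, so it is `1` at some `t ∈ [-1, 1]`, and `t ≠ ± 1`. Then
`v = s t` has `om a v = (N (g t))⁻¹ (1 - |t|) om a e > 0`.
-/

namespace NPl

open Set Metric Topology

theorem hex {N : Seminorm ℝ Pl} (h : Nrm N) {a : Pl} (ha : N a = 1) :
    ∃ v : Pl, N v = 1 ∧ N (v - a) = 1 ∧ 0 < om a v := by
  obtain ⟨e, he⟩ := om_exists (ne_zero_of_unit ha)
  set g : ℝ → Pl := fun t => t • a + (1 - |t|) • e with hg
  have hgc : Continuous g := by
    rw [hg]; fun_prop
  have hom : ∀ t, om a (g t) = (1 - |t|) * om a e := by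
    intro t
    rw [hg]
    simp only
    rw [om_add_right, om_smul_right, om_smul_right, om_self, mul_zero, zero_add]
  have hg0 : ∀ t ∈ Icc (-1 : ℝ) 1, g t ≠ 0 := by
    intro t ht h0
    have h1 := hom t
    rw [h0, om_zero_right] at h1
    have h2 : 1 - |t| = 0 := by
      rcases mul_eq_zero.1 h1.symm with h3 | h3
      · exact h3
      · exact absurd h3 he.ne'
    have h3 : |t| = 1 := by linarith
    have h4 : g t = t • a := by
      rw [hg]; simp only
      rw [h2, zero_smul, add_zero]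
    rw [h4] at h0
    rcases smul_eq_zero.1 h0 with h5 | h5
    · rw [h5, abs_zero] at h3
      exact zero_ne_one h3
    · exact ne_zero_of_unit ha h5
  have hN : ∀ t ∈ Icc (-1 : ℝ) 1, 0 < N (g t) := fun t ht =>
    lt_of_le_of_ne (apply_nonneg N _) fun h0 => hg0 t ht (h.defin _ h0.symm)
  set s : ℝ → Pl := fun t => (N (g t))⁻¹ • g t with hs
  have hsc : ContinuousOn s (Icc (-1 : ℝ) 1) := by
    rw [hs]
    refine ContinuousOn.smul (ContinuousOn.inv₀ (h.cont.comp hgc).continuousOn ?_)
      hgc.continuousOn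
    intro t ht
    exact (hN t ht).ne'
  have hs1 : ∀ t ∈ Icc (-1 : ℝ) 1, N (s t) = 1 := by
    intro t ht
    rw [hs]; simp only
    rw [map_smul_eq_mul, norm_inv, Real.norm_eq_abs, abs_of_pos (hN t ht),
      inv_mul_cancel₀ (hN t ht).ne']
  have hf : ContinuousOn (fun t => N (s t - a)) (Icc (-1 : ℝ) 1) :=
    h.cont.comp_continuousOn (hsc.sub continuousOn_const)
  have hg1 : g 1 = a := by simp [hg]
  have hgm : g (-1) = -a := by simp [hg]
  have hv1 : N (s 1 - a) = 0 := by
    rw [hs]; simp only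
    rw [hg1, ha, inv_one, one_smul, sub_self, map_zero]
  have hvm : N (s (-1) - a) = 2 := by
    rw [hs]; simp only
    rw [hgm, map_neg_eq_map, ha, inv_one, one_smul]
    have : -a - a = (-2 : ℝ) • a := by module
    rw [this, map_smul_eq_mul, ha, Real.norm_eq_abs]
    norm_num
  have hiv := intermediate_value_Icc' (by norm_num : (-1 : ℝ) ≤ 1) hf
  obtain ⟨t, ht, htv⟩ := hiv (show (1 : ℝ) ∈ Icc (N (s 1 - a)) (N (s (-1) - a)) by
    rw [hv1, hvm]; norm_num)
  simp only at htv
  refine ⟨s t, hs1 t ht, htv, ?_⟩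
  have h1 : om a (s t) = (N (g t))⁻¹ * ((1 - |t|) * om a e) := by
    rw [hs]; simp only
    rw [om_smul_right, hom]
  rw [h1]
  refine mul_pos (inv_pos.2 (hN t ht)) (mul_pos ?_ he)
  have h2 : |t| ≤ 1 := abs_le.2 ht
  rcases lt_or_eq_of_le h2 with h3 | h3
  · linarith
  · exfalso
    rcases (abs_eq zero_le_one).1 h3 with h4 | h4
    · rw [h4, hv1] at htv
      exact zero_ne_one htv
    · rw [h4, hvm] at htv
      norm_num at htv

end NPl
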