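import Pool.Agent.Work.MP_6b4466_lc.NP.Two
import Pool.Agent.Work.MP_6b4466_lc.NP.Hex
import Pool.Agent.Work.MP_6b4466_lc.NP.Arc

/-! # With four colours no boundary of two colours contains an arc of a unit circle (M-L)

PROOF. Suppose that `x + s ∈ closure (U i) ∩ closure (U j)` for all unit vectors `s ∈ A`. Let `k, l`
be the two other colours. Put `y₀ = x + a₀` and let `O` be the interior of
`{z | ∃ a ∈ A, ∃ b, N a = 1 ∧ N b = 1 ∧ z = x + a + b}`.
* `O` is open and misses `U i` and `U j`: if `z = x + a + b` as in the definition,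
  `x + a ∈ closure (U i)` and `N ((x + a) - z) = N b = 1`, so `z ∉ U i` by `cl_av`; same for `j`.
* If `N b = 1` and `om a₀ b ≠ 0`, then `y₀ + b ∈ O`: by `sum_unit` (with this `A` and `B = univ`)
  all points close to `a₀ + b` are sums `a' + b'` of the required kind.
* `hex` gives `v` with `N v = 1`, `N (v - a₀) = 1`, `om a₀ v > 0`. Put `v₁ = v`, `v₂ = v - a₀`; then
  `N v₁ = N v₂ = 1`, `om a₀ v₂ = om a₀ v > 0`, `N (v₁ - v₂) = N a₀ = 1`. By `arc_exists` there is a
  preconnected `K` containing `v₁, v₂` with `N s = 1`, `om a₀ s > 0` for `s ∈ K`; so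
  `y₀ + s ∈ O` for `s ∈ K`.
* Let `s ∈ K`, `z = y₀ + s`. There is `w ∈ O` with `N (w - z) = 1`: let `v'` be given by `hex` for
  `s` (`N v' = 1`, `N (v' - s) = 1`). If `om a₀ v' ≠ 0` take `w = y₀ + v'`. Otherwise
  `om a₀ (s - v') = om a₀ s > 0`, `N (s - v') = 1`, `N ((s - v') - s) = N v' = 1`: take
  `w = y₀ + (s - v')`.
  By `two_col` (for `O` and the colours `k, l`), `z` is not in both closures of `U k` and `U l`. So
  by `two_cl` (`T = {k, l}`) `z ∈ U m` for some `m`, and `m = k` or `m = l` as `z ∈ O`.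
* So the preconnected set `y₀ + K` (image of `K` under `s ↦ y₀ + s`) is contained in the union of the
  disjoint open sets `U k`, `U l`, hence in one of them (`IsPreconnected.subset_or_subset`), which
  then contains `y₀ + v₁` and `y₀ + v₂`, at distance `N (v₁ - v₂) = 1`: contradiction with `av`.
-/

namespace NPl

open Set Metric Topology

private theorem four (i j : Fin 4) (hij : i ≠ j) : ∃ k l : Fin 4, k ≠ l ∧
    ∀ m, m = i ∨ m = j ∨ m = k ∨ m = l := by
  revert i j
  decide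

theorem no_arc {N : Seminorm ℝ Pl} (h : Nrm N) {U : Fin 4 → Set Pl} (hU : Col N U)
    {i j : Fin 4} (hij : i ≠ j) (x : Pl) {A : Set Pl} (hA : IsOpen A) {a₀ : Pl} (ha₀ : a₀ ∈ A)
    (ha₁ : N a₀ = 1)
    (hcl : ∀ s ∈ A, N s = 1 → x + s ∈ closure (U i) ∧ x + s ∈ closure (U j)) : False := by
  obtain ⟨k, l, hkl, hall⟩ := four i j hij
  set P : Set Pl := {z | ∃ a ∈ A, ∃ b, N a = 1 ∧ N b = 1 ∧ z = x + a + b} with hP
  set O : Set Pl := interior P with hO
  have hOo : IsOpen O := isOpen_interior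
  have hOij : ∀ z ∈ O, z ∉ U i ∧ z ∉ U j := by
    intro z hz
    obtain ⟨a, ha, b, hNa, hNb, rfl⟩ := interior_subset hz
    have h1 : N ((x + a) - (x + a + b)) = 1 := by
      rw [sub_add_cancel_left, map_neg_eq_map, hNb]
    exact ⟨cl_av hU (hcl a ha hNa).1 h1, cl_av hU (hcl a ha hNa).2 h1⟩
  have hO2 : ∀ b, N b = 1 → om a₀ b ≠ 0 → x + a₀ + b ∈ O := by
    intro b hb hab
    obtain ⟨ε, hε, hz⟩ := sum_unit h ha₁ hb hab hA isOpen_univ ha₀ (mem_univ b)
    rw [hO, mem_interior]
    refine ⟨ball (x + a₀ + b) ε, ?_, isOpen_ball, mem_ball_self hε⟩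
    intro z hzb
    rw [mem_ball, dist_eq_norm] at hzb
    obtain ⟨a', ha', b', -, hNa', hNb', he⟩ := hz (z - x) (by
      have : z - x - (a₀ + b) = z - (x + a₀ + b) := by abel
      rwa [this])
    refine ⟨a', ha', b', hNa', hNb', ?_⟩
    rw [add_assoc, he]
    abel
  obtain ⟨v, hv, hva, hov⟩ := hex h ha₁
  have hov2 : 0 < om a₀ (v - a₀) := by
    rw [om_sub_right, om_self, sub_zero]
    exact hov
  obtain ⟨K, hK, hvK, hv2K, hKs⟩ := arc_exists h hv hva hov hov2
  have hT : ∀ m, m ≠ k → m ≠ l → Disjoint O (U m) := by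
    intro m hmk hml
    rw [Set.disjoint_left]
    intro z hz
    rcases hall m with rfl | rfl | rfl | rfl
    · exact (hOij z hz).1
    · exact (hOij z hz).2
    · exact absurd rfl hmk
    · exact absurd rfl hml
  have hcov : ∀ s ∈ K, x + a₀ + s ∈ U k ∪ U l := by
    intro s hs
    obtain ⟨hNs, homs⟩ := hKs s hs
    have hz : x + a₀ + s ∈ O := hO2 s hNs homs.ne'
    have hw : ∃ w ∈ O, N (w - (x + a₀ + s)) = 1 := by
      obtain ⟨v', hv', hvs, -⟩ := hex h hNs
      by_cases h0 : om a₀ v' = 0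
      · refine ⟨x + a₀ + (s - v'), hO2 _ ?_ ?_, ?_⟩
        · rw [← neg_sub, map_neg_eq_map, hvs]
        · rw [om_sub_right, h0, sub_zero]
          exact homs.ne'
        · have : x + a₀ + (s - v') - (x + a₀ + s) = -v' := by abel
          rw [this, map_neg_eq_map, hv']
      · refine ⟨x + a₀ + v', hO2 _ hv' h0, ?_⟩
        have : x + a₀ + v' - (x + a₀ + s) = v' - s := by abel
        rw [this, hvs]
    obtain ⟨w, hwO, hwN⟩ := hw
    have hnot : ¬ (x + a₀ + s ∈ closure (U k) ∧ x + a₀ + s ∈ closure (U l)) := fun hc =>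
      two_col h hU hOo hkl hT hz hwO hc.1 hc.2 hwN
    by_contra hnu
    have hno : ∀ m, x + a₀ + s ∉ U m := by
      intro m hm
      rcases hall m with rfl | rfl | rfl | rfl
      · exact (hOij _ hz).1 hm
      · exact (hOij _ hz).2 hm
      · exact hnu (Or.inl hm)
      · exact hnu (Or.inr hm)
    obtain ⟨i', hi', j', hj', hij', hc1, hc2⟩ := two_cl hU ({k, l} : Set (Fin 4)) hOo
      (fun m hm => hT m (fun hmk => hm (Or.inl hmk)) fun hml => hm (Or.inr hml)) hz hno
    rcases hi' with rfl | hi'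
    · rcases hj' with rfl | hj'
      · exact hij' rfl
      · rw [mem_singleton_iff.1 hj'] at hc2
        exact hnot ⟨hc1, hc2⟩
    · rw [mem_singleton_iff.1 hi'] at hc1 hij'
      rcases hj' with rfl | hj'
      · exact hnot ⟨hc2, hc1⟩
      · exact hij' (mem_singleton_iff.1 hj').symm
  have hpre : IsPreconnected ((fun s => x + a₀ + s) '' K) :=
    hK.image _ (continuous_const.add continuous_id).continuousOn
  have hsub : (fun s => x + a₀ + s) '' K ⊆ U k ∪ U l := by
    rintro _ ⟨s, hs, rfl⟩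
    exact hcov s hs
  have hN1 : N ((x + a₀ + v) - (x + a₀ + (v - a₀))) = 1 := by
    have : (x + a₀ + v) - (x + a₀ + (v - a₀)) = a₀ := by abel
    rw [this, ha₁]
  have hend : ∀ m, (fun s => x + a₀ + s) '' K ⊆ U m → False := fun m hm =>
    hU.av m _ (hm ⟨v, hvK, rfl⟩) _ (hm ⟨v - a₀, hv2K, rfl⟩) hN1
  rcases hpre.subset_or_subset (hU.op k) (hU.op l) (hU.dis k l hkl) hsub with h1 | h1
  · exact hend k h1
  · exact hend l h1

end NPl
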