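import Pool.Agent.Work.MP_6b4466_lc.NP.Uniq
import Pool.Agent.Work.MP_6b4466_lc.NP.Hex
import Pool.Agent.Work.MP_6b4466_lc.NP.Arc

/-! # The space of positively oriented unit triangles is connected (M)

PROOF. Let `P` be the set of the statement. It is compact: closed (all functions are continuous)
and bounded (`N` is equivalent to the Euclidean norm: by continuity and definiteness
`c := inf {N x | ‖x‖ = 1} > 0` (compact sphere), so `N x ≥ c ‖x‖`). For `(a, v) ∈ P` we have
`om a v > 0`: if `om a v = 0` then `v = ± a` (`om_unit`) and `N (v - a) ∈ {0, 2}`.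
The first projection `P → S = {x | N x = 1}` is continuous, surjective (`hex`) and injective
(`hex_unique`); from a compact space to a Hausdorff space it is therefore a homeomorphism
(`Continuous.homeoOfEquivCompactToT2` or `Topology.IsClosedEmbedding`), so `P` is the image of the
preconnected set `S` (`circle_preconnected`) under the continuous inverse.
-/

namespace NPl

open Set Metric Topology

/-- Positively oriented unit triangles `0, a, v`. -/
def TriSet (N : Seminorm ℝ Pl) : Set (Pl × Pl) :=
  {p | N p.1 = 1 ∧ N p.2 = 1 ∧ N (p.2 - p.1) = 1 ∧ 0 ≤ om p.1 p.2}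

private theorem lower_bound {N : Seminorm ℝ Pl} (h : Nrm N) :
    ∃ c : ℝ, 0 < c ∧ ∀ x : Pl, c * ‖x‖ ≤ N x := by
  have hne : (sphere (0 : Pl) 1).Nonempty :=
    ⟨EuclideanSpace.single 0 1, by simp⟩
  obtain ⟨x0, hx0, hmin⟩ := (isCompact_sphere (0 : Pl) 1).exists_isMinOn hne h.cont.continuousOn
  have hx0' : x0 ≠ 0 := by
    rintro rfl
    rw [mem_sphere_zero_iff_norm, norm_zero] at hx0
    exact zero_ne_one hx0
  refine ⟨N x0, norm_pos_of h hx0', fun x => ?_⟩
  rcases eq_or_ne x 0 with rfl | hx
  · simp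
  · have hx' : 0 < ‖x‖ := norm_pos_iff.2 hx
    have h1 : N x0 ≤ N (‖x‖⁻¹ • x) := hmin (by
      rw [mem_sphere_zero_iff_norm, norm_smul, norm_inv, norm_norm, inv_mul_cancel₀ hx'.ne'])
    rw [map_smul_eq_mul, norm_inv, norm_norm] at h1
    calc N x0 * ‖x‖ ≤ (‖x‖⁻¹ * N x) * ‖x‖ := mul_le_mul_of_nonneg_right h1 hx'.le
      _ = N x := by field_simp

private theorem triSet_compact {N : Seminorm ℝ Pl} (h : Nrm N) : IsCompact (TriSet N) := by
  obtain ⟨c, hc, hN⟩ := lower_bound h
  have hcont := h.cont
  have hcl : IsClosed (TriSet N) := by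
    have h1 : IsClosed {p : Pl × Pl | N p.1 = 1} :=
      isClosed_eq (hcont.comp continuous_fst) continuous_const
    have h2 : IsClosed {p : Pl × Pl | N p.2 = 1} :=
      isClosed_eq (hcont.comp continuous_snd) continuous_const
    have h3 : IsClosed {p : Pl × Pl | N (p.2 - p.1) = 1} :=
      isClosed_eq (hcont.comp (continuous_snd.sub continuous_fst)) continuous_const
    have h4 : IsClosed {p : Pl × Pl | 0 ≤ om p.1 p.2} := isClosed_le continuous_const om_cont
    have he : TriSet N = {p : Pl × Pl | N p.1 = 1} ∩ ({p : Pl × Pl | N p.2 = 1} ∩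
        ({p : Pl × Pl | N (p.2 - p.1) = 1} ∩ {p : Pl × Pl | 0 ≤ om p.1 p.2})) := rfl
    rw [he]
    exact h1.inter (h2.inter (h3.inter h4))
  refine Metric.isCompact_of_isClosed_isBounded hcl ?_
  refine (Metric.isBounded_closedBall (x := (0 : Pl × Pl)) (r := 1 / c)).subset fun p hp => ?_
  rw [mem_closedBall_zero_iff, Prod.norm_def]
  have e : ∀ x : Pl, N x = 1 → ‖x‖ ≤ 1 / c := fun x hx => by
    rw [le_div_iff₀ hc]
    have := hN x
    linarith
  exact max_le (e _ hp.1) (e _ hp.2.1)

private theorem om_pos_of_mem {N : Seminorm ℝ Pl} {p : Pl × Pl} (hp : p ∈ TriSet N) :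
    0 < om p.1 p.2 := by
  obtain ⟨h1, h2, h3, h4⟩ := hp
  refine lt_of_le_of_ne h4 fun h0 => ?_
  rcases om_unit h1 h2 h0.symm with h5 | h5
  · rw [h5, sub_self, map_zero] at h3
    exact zero_ne_one h3
  · have e : p.2 - p.1 = (-2 : ℝ) • p.1 := by rw [h5]; module
    rw [e, map_smul_eq_mul, h1] at h3
    norm_num at h3

theorem triSet_preconnected {N : Seminorm ℝ Pl} (h : Nrm N) : IsPreconnected (TriSet N) := by
  haveI : CompactSpace (TriSet N) := isCompact_iff_compactSpace.1 (triSet_compact h)
  have hf : Continuous (fun p : TriSet N => p.1.1) := continuous_fst.comp continuous_subtype_val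
  have hinj : Function.Injective (fun p : TriSet N => p.1.1) := by
    intro p q hpq
    have hpq' : p.1.1 = q.1.1 := hpq
    have hq := q.2
    have hp := p.2
    have hq0 := om_pos_of_mem hq
    have h2 : p.1.2 = q.1.2 := by
      refine hex_unique h hp.1 hp.2.1 hp.2.2.1 (om_pos_of_mem hp) hq.2.1 ?_ ?_
      · rw [hpq']
        exact hq.2.2.1
      · rw [hpq']
        exact hq0
    exact Subtype.ext (Prod.ext hpq' h2)
  have hemb := hf.isClosedEmbedding hinj
  have himg : (fun p : TriSet N => p.1.1) '' univ = {x : Pl | N x = 1} := by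
    ext x
    constructor
    · rintro ⟨p, -, rfl⟩
      exact p.2.1
    · intro hx
      obtain ⟨v, hv, hva, hom⟩ := hex h hx
      exact ⟨⟨(x, v), hx, hv, hva, hom.le⟩, trivial, rfl⟩
  have hpre : IsPreconnected (univ : Set (TriSet N)) := by
    rw [← hemb.isInducing.isPreconnected_image, himg]
    exact circle_preconnected h
  exact isPreconnected_iff_preconnectedSpace.2 ⟨hpre⟩

end NPl
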