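import Pool.Agent.Work.MP_6b4466_lc.NP.Om

/-! # From open sets to regular open disjoint sets (M)

PROOF. Extend `U` to `Fin 4` by empty sets: `W j = U ⟨j, _⟩` if `j < k` and `∅` otherwise; the `W j`
are open, avoid distance one and have dense union. Make them disjoint: for `j : Fin 4` put
`W' j = W j \ ⋃ i < j, closure (W i)`, open. The union of the `W' j` is dense: let `O` be open and
nonempty, and let `j` be the least index with `O ∩ W j` nonempty (exists by density). For `i < j`,
`O ∩ W i = ∅`, so `O ∩ closure (W i) = ∅` (`O` open), so `O ∩ W' j = O ∩ W j` is nonempty. The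
`W' j` are pairwise disjoint (`W' j ∩ W i = ∅` for `i < j`). Now put `V j = interior (closure (W' j))`.
* open: yes; regular: `interior (closure (interior (closure X))) = interior (closure X)`
  (`⊆`: `closure (interior (closure X)) ⊆ closure X`; `⊇`: `interior (closure X)` is open and
  contained in its closure).
* disjoint: if `V i ∩ V j ≠ ∅`, `i ≠ j`: this open set is contained in `closure (W' i)`, so it meets
  `W' i` in a nonempty open set contained in `V j ⊆ closure (W' j)`, which then meets `W' j`,
  contradicting the disjointness of `W' i` and `W' j`.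
* dense: `W' j ⊆ V j`.
* distance: let `x, y ∈ V i` with `N (x - y) = 1`, `w = y - x`. The open set
  `V i ∩ {z | z + w ∈ V i}` contains `x`. It is contained in `closure (W' i)`, so it contains
  a point of `W' i`; hence `G = W' i ∩ {z | z + w ∈ V i}` is open and nonempty; the open nonempty set
  `G + w` is contained in `V i ⊆ closure (W' i)`, so it meets `W' i`: there is `z ∈ W' i` with
  `z + w ∈ W' i`, and `N (z - (z + w)) = N w = 1`: contradiction since `W' i ⊆ W i = U i` (or empty).
-/

namespace NPl

open Set Metric Topology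

theorem reg_col {N : Seminorm ℝ Pl} {k : ℕ} (hk : k ≤ 4) (U : Fin k → Set Pl)
    (hU : ∀ i, IsOpen (U i)) (hav : ∀ i, ∀ x ∈ U i, ∀ y ∈ U i, N (x - y) ≠ 1)
    (hd : Dense (⋃ i, U i)) : ∃ V : Fin 4 → Set Pl, Col N V := by
  classical
  -- extend by empty sets
  set W : Fin 4 → Set Pl := fun j => if hj : j.1 < k then U ⟨j.1, hj⟩ else ∅ with hW
  have hWo : ∀ j, IsOpen (W j) := by
    intro j
    rw [hW]; simp only
    split_ifs
    · exact hU _
    · exact isOpen_empty
  have hWav : ∀ j, ∀ x ∈ W j, ∀ y ∈ W j, N (x - y) ≠ 1 := by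
    intro j x hx y hy
    rw [hW] at hx hy
    simp only at hx hy
    split_ifs at hx hy with hj
    · exact hav _ x hx y hy
    · exact absurd hx (notMem_empty x)
  have hWd : ∀ O : Set Pl, IsOpen O → O.Nonempty → ∃ j, (O ∩ W j).Nonempty := by
    intro O hO hne
    obtain ⟨x, hxO, hxU⟩ := hd.inter_open_nonempty O hO hne
    obtain ⟨i, hi⟩ := mem_iUnion.1 hxU
    refine ⟨⟨i.1, i.2.trans_le hk⟩, x, hxO, ?_⟩
    rw [hW]; simp only [i.2, dif_pos]
    exact hi
  -- make them disjoint
  set X : Fin 4 → Set Pl := fun j => W j ∩ ⋂ i ∈ {i : Fin 4 | i < j}, (closure (W i))ᶜ with hX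
  have hXo : ∀ j, IsOpen (X j) := fun j =>
    (hWo j).inter (Set.Finite.isOpen_biInter (Set.toFinite _)
      fun i _ => isClosed_closure.isOpen_compl)
  have hXW : ∀ j, X j ⊆ W j := fun j => inter_subset_left
  have hXdis' : ∀ i j, i < j → Disjoint (X i) (X j) := by
    intro i j hij
    rw [Set.disjoint_left]
    intro x hx hx'
    have h1 := mem_iInter₂.1 hx'.2 i hij
    exact h1 (subset_closure (hXW i hx))
  have hXdis : ∀ i j, i ≠ j → Disjoint (X i) (X j) := by
    intro i j hij
    rcases lt_or_gt_of_ne hij with h1 | h1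
    · exact hXdis' i j h1
    · exact (hXdis' j i h1).symm
  have hXd : ∀ O : Set Pl, IsOpen O → O.Nonempty → ∃ j, (O ∩ X j).Nonempty := by
    intro O hO hne
    obtain ⟨j₀, hj₀⟩ := hWd O hO hne
    set S : Finset (Fin 4) := Finset.univ.filter fun j => (O ∩ W j).Nonempty with hS
    have hSne : S.Nonempty := ⟨j₀, by rw [hS]; simp [hj₀]⟩
    set j := S.min' hSne with hj
    have hjS : (O ∩ W j).Nonempty := by
      have h1 : j ∈ S := S.min'_mem hSne
      exact (Finset.mem_filter.1 h1).2
    obtain ⟨x, hxO, hxW⟩ := hjS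
    refine ⟨j, x, hxO, hxW, ?_⟩
    rw [mem_iInter₂]
    intro i hi hxi
    obtain ⟨y, hyO, hyW⟩ := _root_.mem_closure_iff.1 hxi O hO hxO
    have hiS : i ∈ S := by
      rw [hS, Finset.mem_filter]
      exact ⟨Finset.mem_univ _, y, hyO, hyW⟩
    exact absurd (S.min'_le i hiS) (not_le.2 hi)
  refine ⟨fun j => interior (closure (X j)), ?_, ?_, ?_, ?_, ?_⟩
  · intro j
    exact isOpen_interior
  · intro j
    apply Set.Subset.antisymm
    · refine interior_mono ?_
      exact closure_minimal interior_subset isClosed_closure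
    · exact interior_maximal subset_closure isOpen_interior
  · intro i j hij
    rw [Set.disjoint_left]
    intro x hx hx'
    have hOo : IsOpen (interior (closure (X i)) ∩ interior (closure (X j))) :=
      isOpen_interior.inter isOpen_interior
    obtain ⟨y, hyO, hyX⟩ := _root_.mem_closure_iff.1 (interior_subset hx) _ hOo ⟨hx, hx'⟩
    obtain ⟨z, hzO, hzX⟩ := _root_.mem_closure_iff.1 (interior_subset hyO.2) _
      (hOo.inter (hXo i)) ⟨hyO, hyX⟩
    exact Set.disjoint_left.1 (hXdis i j hij) hzO.2 hzX
  · intro x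
    rw [_root_.mem_closure_iff]
    intro O hO hxO
    obtain ⟨j, y, hyO, hyX⟩ := hXd O hO ⟨x, hxO⟩
    exact ⟨y, hyO, mem_iUnion.2 ⟨j, interior_maximal subset_closure (hXo j) hyX⟩⟩
  · intro i x hx y hy hxy
    set w : Pl := y - x with hw
    have hxw : x + w = y := by rw [hw]; abel
    have hOo : IsOpen (interior (closure (X i)) ∩ {z | z + w ∈ interior (closure (X i))}) :=
      isOpen_interior.inter (isOpen_interior.preimage (by fun_prop))
    obtain ⟨z, hzO, hzX⟩ := _root_.mem_closure_iff.1 (interior_subset hx) _ hOo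
      ⟨hx, by
        change x + w ∈ interior (closure (X i))
        rw [hxw]; exact hy⟩
    -- a neighbourhood of `z + w`
    have hGo : IsOpen {z' : Pl | z' - w ∈ X i} := (hXo i).preimage (by fun_prop)
    obtain ⟨z', hz'G, hz'X⟩ := _root_.mem_closure_iff.1 (interior_subset hzO.2) _ hGo (by
      change z + w - w ∈ X i
      rw [add_sub_cancel_right]; exact hzX)
    refine hWav i (z' - w) (hXW i hz'G) z' (hXW i hz'X) ?_
    have h1 : z' - w - z' = -w := by abel
    rw [h1, map_neg_eq_map, hw, ← map_neg_eq_map N (y - x), neg_sub]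
    exact hxy

end NPl
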