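import Pool.Agent.Work.MP_6b4466_lc.NP.Fin4
import Pool.Agent.Work.MP_6b4466_lc.NP.RegU
import Pool.Agent.Work.MP_6b4466_lc.NP.BPN

/-! # Five colours for sets with the Baire property in strictly convex planes (S)

PROOF (`cont_of_plane`). `N x ≤ |x 0| N e₀ + |x 1| N e₁ ≤ C ‖x‖`, and `|N x - N y| ≤ N (x - y)`.

PROOF (`mainA`). If `k ≤ 4`: `bp_openN` gives open sets, `reg_col` regular ones (`Col N V` with
`V : Fin 4 → Set Pl`), and `no_four` a contradiction.
-/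

namespace NPl

open Set Metric Topology

theorem bound_of_plane (N : Seminorm ℝ Pl) : ∃ C : ℝ, 0 ≤ C ∧ ∀ x, N x ≤ C * ‖x‖ := by
  set e := fun i : Fin 2 => (EuclideanSpace.single i (1 : ℝ) : Pl) with he
  refine ⟨N (e 0) + N (e 1), add_nonneg (apply_nonneg N _) (apply_nonneg N _), fun x => ?_⟩
  have hx : x = x 0 • e 0 + x 1 • e 1 := by
    ext i
    fin_cases i <;> simp [he]
  have h0 : |x 0| ≤ ‖x‖ := by
    have := PiLp.norm_apply_le x 0
    rwa [Real.norm_eq_abs] at this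
  have h1 : |x 1| ≤ ‖x‖ := by
    have := PiLp.norm_apply_le x 1
    rwa [Real.norm_eq_abs] at this
  calc N x = N (x 0 • e 0 + x 1 • e 1) := by rw [← hx]
    _ ≤ N (x 0 • e 0) + N (x 1 • e 1) := map_add_le_add N _ _
    _ = |x 0| * N (e 0) + |x 1| * N (e 1) := by
        rw [map_smul_eq_mul, map_smul_eq_mul, Real.norm_eq_abs, Real.norm_eq_abs]
    _ ≤ ‖x‖ * N (e 0) + ‖x‖ * N (e 1) :=
        add_le_add (mul_le_mul_of_nonneg_right h0 (apply_nonneg N _))
          (mul_le_mul_of_nonneg_right h1 (apply_nonneg N _))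
    _ = (N (e 0) + N (e 1)) * ‖x‖ := by ring

theorem cont_of_plane (N : Seminorm ℝ Pl) : Continuous N := by
  obtain ⟨C, hC, h⟩ := bound_of_plane N
  refine (LipschitzWith.of_dist_le_mul (K := Real.toNNReal C) fun x y => ?_).continuous
  rw [Real.dist_eq, dist_eq_norm, Real.coe_toNNReal C hC]
  exact (abs_sub_map_le_sub N x y).trans (h (x - y))

theorem mainA (N : Seminorm ℝ Pl) (hd : ∀ x, N x = 0 → x = 0) (hs : SC N) (D : Set Pl)
    (hD : {x : Pl | N x = 1} ⊆ closure D) {k : ℕ} (A : Fin k → Set Pl)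
    (hA : ∀ i, BaireMeasurableSet (A i)) (hcov : ∀ᶠ x in residual Pl, ∃ i, x ∈ A i)
    (hfree : ∀ i, ∀ x ∈ A i, ∀ y ∈ A i, y - x ∉ D) : 5 ≤ k := by
  by_contra hcon
  obtain ⟨U, hU, hav, hden⟩ := bp_openN N D hD A hA hcov hfree
  obtain ⟨V, hV⟩ := reg_col (by omega : k ≤ 4) U hU hav hden
  exact no_four ⟨cont_of_plane N, hd, hs⟩ hV

end NPl
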