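import Pool.Agent.Work.MP_6b4466_lc.NP.HexC

/-! # Three colours never suffice (S-M)

PROOF. Let `c` be a proper colouring of `UG N` with `Fin 3`. If `(a, v) ∈ TriSet N` then `0, a, v`
are pairwise adjacent and `a, v, a + v` are pairwise adjacent (`N (a + v - a) = N v = 1`,
`N (a + v - v) = N a = 1`), so `c 0` and `c (a + v)` are both the colour different from `c a ≠ c v`:
`c (a + v) = c 0`.
Take a unit vector `a₀` (`(N e)⁻¹ • e`) and `v₀` from `hex`; `(a₀, v₀)` and `(-a₀, -v₀)` are in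
`TriSet N` (`om (-a₀) (-v₀) = om a₀ v₀ > 0`). The continuous function
`g (a, v) = N ((a₀ + v₀) - (a + v))` on the preconnected set `TriSet N` takes the value `0` at
`(a₀, v₀)` and at `(-a₀, -v₀)` the value `2 N (a₀ + v₀) ≥ 2`, because
`N (a₀ + v₀) ≥ N (2 a₀) - N (a₀ - v₀) = 2 - 1 = 1`. So it takes the value `1` at some
`(a, v) ∈ TriSet N` (`IsPreconnected.intermediate_value`). Then `a₀ + v₀` and `a + v` are adjacent,
but both have the colour `c 0`: contradiction.
-/

namespace NPl

open Set Metric Topology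

private theorem fin3 {x y z w : Fin 3} (h1 : x ≠ y) (h2 : x ≠ z) (h3 : y ≠ z) (h4 : w ≠ y)
    (h5 : w ≠ z) : w = x := by
  omega

theorem not_three {N : Seminorm ℝ Pl} (h : Nrm N) : ¬ (UG N).Colorable 3 := by
  rintro ⟨c⟩
  have hval : ∀ x y : Pl, N (x - y) = 1 → c x ≠ c y := fun x y hxy => c.valid hxy
  have key : ∀ p ∈ TriSet N, c (p.1 + p.2) = c 0 := by
    rintro ⟨a, v⟩ ⟨h1, h2, h3, -⟩
    have h1' : N a = 1 := h1
    have h2' : N v = 1 := h2
    have h3' : N (v - a) = 1 := h3
    refine fin3 (hval 0 a ?_) (hval 0 v ?_) (hval v a h3').symm (hval (a + v) a ?_)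
      (hval (a + v) v ?_)
    · rw [zero_sub, map_neg_eq_map, h1']
    · rw [zero_sub, map_neg_eq_map, h2']
    · rw [add_sub_cancel_left, h2']
    · rw [add_sub_cancel_right, h1']
  obtain ⟨e, he⟩ : ∃ e : Pl, e ≠ 0 := ⟨EuclideanSpace.single 0 1, by
    intro h0
    have := congrArg (fun x : Pl => ‖x‖) h0
    simp at this⟩
  have ha := normalize_one h he
  obtain ⟨a, haa⟩ : ∃ a : Pl, a = (N e)⁻¹ • e := ⟨_, rfl⟩
  rw [← haa] at ha
  obtain ⟨v, hv, hva, hom⟩ := hex h ha
  have hm1 : (a, v) ∈ TriSet N := ⟨ha, hv, hva, hom.le⟩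
  have hm2 : (-a, -v) ∈ TriSet N := by
    refine ⟨?_, ?_, ?_, ?_⟩
    · show N (-a) = 1
      rw [map_neg_eq_map, ha]
    · show N (-v) = 1
      rw [map_neg_eq_map, hv]
    · show N (-v - -a) = 1
      rw [← neg_sub', map_neg_eq_map, hva]
    · show 0 ≤ om (-a) (-v)
      rw [om_neg_left, om_neg_right, neg_neg]
      exact hom.le
  have hgc : ContinuousOn (fun p : Pl × Pl => N ((a + v) - (p.1 + p.2))) (TriSet N) :=
    (h.cont.comp (continuous_const.sub (continuous_fst.add continuous_snd))).continuousOn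
  have hiv := (triSet_preconnected h).intermediate_value hm1 hm2 hgc
  have hbig : 1 ≤ N (a + v) := by
    have e1 : (2 : ℝ) • a = (a + v) + (a - v) := by module
    have e2 : N ((2 : ℝ) • a) ≤ N (a + v) + N (a - v) := by
      rw [e1]
      exact map_add_le_add N _ _
    rw [map_smul_eq_mul, ha, ← neg_sub, map_neg_eq_map, hva] at e2
    norm_num at e2
    linarith
  have hmem : (1 : ℝ) ∈ Icc (N ((a + v) - (a + v))) (N ((a + v) - (-a + -v))) := by
    constructor
    · rw [sub_self, map_zero]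
      exact zero_le_one
    · have e1 : (a + v) - (-a + -v) = (2 : ℝ) • (a + v) := by module
      rw [e1, map_smul_eq_mul]
      norm_num
      linarith
  obtain ⟨p, hp, hp1⟩ := hiv hmem
  have hp1' : N ((a + v) - (p.1 + p.2)) = 1 := hp1
  exact hval _ _ hp1' ((key (a, v) hm1).trans (key p hp).symm)

end NPl
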