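import Pool.Agent.Work.MP_6b4466_lc.NP.Typ
import Pool.Agent.Work.MP_6b4466_lc.NP.Four
import Pool.Agent.Work.MP_6b4466_lc.NP.Three
import Pool.Agent.Work.MP_6b4466_lc.NP.MainA

/-! # The chromatic number of typical planar norms is four (S-M)

PROOF (`mainB`). `G` from `typical`. For `N ∈ G`: `Nrm N` (`cont_of_plane`; definite because
`a ‖x‖ ≤ N x`), `four_of_star` and `not_three` give chromatic number `4`
(`SimpleGraph.Colorable.chromaticNumber_le`, and `4 ≤ χ`: if `χ ≤ 3` then colourable with `3`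
colours, `SimpleGraph.chromaticNumber_le_iff_colorable`).

PROOF (`mainC`). Let `N₀` be a norm, `ε > 0`. There are `0 < a < b` with
`a ‖x‖ ≤ N₀ x ≤ b ‖x‖` (compactness of the Euclidean unit sphere and continuity; enlarge `b` to
have `a < b`). Apply `mainB` to `NormSp a b` and the density of `G` at `N₀`; use `dist_eval`.
-/

namespace NPl

open Set Metric Topology

theorem mainB {a b : ℝ} (ha : 0 < a) (hab : a < b) :
    ∃ G : Set (NormSp a b), IsGδ G ∧ Dense G ∧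
      ∀ N ∈ G, SC N.1 ∧ (UG N.1).chromaticNumber = 4 := by
  obtain ⟨G, h1, h2, h3⟩ := typical ha hab
  refine ⟨G, h1, h2, fun N hN => ?_⟩
  obtain ⟨hsc, hst⟩ := h3 N hN
  have hdef : ∀ x, N.1 x = 0 → x = 0 := by
    intro x hx
    have h4 := (N.2 x).1
    rw [hx] at h4
    have h5 : ‖x‖ ≤ 0 := by
      by_contra hcon
      push Not at hcon
      have := mul_pos ha hcon
      linarith
    exact norm_le_zero_iff.1 h5
  have hnrm : Nrm N.1 := ⟨N.continuous, hdef, hsc⟩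
  refine ⟨hsc, le_antisymm ?_ ?_⟩
  · exact (four_of_star hst).chromaticNumber_le
  · have h4 : ((3 : ℕ) : ℕ∞) < (UG N.1).chromaticNumber := not_le.1 fun h5 =>
      not_three hnrm (SimpleGraph.chromaticNumber_le_iff_colorable.1 h5)
    refine le_trans (le_of_eq ?_) (ENat.natCast_add_one_le_iff.2 h4)
    norm_num

theorem mainC (N₀ : Seminorm ℝ Pl) (hd : ∀ x, N₀ x = 0 → x = 0) {ε : ℝ} (hε : 0 < ε) :
    ∃ N : Seminorm ℝ Pl, (∀ x, N x = 0 → x = 0) ∧ (∀ x, |N x - N₀ x| ≤ ε * ‖x‖) ∧ SC N ∧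
      (UG N).chromaticNumber = 4 := by
  obtain ⟨C, hC, hCb⟩ := bound_of_plane N₀
  have hne : (sphere (0 : Pl) 1).Nonempty := ⟨EuclideanSpace.single 0 1, by simp⟩
  obtain ⟨x0, hx0, hmin⟩ := (isCompact_sphere (0 : Pl) 1).exists_isMinOn hne
    (cont_of_plane N₀).continuousOn
  have hx0' : x0 ≠ 0 := by
    rintro rfl
    rw [mem_sphere_zero_iff_norm, norm_zero] at hx0
    exact zero_ne_one hx0
  have hc : 0 < N₀ x0 := lt_of_le_of_ne (apply_nonneg N₀ _) fun h => hx0' (hd _ h.symm)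
  have hlow : ∀ x : Pl, N₀ x0 * ‖x‖ ≤ N₀ x := by
    intro x
    rcases eq_or_ne x 0 with rfl | hx
    · simp
    · have hx' : 0 < ‖x‖ := norm_pos_iff.2 hx
      have h1 : N₀ x0 ≤ N₀ (‖x‖⁻¹ • x) := hmin (by
        rw [mem_sphere_zero_iff_norm, norm_smul, norm_inv, norm_norm, inv_mul_cancel₀ hx'.ne'])
      rw [map_smul_eq_mul, norm_inv, norm_norm] at h1
      calc N₀ x0 * ‖x‖ ≤ (‖x‖⁻¹ * N₀ x) * ‖x‖ := mul_le_mul_of_nonneg_right h1 hx'.le
        _ = N₀ x := by field_simp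
  obtain ⟨b, hb1, hb2⟩ : ∃ b : ℝ, N₀ x0 < b ∧ C ≤ b :=
    ⟨max (N₀ x0) C + 1, by linarith [le_max_left (N₀ x0) C], by linarith [le_max_right (N₀ x0) C]⟩
  obtain ⟨G, -, h2, h3⟩ := mainB hc hb1
  obtain ⟨M₀, hM₀⟩ : ∃ M : NormSp (N₀ x0) b, M.1 = N₀ :=
    ⟨⟨N₀, fun x => ⟨hlow x, (hCb x).trans (mul_le_mul_of_nonneg_right hb2 (norm_nonneg x))⟩⟩, rfl⟩
  obtain ⟨N, hN, hdist⟩ := h2.exists_dist_lt M₀ hε
  refine ⟨N.1, fun x hx => ?_, fun x => ?_, (h3 N hN).1, (h3 N hN).2⟩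
  · have h4 := (N.2 x).1
    rw [hx] at h4
    have h5 : ‖x‖ ≤ 0 := by
      by_contra hcon
      push Not at hcon
      have := mul_pos hc hcon
      linarith
    exact norm_le_zero_iff.1 h5
  · have h4 := dist_eval M₀ N x
    rw [hM₀] at h4
    rw [abs_sub_comm]
    exact h4.trans (mul_le_mul_of_nonneg_right hdist.le (norm_nonneg x))

end NPl
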