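import Pool.Agent.Work.MP_6b4466_lc.NP.Om

/-! # First properties of open colourings (S-M)

PROOF (`cl_av`). Suppose `y ∈ U i`. The set `{z | y + (z - x) ∈ U i}` is open and contains `x`, so,
as `x ∈ closure (U i)`, it contains some `x' ∈ U i`. Then `x'` and `y' = y + (x' - x)` are points
of `U i` with `N (x' - y') = N (x - y) = 1`, contradicting `av`.

PROOF (`two_cl`). `closure (⋃ i, U i) = ⋃ i, closure (U i)` (finite union) is everything, so
`x ∈ closure (U i)` for some `i`; as `x ∈ O` open, `O` meets `U i`, so `i ∈ T`. Suppose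
`x ∉ closure (U j)` for all `j ∈ T`, `j ≠ i`. Then also `x ∉ closure (U j)` for all `j ≠ i`
(for `j ∉ T` because `O ∩ U j = ∅`). So `W = ⋂ j ≠ i, (closure (U j))ᶜ` is an open neighbourhood
of `x` contained in `closure (U i)` (every point is in some closure), hence
`x ∈ interior (closure (U i)) = U i`, a contradiction. So some `j ∈ T`, `j ≠ i` has
`x ∈ closure (U j)`.

`two_cl'` is the case `O = univ`, `T = univ`.
-/

namespace NPl

open Set Metric Topology

theorem cl_av {N : Seminorm ℝ Pl} {k : ℕ} {U : Fin k → Set Pl} (hU : Col N U) {i : Fin k}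
    {x y : Pl} (hx : x ∈ closure (U i)) (hxy : N (x - y) = 1) : y ∉ U i := by
  intro hy
  have ho : IsOpen {z : Pl | y + (z - x) ∈ U i} :=
    (hU.op i).preimage (by fun_prop)
  obtain ⟨x', hx'1, hx'2⟩ := mem_closure_iff.1 hx _ ho (by
    change y + (x - x) ∈ U i
    rw [sub_self, add_zero]
    exact hy)
  refine hU.av i x' hx'2 _ hx'1 ?_
  have : x' - (y + (x' - x)) = x - y := by abel
  rw [this, hxy]

theorem two_cl {N : Seminorm ℝ Pl} {k : ℕ} {U : Fin k → Set Pl} (hU : Col N U) (T : Set (Fin k))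
    {O : Set Pl} (hO : IsOpen O) (hT : ∀ m, m ∉ T → Disjoint O (U m)) {x : Pl} (hx : x ∈ O)
    (hxU : ∀ i, x ∉ U i) :
    ∃ i ∈ T, ∃ j ∈ T, i ≠ j ∧ x ∈ closure (U i) ∧ x ∈ closure (U j) := by
  have hcov : ∀ y : Pl, ∃ i, y ∈ closure (U i) := by
    intro y
    have h1 : y ∈ closure (⋃ i, U i) := hU.den y
    rw [closure_iUnion_of_finite] at h1
    exact mem_iUnion.1 h1
  have hmT : ∀ m, x ∈ closure (U m) → m ∈ T := by
    intro m hm
    by_contra hcon
    obtain ⟨z, hz1, hz2⟩ := mem_closure_iff.1 hm O hO hx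
    exact (Set.disjoint_left.1 (hT m hcon)) hz1 hz2
  obtain ⟨i, hi⟩ := hcov x
  by_contra hcon
  push Not at hcon
  have hnot : ∀ j, j ≠ i → x ∉ closure (U j) := by
    intro j hj hxj
    exact hcon i (hmT i hi) j (hmT j hxj) (Ne.symm hj) hi hxj
  have hW : IsOpen (⋂ j ∈ {j : Fin k | j ≠ i}, (closure (U j))ᶜ) := by
    refine Set.Finite.isOpen_biInter (Set.toFinite _) fun j _ => isClosed_closure.isOpen_compl
  have hxW : x ∈ ⋂ j ∈ {j : Fin k | j ≠ i}, (closure (U j))ᶜ := by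
    rw [mem_iInter₂]
    intro j hj
    exact hnot j hj
  have hWsub : (⋂ j ∈ {j : Fin k | j ≠ i}, (closure (U j))ᶜ) ⊆ closure (U i) := by
    intro y hy
    rw [mem_iInter₂] at hy
    obtain ⟨j, hj⟩ := hcov y
    by_cases hji : j = i
    · rw [hji] at hj
      exact hj
    · exact absurd hj (hy j hji)
  have h1 : x ∈ interior (closure (U i)) := mem_interior.2 ⟨_, hWsub, hW, hxW⟩
  rw [hU.reg i] at h1
  exact hxU i h1

theorem two_cl' {N : Seminorm ℝ Pl} {k : ℕ} {U : Fin k → Set Pl} (hU : Col N U) {x : Pl}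
    (hxU : ∀ i, x ∉ U i) : ∃ i j, i ≠ j ∧ x ∈ closure (U i) ∧ x ∈ closure (U j) := by
  obtain ⟨i, -, j, -, h⟩ := two_cl hU univ isOpen_univ (fun m hm => absurd (mem_univ m) hm)
    (mem_univ x) hxU
  exact ⟨i, j, h⟩

end NPl
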