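import Pool.Agent.Work.MP_6b4466_lc.NP.Defs

/-! # The determinant of the plane: algebra (complete) -/

namespace NPl

open Set Metric Topology

theorem om_add_left (u v w : Pl) : om (u + v) w = om u w + om v w := by
  simp only [om, PiLp.add_apply]; ring

theorem om_add_right (u v w : Pl) : om u (v + w) = om u v + om u w := by
  simp only [om, PiLp.add_apply]; ring

theorem om_smul_left (t : ℝ) (u v : Pl) : om (t • u) v = t * om u v := by
  simp only [om, PiLp.smul_apply, smul_eq_mul]; ring

theorem om_smul_right (t : ℝ) (u v : Pl) : om u (t • v) = t * om u v := by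
  simp only [om, PiLp.smul_apply, smul_eq_mul]; ring

theorem om_neg_left (u v : Pl) : om (-u) v = -om u v := by
  simp only [om, PiLp.neg_apply]; ring

theorem om_neg_right (u v : Pl) : om u (-v) = -om u v := by
  simp only [om, PiLp.neg_apply]; ring

theorem om_sub_left (u v w : Pl) : om (u - v) w = om u w - om v w := by
  simp only [om, PiLp.sub_apply]; ring

theorem om_sub_right (u v w : Pl) : om u (v - w) = om u v - om u w := by
  simp only [om, PiLp.sub_apply]; ring

theorem om_self (u : Pl) : om u u = 0 := by
  simp only [om]; ring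

theorem om_swap (u v : Pl) : om u v = -om v u := by
  simp only [om]; ring

theorem om_zero_left (u : Pl) : om 0 u = 0 := by
  simp [om]

theorem om_zero_right (u : Pl) : om u 0 = 0 := by
  simp [om]

theorem om_cont : Continuous fun p : Pl × Pl => om p.1 p.2 := by
  unfold om
  fun_prop

theorem om_cont_right (u : Pl) : Continuous fun v : Pl => om u v :=
  om_cont.comp (Continuous.prodMk continuous_const continuous_id)

theorem om_cont_left (v : Pl) : Continuous fun u : Pl => om u v :=
  om_cont.comp (Continuous.prodMk continuous_id continuous_const)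

theorem om_coord {u v : Pl} (h : om u v ≠ 0) (w : Pl) :
    w = (om w v / om u v) • u + (om u w / om u v) • v := by
  ext i
  simp only [PiLp.add_apply, PiLp.smul_apply, smul_eq_mul]
  field_simp
  fin_cases i <;> simp [om] <;> ring

theorem ne_zero_of_unit {N : Seminorm ℝ Pl} {u : Pl} (hu : N u = 1) : u ≠ 0 := by
  rintro rfl
  rw [map_zero] at hu
  exact zero_ne_one hu

theorem om_eq_zero {u v : Pl} (hu : u ≠ 0) (h : om u v = 0) : ∃ t : ℝ, v = t • u := by
  have hu' : u 0 ≠ 0 ∨ u 1 ≠ 0 := by
    by_contra hcon
    push Not at hcon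
    apply hu
    ext i
    fin_cases i
    · exact hcon.1
    · exact hcon.2
  unfold om at h
  rcases hu' with h0 | h0
  · refine ⟨v 0 / u 0, ?_⟩
    ext i
    simp only [PiLp.smul_apply, smul_eq_mul]
    fin_cases i
    · simp; field_simp
    · simp; field_simp; linarith
  · refine ⟨v 1 / u 1, ?_⟩
    ext i
    simp only [PiLp.smul_apply, smul_eq_mul]
    fin_cases i
    · simp; field_simp; linarith
    · simp; field_simp

theorem om_unit {N : Seminorm ℝ Pl} {u v : Pl} (hu : N u = 1) (hv : N v = 1)
    (h : om u v = 0) : v = u ∨ v = -u := by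
  obtain ⟨t, rfl⟩ := om_eq_zero (ne_zero_of_unit hu) h
  rw [map_smul_eq_mul, hu, mul_one, Real.norm_eq_abs] at hv
  rcases (abs_eq zero_le_one).1 hv with rfl | rfl
  · left; simp
  · right; simp

theorem om_exists {u : Pl} (hu : u ≠ 0) : ∃ e : Pl, 0 < om u e := by
  refine ⟨!₂[-u 1, u 0], ?_⟩
  have h0 : 0 < u 0 ^ 2 + u 1 ^ 2 := by
    by_contra hcon
    apply hu
    have h1 : u 0 ^ 2 = 0 := by nlinarith [sq_nonneg (u 0), sq_nonneg (u 1)]
    have h2 : u 1 ^ 2 = 0 := by nlinarith [sq_nonneg (u 0), sq_nonneg (u 1)]
    ext i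
    fin_cases i
    · simpa using h1
    · simpa using h2
  simp [om]
  nlinarith [h0]

end NPl
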