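import Pool.Agent.Work.MP_6b4466_lc.NP.Tri

/-! # Position of the points of the unit circle with respect to a translated unit circle (M)

Let `a`, `b` be unit vectors of a strictly convex norm with `om a b ≠ 0` (so `b ≠ ± a`), and let
`s = α a + β b` be a unit vector with `α > 0`. Then `N (a + b - s) < 1` if `β > 0` and
`N (a + b - s) > 1` if `β < 0`.

PROOF (`sign_pos`). `α, β > 0`, `N s = 1`.
* Case `α ≤ 1` and `β ≤ 1`: `a + b - s = (1 - α) a + (1 - β) b`, so
  `N (a + b - s) ≤ (1 - α) + (1 - β) = 2 - (α + β)`, and `1 = N s < α + β` by `strict_tri`.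
* Case `α ≥ β` and `α > 1`: `a = (s - β b) / α`, so
  `a + b - s = -(1 - 1/α) s + (1 - β/α) b`
  (check: `-(1 - 1/α) (α a + β b) + (1 - β/α) b = -(α - 1) a - β b + (β/α) b + b - (β/α) b
   = (1 - α) a + (1 - β) b`).
  Hence `N (a + b - s) ≤ (1 - 1/α) + (1 - β/α) = 2 - (1 + β)/α`. Moreover
  `α a = s + β (-b)` with `s ≠ -b` (otherwise `α a = -(1 + β) b`, contradicting `om a b ≠ 0`),
  so `α = N (α a) = N (1 • s + β • (-b)) < 1 + β` by `strict_tri`; thus `(1 + β)/α > 1` and
  `N (a + b - s) < 1`.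
* Case `β ≥ α` and `β > 1`: the same with `a` and `b` exchanged (apply the previous case to
  `b, a, β, α`, or repeat it).

PROOF (`sign_neg`). `α > 0`, `β < 0`; write `γ = -β > 0`, so `s = α a - γ b` and
`w = a + b - s = (1 - α) a + (1 + γ) b`.
* Case `α ≤ 1`: reverse triangle inequality: `N w ≥ (1 + γ) N b - (1 - α) N a = γ + α`, and
  `1 = N s = N (α • a + γ • (-b)) < α + γ` by `strict_tri` (`a ≠ -b` as `om a b ≠ 0`).
* Case `α > 1`: `w = -(1 - 1/α) s + (1 + γ/α) b`
  (check: `-(1 - 1/α)(α a - γ b) + (1 + γ/α) b = -(α - 1) a + γ b - (γ/α) b + b + (γ/α) b`).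
  So `N w ≥ (1 + γ/α) - (1 - 1/α) = (1 + γ)/α`. And `α a = s + γ b` with `s ≠ b` (otherwise
  `α a = (1 + γ) b`), so `α = N (1 • s + γ • b) < 1 + γ` by `strict_tri`. Hence `N w > 1`.
-/

namespace NPl

open Set Metric Topology

theorem map_sub_le_sub_aux (N : Seminorm ℝ Pl) (x y : Pl) : N x - N y ≤ N (x - y) := by
  have := map_add_le_add N (x - y) y
  rw [sub_add_cancel] at this
  linarith

/-- `s`, `-b` and `b` are different when `s` has a nonzero coordinate along `a`. -/
theorem coord_ne {a b s : Pl} (hab : om a b ≠ 0) {α β γ : ℝ} (hs : s = α • a + β • b)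
    (hα : 0 < α) : s ≠ γ • b := by
  intro h
  have h1 : om s b = α * om a b := by
    rw [hs, om_add_left, om_smul_left, om_smul_left, om_self, mul_zero, add_zero]
  rw [h, om_smul_left, om_self, mul_zero] at h1
  exact (mul_ne_zero hα.ne' hab) h1.symm

theorem sign_pos_aux {N : Seminorm ℝ Pl} (h : SC N) {a b s : Pl} (ha : N a = 1) (hb : N b = 1)
    (hab : om a b ≠ 0) {α β : ℝ} (hs : s = α • a + β • b) (hs1 : N s = 1) (hα : 0 < α)
    (hβ : 0 < β) (hαβ : β ≤ α) (hα1 : 1 < α) : N (a + b - s) < 1 := by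
  have hα0 : α ≠ 0 := hα.ne'
  have h1 : a + b - s = (-(1 - 1 / α)) • s + (1 - β / α) • b := by
    have : (1 - 1 / α) * α = α - 1 := by field_simp
    have h2 : (1 - 1 / α) * β = β - β / α := by field_simp
    rw [hs, smul_add, smul_smul, smul_smul, neg_mul, neg_mul, this, h2]
    module
  have hnb : N (-b) = 1 := by rw [map_neg_eq_map, hb]
  have hsb : s ≠ -b := by
    have := coord_ne (γ := -1) hab hs hα
    rwa [neg_one_smul] at this
  have h3 : α < 1 + β := by
    have h4 := strict_tri h hs1 hnb hsb one_pos hβ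
    have h5 : (1 : ℝ) • s + β • -b = α • a := by
      rw [hs]; module
    rw [h5, map_smul_eq_mul, Real.norm_eq_abs, abs_of_pos hα, ha, mul_one] at h4
    exact h4
  have h6 : 0 ≤ 1 - β / α := by
    rw [sub_nonneg, div_le_one hα]; exact hαβ
  have h7 : 0 ≤ 1 - 1 / α := by
    rw [sub_nonneg, div_le_one hα]; exact hα1.le
  rw [h1]
  refine (map_add_le_add N _ _).trans_lt ?_
  rw [map_smul_eq_mul, map_smul_eq_mul, Real.norm_eq_abs, Real.norm_eq_abs, abs_neg,
    abs_of_nonneg h7, abs_of_nonneg h6, hs1, hb, mul_one, mul_one]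
  have h8 : 1 < (1 + β) / α := by
    rw [lt_div_iff₀ hα]; linarith
  have h9 : (1 + β) / α = 1 / α + β / α := by ring
  linarith

theorem sign_pos {N : Seminorm ℝ Pl} (h : SC N) {a b s : Pl} (ha : N a = 1) (hb : N b = 1)
    (hab : om a b ≠ 0) {α β : ℝ} (hs : s = α • a + β • b) (hs1 : N s = 1) (hα : 0 < α)
    (hβ : 0 < β) : N (a + b - s) < 1 := by
  have hne : a ≠ b := by
    rintro rfl
    exact hab (om_self _)
  by_cases hc : α ≤ 1 ∧ β ≤ 1
  · have h1 : a + b - s = (1 - α) • a + (1 - β) • b := by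
      rw [hs]; module
    have h2 := strict_tri h ha hb hne hα hβ
    rw [← hs, hs1] at h2
    rw [h1]
    refine (map_add_le_add N _ _).trans_lt ?_
    rw [map_smul_eq_mul, map_smul_eq_mul, Real.norm_eq_abs, Real.norm_eq_abs,
      abs_of_nonneg (sub_nonneg.2 hc.1), abs_of_nonneg (sub_nonneg.2 hc.2), ha, hb]
    linarith
  · rcases le_total β α with hαβ | hαβ
    · have hα1 : 1 < α := by
        by_contra hcon
        exact hc ⟨not_lt.1 hcon, hαβ.trans (not_lt.1 hcon)⟩
      exact sign_pos_aux h ha hb hab hs hs1 hα hβ hαβ hα1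
    · have hβ1 : 1 < β := by
        by_contra hcon
        exact hc ⟨hαβ.trans (not_lt.1 hcon), not_lt.1 hcon⟩
      rw [add_comm a b]
      refine sign_pos_aux h hb ha ?_ (by rw [hs, add_comm]) hs1 hβ hα hαβ hβ1
      rw [om_swap]
      exact neg_ne_zero.2 hab

theorem sign_neg {N : Seminorm ℝ Pl} (h : SC N) {a b s : Pl} (ha : N a = 1) (hb : N b = 1)
    (hab : om a b ≠ 0) {α β : ℝ} (hs : s = α • a + β • b) (hs1 : N s = 1) (hα : 0 < α)
    (hβ : β < 0) : 1 < N (a + b - s) := by
  obtain ⟨γ, rfl⟩ : ∃ γ, β = -γ := ⟨-β, by ring⟩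
  have hγ : 0 < γ := by linarith
  have hα0 : α ≠ 0 := hα.ne'
  have hnb : N (-b) = 1 := by rw [map_neg_eq_map, hb]
  rcases le_or_gt α 1 with hα1 | hα1
  · have hane : a ≠ -b := by
      rintro rfl
      exact hab (by rw [om_neg_left, om_self, neg_zero])
    have h1 : a + b - s = (1 + γ) • b - (-(1 - α)) • a := by
      rw [hs]; module
    have h2 := strict_tri h ha hnb hane hα hγ
    have h3 : α • a + γ • -b = s := by rw [hs]; module
    rw [h3, hs1] at h2
    have h4 := map_sub_le_sub_aux N ((1 + γ) • b) ((-(1 - α)) • a)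
    rw [map_smul_eq_mul, map_smul_eq_mul, Real.norm_eq_abs, Real.norm_eq_abs, abs_neg,
      abs_of_nonneg (sub_nonneg.2 hα1), abs_of_pos (by linarith : (0 : ℝ) < 1 + γ), ha, hb] at h4
    rw [h1]
    linarith
  · have h1 : a + b - s = (1 + γ / α) • b - (1 - 1 / α) • s := by
      have h5 : (1 - 1 / α) * α = α - 1 := by field_simp
      have h2 : (1 - 1 / α) * (-γ) = -γ + γ / α := by field_simp; ring
      rw [hs, smul_add, smul_smul, smul_smul, h5, h2]
      module
    have hsb : s ≠ b := by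
      have := coord_ne (γ := 1) hab hs hα
      rwa [one_smul] at this
    have h3 : α < 1 + γ := by
      have h4 := strict_tri h hs1 hb hsb one_pos hγ
      have h5 : (1 : ℝ) • s + γ • b = α • a := by
        rw [hs]; module
      rw [h5, map_smul_eq_mul, Real.norm_eq_abs, abs_of_pos hα, ha, mul_one] at h4
      exact h4
    have h6 : 0 < 1 + γ / α := by positivity
    have h7 : 0 ≤ 1 - 1 / α := by
      rw [sub_nonneg, div_le_one hα]; exact hα1.le
    have h4 := map_sub_le_sub_aux N ((1 + γ / α) • b) ((1 - 1 / α) • s)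
    rw [map_smul_eq_mul, map_smul_eq_mul, Real.norm_eq_abs, Real.norm_eq_abs,
      abs_of_nonneg h7, abs_of_pos h6, hs1, hb] at h4
    rw [h1]
    have h8 : 1 < (1 + γ) / α := by
      rw [lt_div_iff₀ hα]; linarith
    have h9 : (1 + γ) / α = 1 / α + γ / α := by ring
    linarith

end NPl
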