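import Pool.Agent.Work.MP_6b4466_lc.NP.Sign

/-! # Sums of unit vectors cover a neighbourhood (M)

If `a`, `b` are unit vectors with `om a b ≠ 0`, `A ∋ a` and `B ∋ b` are open, then all `z` close
to `a + b` are sums `a' + b'` of unit vectors `a' ∈ A`, `b' ∈ B`.

PROOF. For `τ ∈ (-1, 1)` let `s τ = (N (a + τ b))⁻¹ • (a + τ • b)`; here
`N (a + τ b) ≥ 1 - |τ| > 0`, so `s` is continuous on `(-1, 1)`, `N (s τ) = 1`, `s 0 = a`, and
`s τ = α • a + β • b` with `α = (N (a + τ b))⁻¹ > 0` and `β = τ α` of the sign of `τ`. By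
`sign_pos`, `sign_neg`: `N (a + b - s τ) < 1` for `τ ∈ (0, 1)` and `> 1` for `τ ∈ (-1, 0)`.
The map `(z, τ) ↦ z - s τ` is continuous at `(a + b, 0)` with value `b`, and `s` is continuous at
`0` with value `a`; so there are `ε₁ > 0` and `0 < ρ < 1` with: if `‖z - (a + b)‖ < ε₁` and
`|τ| ≤ ρ` then `s τ ∈ A` and `z - s τ ∈ B`. By continuity of `z ↦ N (z - s ρ)` and
`z ↦ N (z - s (-ρ))` at `a + b` there is `0 < ε ≤ ε₁` with `N (z - s ρ) < 1 < N (z - s (-ρ))` for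
`‖z - (a + b)‖ < ε`. For such `z` the continuous function `τ ↦ N (z - s τ)` on `[-ρ, ρ]` takes the
value `1` (intermediate value theorem) at some `τ`; take `a' = s τ`, `b' = z - s τ`.
-/

namespace NPl

open Set Metric Topology

theorem sum_unit {N : Seminorm ℝ Pl} (h : Nrm N) {a b : Pl} (ha : N a = 1) (hb : N b = 1)
    (hab : om a b ≠ 0) {A B : Set Pl} (hA : IsOpen A) (hB : IsOpen B) (haA : a ∈ A)
    (hbB : b ∈ B) :
    ∃ ε > 0, ∀ z : Pl, ‖z - (a + b)‖ < ε →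
      ∃ a' ∈ A, ∃ b' ∈ B, N a' = 1 ∧ N b' = 1 ∧ a' + b' = z := by
  -- the path on the unit circle through `a`
  set g : ℝ → Pl := fun τ => a + τ • b with hg
  have hgc : Continuous g := by
    rw [hg]; fun_prop
  have hNpos : ∀ τ ∈ Ioo (-1 : ℝ) 1, 0 < N (g τ) := by
    intro τ hτ
    have h1 : N a - N (-(τ • b)) ≤ N (a - -(τ • b)) := map_sub_le_sub_aux N _ _
    rw [sub_neg_eq_add, map_neg_eq_map, map_smul_eq_mul, hb, mul_one, ha, Real.norm_eq_abs] at h1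
    have h2 : |τ| < 1 := abs_lt.2 hτ
    have h3 : N (g τ) = N (a + τ • b) := rfl
    linarith
  set s : ℝ → Pl := fun τ => (N (g τ))⁻¹ • g τ with hs
  have hsc : ContinuousOn s (Ioo (-1 : ℝ) 1) := by
    rw [hs]
    refine ContinuousOn.smul (ContinuousOn.inv₀ (h.cont.comp hgc).continuousOn ?_)
      hgc.continuousOn
    intro τ hτ
    exact (hNpos τ hτ).ne'
  have hs1 : ∀ τ ∈ Ioo (-1 : ℝ) 1, N (s τ) = 1 := by
    intro τ hτ
    rw [hs]; simp only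
    rw [map_smul_eq_mul, norm_inv, Real.norm_eq_abs, abs_of_pos (hNpos τ hτ),
      inv_mul_cancel₀ (hNpos τ hτ).ne']
  have hs0 : s 0 = a := by
    rw [hs]; simp only
    have : g 0 = a := by simp [hg]
    rw [this, ha, inv_one, one_smul]
  have hcoord : ∀ τ, s τ = (N (g τ))⁻¹ • a + ((N (g τ))⁻¹ * τ) • b := by
    intro τ
    rw [hs]; simp only
    rw [hg]; simp only
    rw [smul_add, smul_smul]
  have hpos : ∀ τ ∈ Ioo (0 : ℝ) 1, N (a + b - s τ) < 1 := by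
    intro τ hτ
    have hτ' : τ ∈ Ioo (-1 : ℝ) 1 := ⟨by linarith [hτ.1], hτ.2⟩
    exact sign_pos h.sc ha hb hab (hcoord τ) (hs1 τ hτ') (inv_pos.2 (hNpos τ hτ'))
      (mul_pos (inv_pos.2 (hNpos τ hτ')) hτ.1)
  have hneg : ∀ τ ∈ Ioo (-1 : ℝ) 0, 1 < N (a + b - s τ) := by
    intro τ hτ
    have hτ' : τ ∈ Ioo (-1 : ℝ) 1 := ⟨hτ.1, by linarith [hτ.2]⟩
    exact sign_neg h.sc ha hb hab (hcoord τ) (hs1 τ hτ') (inv_pos.2 (hNpos τ hτ'))
      (mul_neg_of_pos_of_neg (inv_pos.2 (hNpos τ hτ')) hτ.2)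
  have h0mem : (0 : ℝ) ∈ Ioo (-1 : ℝ) 1 := by constructor <;> norm_num
  have hsat : ContinuousAt s 0 := hsc.continuousAt (Ioo_mem_nhds h0mem.1 h0mem.2)
  -- neighbourhoods
  have hev1 : ∀ᶠ τ in 𝓝 (0 : ℝ), s τ ∈ A := hsat.eventually_mem (by
    rw [hs0]; exact hA.mem_nhds haA)
  have hev2 : ∀ᶠ p : Pl × ℝ in 𝓝 (a + b, (0 : ℝ)), p.1 - s p.2 ∈ B := by
    have hc : ContinuousAt (fun p : Pl × ℝ => p.1 - s p.2) (a + b, (0 : ℝ)) := by
      refine ContinuousAt.sub continuousAt_fst ?_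
      exact ContinuousAt.comp (f := fun p : Pl × ℝ => p.2) (g := s) hsat continuousAt_snd
    refine hc.eventually_mem ?_
    have : (a + b, (0 : ℝ)).1 - s (a + b, (0 : ℝ)).2 = b := by
      change a + b - s 0 = b
      rw [hs0]; abel
    rw [this]
    exact hB.mem_nhds hbB
  obtain ⟨ρ₁, hρ₁, hρ₁'⟩ := Metric.eventually_nhds_iff.1 hev1
  obtain ⟨ρ₂, hρ₂, hρ₂'⟩ := Metric.eventually_nhds_iff.1 hev2
  obtain ⟨ρ, hρ0, hρ1, hρ2, hρ3⟩ : ∃ ρ : ℝ, 0 < ρ ∧ ρ < 1 ∧ ρ < ρ₁ ∧ ρ < ρ₂ := by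
    refine ⟨min (1 / 2) (min (ρ₁ / 2) (ρ₂ / 2)), ?_, ?_, ?_, ?_⟩
    · positivity
    · exact (min_le_left _ _).trans_lt (by norm_num)
    · exact ((min_le_right _ _).trans (min_le_left _ _)).trans_lt (by linarith)
    · exact ((min_le_right _ _).trans (min_le_right _ _)).trans_lt (by linarith)
  have hc1 : ContinuousAt (fun z : Pl => N (z - s ρ)) (a + b) :=
    (h.cont.comp (continuous_id.sub continuous_const)).continuousAt
  have hc2 : ContinuousAt (fun z : Pl => N (z - s (-ρ))) (a + b) :=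
    (h.cont.comp (continuous_id.sub continuous_const)).continuousAt
  have hev3 : ∀ᶠ z in 𝓝 (a + b), N (z - s ρ) < 1 :=
    hc1.eventually_lt continuousAt_const (hpos ρ ⟨hρ0, hρ1⟩)
  have hev4 : ∀ᶠ z in 𝓝 (a + b), 1 < N (z - s (-ρ)) :=
    continuousAt_const.eventually_lt hc2 (hneg (-ρ) ⟨by linarith, by linarith⟩)
  obtain ⟨ε₁, hε₁, hε₁'⟩ := Metric.eventually_nhds_iff.1 (hev3.and hev4)
  refine ⟨min ε₁ ρ₂, lt_min hε₁ hρ₂, fun z hz => ?_⟩
  rw [← dist_eq_norm] at hz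
  have hz1 := hε₁' (hz.trans_le (min_le_left _ _))
  have hsub : Icc (-ρ) ρ ⊆ Ioo (-1 : ℝ) 1 := fun τ hτ => ⟨by linarith [hτ.1], by linarith [hτ.2]⟩
  have hf : ContinuousOn (fun τ => N (z - s τ)) (Icc (-ρ) ρ) :=
    h.cont.comp_continuousOn (continuousOn_const.sub (hsc.mono hsub))
  have hiv := intermediate_value_Icc' (by linarith : -ρ ≤ ρ) hf
  obtain ⟨τ, hτ, hτv⟩ := hiv (show (1 : ℝ) ∈ Icc (N (z - s ρ)) (N (z - s (-ρ))) from
    ⟨hz1.1.le, hz1.2.le⟩)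
  simp only at hτv
  have hτρ : |τ| ≤ ρ := abs_le.2 hτ
  refine ⟨s τ, ?_, z - s τ, ?_, hs1 τ (hsub hτ), hτv, by abel⟩
  · refine hρ₁' ?_
    rw [Real.dist_eq, sub_zero]
    exact hτρ.trans_lt hρ2
  · refine hρ₂' (y := (z, τ)) ?_
    rw [Prod.dist_eq, max_lt_iff]
    refine ⟨hz.trans_le (min_le_right _ _), ?_⟩
    change dist τ 0 < ρ₂
    rw [Real.dist_eq, sub_zero]
    exact hτρ.trans_lt hρ3

end NPl
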