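import Pool.Agent.Work.MP_6b4466_lc.NP.Space

/-! # Norms outside all exceptional sets (M)

PROOF (`star_of_not_bad`). Let `F` be as in `Star`, `k = F.card`,
`r = finrank ℚ (span ℚ F)` (finite-dimensional, `F` finite), and suppose `2 r < k`. Let `y : Fin r → Pl`
be a `ℚ`-basis of `span ℚ F` (`Module.finBasis`/`Basis` composed with the inclusion), let `u : Fin k → Pl`
enumerate `F` (`F.equivFin.symm`). As `u i ∈ span ℚ F`, `u i = ∑ j, c i j • y j` for rationals `c i j`,
and `(c i j : ℚ) • y j = (c i j : ℝ) • y j` (`Rat.cast_smul_eq_qsmul` or similar). For `i ≠ j`: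
`u i ≠ u j` and `u i ≠ -u j` (`F` contains no opposite vectors; `u j ∈ F → -u j ∉ F`), so
`‖u i - u j‖, ‖u i + u j‖ > 0`; finitely many positive numbers have a positive lower bound, and
`1 / (m + 1)` is below it for some `m`. So `N ∈ BadSet a b c m` with `2 r < k`: contradiction.

PROOF (`sc_of_not_bad`). If `N u = N v = 1`, `u ≠ v`, then `N (u + v) ≤ 2`; if `= 2`, choose `m` with
`1 / (m + 1) ≤ ‖u - v‖`: `N ∈ ScBad a b m`.
-/

namespace NPl

open Set Metric Topology

theorem star_of_not_bad {a b : ℝ} (N : NormSp a b)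
    (h : ∀ (k r : ℕ) (c : Fin k → Fin r → ℚ) (m : ℕ), 2 * r < k → N ∉ BadSet a b c m) :
    Star N.1 := by
  intro F hF1 hF2
  by_contra hcon
  push Not at hcon
  have hfin : Module.Finite ℚ (Submodule.span ℚ (F : Set Pl)) :=
    Module.Finite.span_of_finite ℚ F.finite_toSet
  obtain ⟨B, -⟩ : ∃ B : Module.Basis (Fin (Module.finrank ℚ (Submodule.span ℚ (F : Set Pl)))) ℚ
      (Submodule.span ℚ (F : Set Pl)), True := ⟨Module.finBasis ℚ _, trivial⟩
  obtain ⟨u, hu⟩ : ∃ u : Fin F.card → Pl, u = fun i => (F.equivFin.symm i : Pl) := ⟨_, rfl⟩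
  have hmem : ∀ i, u i ∈ F := fun i => by rw [hu]; exact (F.equivFin.symm i).2
  have hinj : ∀ i j, i ≠ j → u i ≠ u j := by
    intro i j hij hne
    rw [hu] at hne
    exact hij (F.equivFin.symm.injective (Subtype.ext hne))
  have hspan : ∀ i, u i ∈ Submodule.span ℚ (F : Set Pl) := fun i =>
    Submodule.subset_span (Finset.mem_coe.2 (hmem i))
  have hpos : ∀ i j, i ≠ j → 0 < ‖u i - u j‖ ∧ 0 < ‖u i + u j‖ := by
    intro i j hij
    refine ⟨norm_pos_iff.2 (sub_ne_zero.2 (hinj i j hij)), norm_pos_iff.2 fun h0 => ?_⟩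
    have h1 : -u j = u i := by
      rw [add_comm] at h0
      exact neg_eq_of_add_eq_zero_right h0
    apply hF2 (u j) (hmem j)
    rw [h1]
    exact hmem i
  have htend := tendsto_one_div_add_atTop_nhds_zero_nat (𝕜 := ℝ)
  have hev : ∀ᶠ m : ℕ in Filter.atTop, ∀ i j, i ≠ j →
      1 / ((m : ℝ) + 1) ≤ ‖u i - u j‖ ∧ 1 / ((m : ℝ) + 1) ≤ ‖u i + u j‖ := by
    rw [Filter.eventually_all]
    intro i
    rw [Filter.eventually_all]
    intro j
    by_cases hij : i = j
    · exact Filter.Eventually.of_forall fun m hne => absurd hij hne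
    · obtain ⟨h1, h2⟩ := hpos i j hij
      exact ((htend.eventually_le_const h1).and (htend.eventually_le_const h2)).mono
        fun m hm _ => hm
  obtain ⟨m, hm⟩ := hev.exists
  refine h F.card _ (fun i j => B.repr ⟨u i, hspan i⟩ j) m hcon
    ⟨u, fun i => hF1 _ (hmem i), hm, fun j => (B j : Pl), fun i => ?_⟩
  have h1 := congrArg (Submodule.subtype _) (B.sum_repr ⟨u i, hspan i⟩)
  rw [map_sum] at h1
  simp only [map_smul, Submodule.subtype_apply] at h1
  rw [← h1]
  refine Finset.sum_congr rfl fun j _ => ?_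
  rw [Rat.cast_smul_eq_qsmul]

theorem sc_of_not_bad {a b : ℝ} (N : NormSp a b) (h : ∀ m : ℕ, N ∉ ScBad a b m) : SC N.1 := by
  intro x y hx hy hxy
  by_contra hcon
  push Not at hcon
  have h1 : N.1 (x + y) ≤ 2 := by
    have := map_add_le_add N.1 x y
    linarith
  have h2 : 0 < ‖x - y‖ := norm_pos_iff.2 (sub_ne_zero.2 hxy)
  obtain ⟨m, hm⟩ := exists_nat_one_div_lt h2
  exact h m ⟨x, y, hx, hy, hm.le, le_antisymm h1 hcon⟩

end NPl
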