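import Pool.Agent.Work.MP_6b4466_lc.NP.Defs

/-! # Support functionals and maxima of functionals (S-M)

PROOF (`support`). If `N e = 0` take `ℓ = 0`. In general apply Hahn-Banach
(`exists_extension_of_le_sublinear`) to the functional `t • e ↦ t * N e` on `span {e}`
(for `e = 0` trivial), which is `≤ N`: `t N e ≤ |t| N e = N (t • e)`. The extension `ℓ` satisfies
`ℓ x ≤ N x`, hence `-ℓ x = ℓ (-x) ≤ N x`, so `|ℓ x| ≤ N x`, and `ℓ e = N e`.

PROOF (`max_seminorm`). `M x = sup over l of |q l x| / s l` (nonempty finite set): as a seminorm the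
`Finset.sup'`/`Finset.sup` of the seminorms `(s l)⁻¹ • (normSeminorm ℝ ℝ).comp (q l)`
(`Seminorm.finset_sup_apply`), or define it by hand with `Seminorm.of`. The supremum over a finite
nonempty index set is attained.
-/

namespace NPl

open Set Metric Topology

theorem support (N : Seminorm ℝ Pl) (e : Pl) :
    ∃ ℓ : Pl →ₗ[ℝ] ℝ, (∀ x, |ℓ x| ≤ N x) ∧ ℓ e = N e := by
  rcases eq_or_ne e 0 with rfl | he
  · exact ⟨0, fun x => by simp, by simp⟩
  set f : Pl →ₗ.[ℝ] ℝ := LinearPMap.mkSpanSingleton e (N e) he with hf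
  have hfx : ∀ (t : ℝ) (h : t • e ∈ f.domain), f ⟨t • e, h⟩ = t * N e := by
    intro t h
    exact LinearPMap.mkSpanSingleton'_apply e (N e) _ t h
  have hdom : ∀ x : f.domain, ∃ t : ℝ, t • e = (x : Pl) := fun x =>
    Submodule.mem_span_singleton.1 x.2
  obtain ⟨g, hg1, hg2⟩ := exists_extension_of_le_sublinear f N
    (fun c hc x => by rw [map_smul_eq_mul, Real.norm_eq_abs, abs_of_pos hc])
    (fun x y => map_add_le_add N x y)
    (by
      rintro ⟨x, hx⟩
      obtain ⟨t, ht⟩ := hdom ⟨x, hx⟩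
      simp only at ht
      subst ht
      rw [hfx]
      change t * N e ≤ N (t • e)
      rw [map_smul_eq_mul, Real.norm_eq_abs]
      exact mul_le_mul_of_nonneg_right (le_abs_self t) (apply_nonneg N e))
  refine ⟨g, fun x => abs_le.2 ⟨?_, hg2 x⟩, ?_⟩
  · have h1 := hg2 (-x)
    rw [map_neg, map_neg_eq_map] at h1
    linarith
  · have hm : (1 : ℝ) • e ∈ f.domain := Submodule.smul_mem _ _ (Submodule.mem_span_singleton_self e)
    have h1 := hg1 ⟨(1 : ℝ) • e, hm⟩
    rw [hfx 1 hm, one_mul] at h1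
    simpa only [one_smul] using h1

theorem max_seminorm {L : ℕ} (hL : 0 < L) (q : Fin L → (Pl →ₗ[ℝ] ℝ)) (s : Fin L → ℝ)
    (hs : ∀ l, 0 < s l) :
    ∃ M : Seminorm ℝ Pl, (∀ l x, |q l x| ≤ s l * M x) ∧ ∀ x, ∃ l, |q l x| = s l * M x := by
  set p : Fin L → Seminorm ℝ Pl := fun l => ((s l)⁻¹ • q l).toSeminorm with hp
  have hpx : ∀ l x, p l x = (s l)⁻¹ * |q l x| := by
    intro l x
    change ‖((s l)⁻¹ • q l) x‖ = _
    rw [LinearMap.smul_apply, norm_smul, Real.norm_eq_abs, Real.norm_eq_abs,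
      abs_of_pos (inv_pos.2 (hs l))]
  have : Nonempty (Fin L) := ⟨⟨0, hL⟩⟩
  refine ⟨Finset.univ.sup p, fun l x => ?_, fun x => ?_⟩
  · have h1 : p l x ≤ Finset.univ.sup p x := Seminorm.le_finset_sup_apply (Finset.mem_univ l)
    rw [hpx, inv_mul_le_iff₀ (hs l)] at h1
    exact h1
  · obtain ⟨l, -, hl⟩ := Seminorm.exists_apply_eq_finset_sup p Finset.univ_nonempty x
    refine ⟨l, ?_⟩
    rw [hl, hpx, mul_inv_cancel_left₀ (hs l).ne']

end NPl
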