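import Pool.Agent.Work.MP_6b4466_lc.NP.Om

/-! # Strict triangle inequality (S)

PROOF. Suppose `α ≤ β` (the other case is symmetric). Then
`α u + β v = α (u + v) + (β - α) v`, so `N (α u + β v) ≤ α N (u + v) + (β - α) N v
< 2 α + (β - α) = α + β` because `N (u + v) < 2` (strict convexity, `u ≠ v`) and `α > 0`.
-/

namespace NPl

open Set Metric Topology

theorem strict_tri_aux {N : Seminorm ℝ Pl} (h : SC N) {u v : Pl} (hu : N u = 1) (hv : N v = 1)
    (huv : u ≠ v) {α β : ℝ} (hα : 0 < α) (hαβ : α ≤ β) : N (α • u + β • v) < α + β := by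
  have h1 : α • u + β • v = α • (u + v) + (β - α) • v := by
    rw [smul_add, sub_smul]; abel
  rw [h1]
  refine (map_add_le_add N _ _).trans_lt ?_
  rw [map_smul_eq_mul, map_smul_eq_mul, Real.norm_eq_abs, Real.norm_eq_abs, abs_of_pos hα,
    abs_of_nonneg (sub_nonneg.2 hαβ), hv]
  nlinarith [h u v hu hv huv]

theorem strict_tri {N : Seminorm ℝ Pl} (h : SC N) {u v : Pl} (hu : N u = 1) (hv : N v = 1)
    (huv : u ≠ v) {α β : ℝ} (hα : 0 < α) (hβ : 0 < β) : N (α • u + β • v) < α + β := by
  rcases le_total α β with hab | hab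
  · exact strict_tri_aux h hu hv huv hα hab
  · rw [add_comm (α • u), add_comm α]
    exact strict_tri_aux h hv hu (Ne.symm huv) hβ hab

end NPl
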