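import Pool.Agent.Work.MP_6b4466_lc.NP.Dens

/-! # With four colours no point is in three closures (S-M)

PROOF. Let `m` be the fourth colour. For a unit vector `s`: `N (x - (x + s)) = 1`, so by `cl_av`
`x + s` is in none of `U i, U j, U l`. Hence by `dens` every unit vector `s₀` satisfies
`x + s₀ ∈ closure (U m)`: for every open `W ∋ x + s₀`, apply `dens` to `A = {s | x + s ∈ W}` and get
a unit `s ∈ A` with `x + s ∈ U m'` for some `m'`, necessarily `m' = m`.
Take any unit vector `s` with `x + s ∈ U m` (`dens` with `A = univ`; unit vectors exist, e.g.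
`(N e)⁻¹ • e` for `e ≠ 0`, or from `hex` below) and `v` from `hex` for `s`: `N v = 1`,
`N (v - s) = 1`. Then `x + v ∈ closure (U m)` and `N ((x + v) - (x + s)) = 1`, so by `cl_av`
`x + s ∉ U m`: contradiction.
-/

namespace NPl

open Set Metric Topology

theorem fourth0 : ∀ i j l : Fin 4, ¬ i = j → ¬ i = l → ¬ j = l →
    ∃ m : Fin 4, ∀ m' : Fin 4, m' = i ∨ m' = j ∨ m' = l ∨ m' = m := by
  decide

theorem fourth (i j l : Fin 4) (h1 : i ≠ j) (h2 : i ≠ l) (h3 : j ≠ l) :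
    ∃ m : Fin 4, ∀ m' : Fin 4, m' ≠ i → m' ≠ j → m' ≠ l → m' = m := by
  obtain ⟨m, hm⟩ := fourth0 i j l h1 h2 h3
  refine ⟨m, fun m' a b c => ?_⟩
  rcases hm m' with h | h | h | h
  · exact absurd h a
  · exact absurd h b
  · exact absurd h c
  · exact h

theorem exists_unit {N : Seminorm ℝ Pl} (h : Nrm N) : ∃ s : Pl, N s = 1 := by
  obtain ⟨e, he⟩ : ∃ e : Pl, e ≠ 0 := exists_ne 0
  have hp : 0 < N e := lt_of_le_of_ne (apply_nonneg N _) fun h0 => he (h.defin _ h0.symm)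
  refine ⟨(N e)⁻¹ • e, ?_⟩
  rw [map_smul_eq_mul, norm_inv, Real.norm_eq_abs, abs_of_pos hp, inv_mul_cancel₀ hp.ne']

/-- If all unit vectors `s` with `x + s` coloured have `x + s ∈ U m`, contradiction. -/
theorem one_col {N : Seminorm ℝ Pl} (h : Nrm N) {U : Fin 4 → Set Pl} (hU : Col N U) {x : Pl}
    {m : Fin 4} (hm : ∀ s, N s = 1 → ∀ m', x + s ∈ U m' → m' = m) : False := by
  have hcl : ∀ s₀, N s₀ = 1 → x + s₀ ∈ closure (U m) := by
    intro s₀ hs₀
    rw [_root_.mem_closure_iff]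
    intro W hW hxW
    obtain ⟨s, hsA, hs1, m', hm'⟩ := dens h hU x (A := {s | x + s ∈ W})
      (hW.preimage (by fun_prop)) hxW hs₀
    exact ⟨x + s, hsA, hm s hs1 m' hm' ▸ hm'⟩
  obtain ⟨s₀, hs₀⟩ := exists_unit h
  obtain ⟨s, -, hs1, m', hm'⟩ := dens h hU x isOpen_univ (mem_univ s₀) hs₀
  have hsm : x + s ∈ U m := hm s hs1 m' hm' ▸ hm'
  obtain ⟨v, hv1, hv2, -⟩ := hex h hs1
  refine cl_av hU (hcl v hv1) ?_ hsm
  have : x + v - (x + s) = v - s := by abel
  rw [this, hv2]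

theorem no_three {N : Seminorm ℝ Pl} (h : Nrm N) {U : Fin 4 → Set Pl} (hU : Col N U)
    {i j l : Fin 4} (hij : i ≠ j) (hil : i ≠ l) (hjl : j ≠ l) {x : Pl}
    (hi : x ∈ closure (U i)) (hj : x ∈ closure (U j)) (hl : x ∈ closure (U l)) : False := by
  obtain ⟨m, hm⟩ := fourth i j l hij hil hjl
  refine one_col h hU (x := x) (m := m) ?_
  intro s hs m' hm'
  have hxs : N (x - (x + s)) = 1 := by
    have : x - (x + s) = -s := by abel
    rw [this, map_neg_eq_map, hs]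
  refine hm m' ?_ ?_ ?_
  · rintro rfl; exact cl_av hU hi hxs hm'
  · rintro rfl; exact cl_av hU hj hxs hm'
  · rintro rfl; exact cl_av hU hl hxs hm'

end NPl
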