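import Pool.Agent.Work.MP_6b4466_lc.NP.Sl
import Pool.Agent.Work.MP_6b4466_lc.NP.Nbd

/-! # Regions with two colours (M)

If the open set `O` meets only the colours `i ≠ j`, then no `z ∈ O` in the closures of both `U i` and
`U j` has a point `w ∈ O` at distance one.

PROOF. Let `a = w - z`, so `N a = 1` and `z + a ∈ O`. Let `A' = {a' | z + a' ∈ O}`, open,
`a ∈ A'`. There is a unit vector `a₂` with `om a (-a₂) ≠ 0` and `z + a - a₂ ∈ O`: take `e` with
`om a e > 0` (`om_exists`) and `a₂ = (N (a + τ e))⁻¹ • (a + τ • e)` for small `τ > 0`; as `τ → 0`,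
`a₂ → a` (so `z + a - a₂ → z ∈ O`), and `om a a₂ = (N (a + τ e))⁻¹ τ om a e ≠ 0`.
Apply `sum_unit` to `a`, `b = -a₂`, `A = A'`, `B = univ`: there is `ε > 0` such that every `z''` with
`‖z'' - (a - a₂)‖ < ε` is `a' + b'` with `a' ∈ A'`, `N a' = N b' = 1`.
The set `Q = {ζ ∈ O | ‖ζ - (z + a - a₂)‖ < ε}` is open and contains `z + a - a₂`. Claim: `Q` misses
all `U m`, contradicting the density of `⋃ m, U m`. Let `ζ ∈ Q`; write `ζ - z = a' + b'` as above and
`y = z + a' ∈ O`. As `N (z - y) = 1`, `cl_av` gives `y ∉ U i` and `y ∉ U j`; and `y ∉ U m` for the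
other `m` because `y ∈ O`. By `two_cl` (with `T = {i, j}`) `y` is in the closures of two different
colours of `{i, j}`, that is of `U i` and of `U j`. As `ζ = y + b'`, `N (y - ζ) = 1`, `cl_av` gives
`ζ ∉ U i`, `ζ ∉ U j`, and `ζ ∉ U m` for the other `m` because `ζ ∈ O`.
-/

namespace NPl

open Set Metric Topology

/-- Unit vectors close to `a` and not parallel to it. -/
theorem near_unit {N : Seminorm ℝ Pl} (h : Nrm N) {a : Pl} (ha : N a = 1) {W : Set Pl}
    (hW : IsOpen W) (haW : a ∈ W) : ∃ c ∈ W, N c = 1 ∧ om a c ≠ 0 := by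
  obtain ⟨e, he⟩ := om_exists (ne_zero_of_unit ha)
  set g : ℝ → Pl := fun τ => a + τ • e with hg
  have hgc : Continuous g := by
    rw [hg]; fun_prop
  have hom : ∀ τ, om a (g τ) = τ * om a e := by
    intro τ
    rw [hg]; simp only
    rw [om_add_right, om_smul_right, om_self, zero_add]
  have hg0 : g 0 = a := by simp [hg]
  have hcont : ContinuousAt (fun τ => (N (g τ))⁻¹ • g τ) 0 := by
    refine ContinuousAt.smul (ContinuousAt.inv₀ (h.cont.comp hgc).continuousAt ?_)
      hgc.continuousAt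
    change N (g 0) ≠ 0
    rw [hg0, ha]
    exact one_ne_zero
  have hev : ∀ᶠ τ in 𝓝 (0 : ℝ), (N (g τ))⁻¹ • g τ ∈ W := by
    refine hcont.eventually_mem ?_
    rw [hg0, ha, inv_one, one_smul]
    exact hW.mem_nhds haW
  obtain ⟨ρ, hρ, hρ'⟩ := Metric.eventually_nhds_iff.1 hev
  have hτ : dist (ρ / 2) 0 < ρ := by
    rw [Real.dist_eq, sub_zero, abs_of_pos (by positivity)]
    linarith
  have hom2 : om a (g (ρ / 2)) ≠ 0 := by
    rw [hom]
    exact mul_ne_zero (by positivity) he.ne'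
  have hne : g (ρ / 2) ≠ 0 := by
    intro h0
    rw [h0, om_zero_right] at hom2
    exact hom2 rfl
  have hNp : 0 < N (g (ρ / 2)) :=
    lt_of_le_of_ne (apply_nonneg N _) fun h0 => hne (h.defin _ h0.symm)
  refine ⟨(N (g (ρ / 2)))⁻¹ • g (ρ / 2), hρ' hτ, ?_, ?_⟩
  · rw [map_smul_eq_mul, norm_inv, Real.norm_eq_abs, abs_of_pos hNp, inv_mul_cancel₀ hNp.ne']
  · rw [om_smul_right]
    exact mul_ne_zero (inv_ne_zero hNp.ne') hom2

theorem two_col {N : Seminorm ℝ Pl} (h : Nrm N) {k : ℕ} {U : Fin k → Set Pl} (hU : Col N U)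
    {O : Set Pl} (hO : IsOpen O) {i j : Fin k} (hij : i ≠ j)
    (hT : ∀ m, m ≠ i → m ≠ j → Disjoint O (U m)) {z w : Pl} (hz : z ∈ O) (hw : w ∈ O)
    (hzi : z ∈ closure (U i)) (hzj : z ∈ closure (U j)) (hzw : N (w - z) = 1) : False := by
  set a : Pl := w - z with ha
  have hza : z + a = w := by rw [ha]; abel
  set A : Set Pl := {a' | z + a' ∈ O} with hA
  have hAo : IsOpen A := hO.preimage (by fun_prop)
  have haA : a ∈ A := by
    change z + a ∈ O
    rw [hza]; exact hw
  -- a second unit vector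
  obtain ⟨c, hcW, hc1, hcom⟩ := near_unit h hzw (W := {c | z + a - c ∈ O})
    (hO.preimage (by fun_prop)) (by
      change z + a - a ∈ O
      rw [add_sub_cancel_right]; exact hz)
  have hc1' : N (-c) = 1 := by rw [map_neg_eq_map, hc1]
  have hcom' : om a (-c) ≠ 0 := by
    rw [om_neg_right]; exact neg_ne_zero.2 hcom
  obtain ⟨ε, hε, hε'⟩ := sum_unit h hzw hc1' hcom' hAo isOpen_univ haA (mem_univ _)
  have hQo : IsOpen (O ∩ ball (z + a - c) ε) := hO.inter isOpen_ball
  have hQne : (O ∩ ball (z + a - c) ε).Nonempty := ⟨z + a - c, hcW, mem_ball_self hε⟩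
  obtain ⟨ζ, ⟨hζO, hζb⟩, hζU⟩ := hU.den.inter_open_nonempty _ hQo hQne
  obtain ⟨m, hm⟩ := mem_iUnion.1 hζU
  rw [mem_ball, dist_eq_norm] at hζb
  obtain ⟨a', ha', b', -, ha'1, hb'1, hsum⟩ := hε' (ζ - z) (by
    have : ζ - z - (a + -c) = ζ - (z + a - c) := by abel
    rw [this]; exact hζb)
  -- the point `y = z + a'`
  have hyO : z + a' ∈ O := ha'
  have hzy : N (z - (z + a')) = 1 := by
    have : z - (z + a') = -a' := by abel
    rw [this, map_neg_eq_map, ha'1]
  have hyU : ∀ m, z + a' ∉ U m := by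
    intro m hym
    by_cases hmi : m = i
    · exact cl_av hU hzi hzy (hmi ▸ hym)
    · by_cases hmj : m = j
      · exact cl_av hU hzj hzy (hmj ▸ hym)
      · exact Set.disjoint_left.1 (hT m hmi hmj) hyO hym
  obtain ⟨p, hp, q, hq, hpq, hyp, hyq⟩ := two_cl hU ({i, j} : Set (Fin k)) hO (by
    intro m hm
    rw [mem_insert_iff, mem_singleton_iff, not_or] at hm
    exact hT m hm.1 hm.2) hyO hyU
  have hboth : z + a' ∈ closure (U i) ∧ z + a' ∈ closure (U j) := by
    rcases hp with rfl | hp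
    · rcases hq with hq | hq
      · exact absurd hq.symm hpq
      · rw [mem_singleton_iff] at hq
        rw [hq] at hyq
        exact ⟨hyp, hyq⟩
    · rw [mem_singleton_iff] at hp
      rcases hq with hq | hq
      · rw [hp] at hyp
        rw [hq] at hyq
        exact ⟨hyq, hyp⟩
      · rw [mem_singleton_iff] at hq
        exact absurd (hp.trans hq.symm) hpq
  have hyζ : N (z + a' - ζ) = 1 := by
    have : z + a' - ζ = -b' := by
      have h1 : ζ = z + (a' + b') := by rw [hsum]; abel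
      rw [h1]; abel
    rw [this, map_neg_eq_map, hb'1]
  by_cases hmi : m = i
  · exact cl_av hU hboth.1 hyζ (hmi ▸ hm)
  · by_cases hmj : m = j
    · exact cl_av hU hboth.2 hyζ (hmj ▸ hm)
    · exact Set.disjoint_left.1 (hT m hmi hmj) hζO hm

end NPl
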