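import Pool.Agent.Work.MP_6b4466_lc.NP.BadC
import Pool.Agent.Work.MP_6b4466_lc.NP.StarB
import Pool.Agent.Work.MP_6b4466_lc.NP.BadD

/-! # Typical norms are strictly convex and satisfy the rational rank condition (S-M)

PROOF. `NormSp a b` is a complete metric space (`complete`), hence a Baire space. Let `G` be the
intersection of the sets `(BadSet a b c m)ᶜ` over all `k, r` with `2 r < k`, all
`c : Fin k → Fin r → ℚ` and all `m`, and of the sets `(ScBad a b m)ᶜ`: countably many open
(`badSet_closed`, `scBad_closed`) dense (`bad_dense`, `scBad_dense`) sets. So `G` is a dense `Gδ`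
(`dense_iInter_of_isOpen`, `IsGδ.iInter_of_isOpen`; index type
`Σ k r : ℕ, (Fin k → Fin r → ℚ) × ℕ`, countable, with the set `univ` when `¬ 2 r < k`), and its
elements satisfy `SC` and `Star` by `sc_of_not_bad`, `star_of_not_bad`.
-/

namespace NPl

open Set Metric Topology

theorem typical {a b : ℝ} (ha : 0 < a) (hab : a < b) :
    ∃ G : Set (NormSp a b), IsGδ G ∧ Dense G ∧ ∀ N ∈ G, SC N.1 ∧ Star N.1 := by
  have : CompleteSpace (NormSp a b) := complete
  -- the index type of the exceptional sets
  set I : Type := (Σ k : ℕ, Σ r : ℕ, (Fin k → Fin r → ℚ) × ℕ) ⊕ ℕ with hI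
  set B : I → Set (NormSp a b) := fun i => match i with
    | Sum.inl x => if 2 * x.2.1 < x.1 then (BadSet a b x.2.2.1 x.2.2.2)ᶜ else univ
    | Sum.inr m => (ScBad a b m)ᶜ with hB
  have hBo : ∀ i, IsOpen (B i) := by
    rintro (⟨k, r, c, m⟩ | m)
    · simp only [hB]
      split_ifs
      · exact (badSet_closed ha c m).isOpen_compl
      · exact isOpen_univ
    · exact (scBad_closed ha m).isOpen_compl
  have hBd : ∀ i, Dense (B i) := by
    rintro (⟨k, r, c, m⟩ | m)
    · simp only [hB]
      split_ifs with hkr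
      · exact bad_dense ha hab hkr c m
      · exact dense_univ
    · exact scBad_dense ha hab m
  have : Countable I := by
    rw [hI]; infer_instance
  refine ⟨⋂ i, B i, IsGδ.iInter_of_isOpen hBo, dense_iInter_of_isOpen hBo hBd, ?_⟩
  intro N hN
  rw [mem_iInter] at hN
  refine ⟨sc_of_not_bad N fun m => hN (Sum.inr m), star_of_not_bad N fun k r c m hkr => ?_⟩
  have h1 := hN (Sum.inl ⟨k, r, c, m⟩)
  simp only [hB, hkr, if_true] at h1
  exact h1

end NPl
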