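import Pool.Agent.Work.MP_6b4466_lc.NP.Tri

/-! # Uniqueness of the equilateral triangle on one side (M)

Let `a` be a unit vector and `v, v'` unit vectors with `N (v - a) = N (v' - a) = 1`, `om a v > 0`,
`om a v' > 0`. Then `v = v'`.

PROOF. Put `t = om a v`, `t' = om a v'`; by symmetry `t ≤ t'`. Put `lam = t / t' ∈ (0, 1]` and
`p = lam • (v' - a) - (1 - lam) • a`, `q = lam • v' + (1 - lam) • a`, so `q = p + (2 - lam) • a`.
`N p ≤ 1` and `N q ≤ 1` (convex combinations of unit vectors). `om a p = lam t' = t = om a v`, so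
`om a (v - p) = 0` and (`om_eq_zero`) `v = p + σ • a` for a real `σ`; then
`v - a = p + (σ - 1) • a`.
General fact (F): if `x = y + α • a`, `z = y + γ • a` with `N y ≤ 1`, `N z ≤ 1` and `0 < α < γ`,
then `N x < 1`. Proof: `x = (1 - α/γ) • y + (α/γ) • z`. If `N y < 1` or `N z < 1` then
`N x ≤ (1 - α/γ) N y + (α/γ) N z < 1`. If `N y = N z = 1`, `y ≠ z` (as `γ a ≠ 0`), `strict_tri` gives
`N x < (1 - α/γ) + α/γ = 1`.
* Suppose `lam < 1`, or more generally `σ ≠ 2 - lam` or so; go through the cases:
 - `0 < σ < 2 - lam`: (F) with `y = p`, `z = q`, `x = v` gives `N v < 1`, contradiction.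
 - `σ ≤ 0`: then `σ - 1 < σ < 2 - lam`; (F) with `y = v - a`, `x = v = y + a`,
   `z = q = y + (3 - lam - σ) • a` gives `N v < 1`, contradiction.
 - `σ ≥ 2 - lam` and `lam < 1`: then `σ - 1 ≥ 1 - lam > 0`; (F) with `y = p`,
   `x = v - a = p + (σ - 1) • a`, `z = v = p + σ • a` gives `N (v - a) < 1`, contradiction.
 - `lam = 1`, `σ ≥ 2 - lam = 1`: now `p = v' - a`, `q = v'`. If `σ > 1`, (F) with `y = p`,
   `x = v - a = p + (σ - 1) • a`, `z = v = p + σ • a` gives `N (v - a) < 1`, contradiction.
   So `σ = 1` and `v = p + a = v'`.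
-/

namespace NPl

open Set Metric Topology

private theorem inner_lt {N : Seminorm ℝ Pl} (h : Nrm N) {y a : Pl} (ha : a ≠ 0) {α γ : ℝ}
    (hα : 0 < α) (hαγ : α < γ) (hy : N y ≤ 1) (hz : N (y + γ • a) ≤ 1) : N (y + α • a) < 1 := by
  have hγ : 0 < γ := hα.trans hαγ
  set s : ℝ := α / γ with hs
  have hs0 : 0 < s := div_pos hα hγ
  have hs1 : s < 1 := (div_lt_one hγ).mpr hαγ
  have hsγ : s * γ = α := by
    rw [hs]
    field_simp
  have e : y + α • a = (1 - s) • y + s • (y + γ • a) := by
    rw [smul_add, smul_smul, hsγ, sub_smul, one_smul]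
    abel
  have hle : N (y + α • a) ≤ (1 - s) * N y + s * N (y + γ • a) := by
    rw [e]
    refine (map_add_le_add N _ _).trans (le_of_eq ?_)
    rw [map_smul_eq_mul, map_smul_eq_mul, Real.norm_eq_abs, Real.norm_eq_abs,
      abs_of_pos (by linarith), abs_of_pos hs0]
  rcases hy.lt_or_eq with hy1 | hy1
  · nlinarith
  · rcases hz.lt_or_eq with hz1 | hz1
    · nlinarith
    · have hne : y ≠ y + γ • a := by
        intro he
        have h2 : γ • a = 0 := by
          have := he.symm
          rwa [add_eq_left] at this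
        rcases smul_eq_zero.mp h2 with h3 | h3
        · exact hγ.ne' h3
        · exact ha h3
      have h3 := strict_tri h.sc hy1 hz1 hne (show 0 < 1 - s by linarith) hs0
      rw [← e] at h3
      linarith

private theorem hex_aux {N : Seminorm ℝ Pl} (h : Nrm N) {a v v' : Pl} (ha : N a = 1) (hv : N v = 1)
    (hva : N (v - a) = 1) (hom : 0 < om a v) (hv' : N v' = 1) (hva' : N (v' - a) = 1)
    (hom' : 0 < om a v') (hle : om a v ≤ om a v') : v = v' := by
  have ha0 : a ≠ 0 := ne_zero_of_unit ha
  set lam : ℝ := om a v / om a v' with hlam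
  have hl0 : 0 < lam := div_pos hom hom'
  have hl1 : lam ≤ 1 := (div_le_one hom').mpr hle
  have hlm : lam * om a v' = om a v := div_mul_cancel₀ _ hom'.ne'
  set p : Pl := lam • v' - a with hp
  have hNp : N p ≤ 1 := by
    have e : p = lam • (v' - a) + (1 - lam) • (-a) := by
      rw [hp, smul_sub, smul_neg, sub_smul, one_smul]
      abel
    rw [e]
    refine (map_add_le_add N _ _).trans (le_of_eq ?_)
    rw [map_smul_eq_mul, map_smul_eq_mul, Real.norm_eq_abs, Real.norm_eq_abs,
      abs_of_pos hl0, abs_of_nonneg (by linarith), map_neg_eq_map, hva', ha]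
    ring
  have hNq : N (p + (2 - lam) • a) ≤ 1 := by
    have e : p + (2 - lam) • a = lam • v' + (1 - lam) • a := by
      rw [hp, sub_smul, sub_smul, one_smul, two_smul]
      abel
    rw [e]
    refine (map_add_le_add N _ _).trans (le_of_eq ?_)
    rw [map_smul_eq_mul, map_smul_eq_mul, Real.norm_eq_abs, Real.norm_eq_abs,
      abs_of_pos hl0, abs_of_nonneg (by linarith), hv', ha]
    ring
  have homp : om a (v - p) = 0 := by
    rw [om_sub_right, hp, om_sub_right, om_smul_right, om_self, hlm]
    ring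
  obtain ⟨σ, hσ⟩ := om_eq_zero ha0 homp
  have hv2 : v = p + σ • a := by
    rw [← hσ]
    abel
  have hva2 : v - a = p + (σ - 1) • a := by
    rw [hv2, sub_smul, one_smul]
    abel
  rcases le_or_gt σ 0 with h1 | h1
  · exfalso
    have h2 : N ((v - a) + (3 - lam - σ) • a) ≤ 1 := by
      have e : (v - a) + (3 - lam - σ) • a = p + (2 - lam) • a := by
        rw [hva2, add_assoc, ← add_smul]
        congr 2
        ring
      rw [e]
      exact hNq
    have h3 := inner_lt h ha0 (show (0 : ℝ) < 1 by norm_num)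
      (show 1 < 3 - lam - σ by linarith) hva.le h2
    rw [one_smul, sub_add_cancel, hv] at h3
    exact lt_irrefl _ h3
  · rcases lt_or_ge σ (2 - lam) with h2 | h2
    · exfalso
      have h3 := inner_lt h ha0 h1 h2 hNp hNq
      rw [← hv2, hv] at h3
      exact lt_irrefl _ h3
    · rcases lt_or_ge 1 σ with h3 | h3
      · exfalso
        have h4 := inner_lt h ha0 (show 0 < σ - 1 by linarith) (show σ - 1 < σ by linarith) hNp
          (by rw [← hv2]; exact hv.le)
        rw [← hva2, hva] at h4
        exact lt_irrefl _ h4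
      · have h5 : σ = 1 := by linarith
        have h6 : lam = 1 := by linarith
        rw [hv2, hp, h5, h6, one_smul, one_smul, sub_add_cancel]

theorem hex_unique {N : Seminorm ℝ Pl} (h : Nrm N) {a v v' : Pl} (ha : N a = 1) (hv : N v = 1)
    (hva : N (v - a) = 1) (hom : 0 < om a v) (hv' : N v' = 1) (hva' : N (v' - a) = 1)
    (hom' : 0 < om a v') : v = v' := by
  rcases le_total (om a v) (om a v') with hle | hle
  · exact hex_aux h ha hv hva hom hv' hva' hom' hle
  · exact (hex_aux h ha hv' hva' hom' hv hva hom hle).symm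

end NPl
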